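import Pool.Agent.J4H97.HP.C1a

/-!
# Project HP: the Hecke operator as a finite sum
-/

open Polynomial Matrix

namespace Pool.Agent.J4H97.HP

open Pool.Agent.J4H98.HP

variable {Fq : Type} [Field Fq]

/-- the pairs `(a, d)` of monic polynomials with `a d = m`, `(a, n) = 1` -/
def pairs (n m : Fq[X]) : Set (Fq[X] × Fq[X]) :=
  {x | x.1.Monic ∧ x.2.Monic ∧ x.1 * x.2 = m ∧ IsCoprime x.1 n}

/-- the matrix `(a b; 0 d)`, `b = pol v` -/
noncomputable def hmat (a d : Fq[X]) (v : Fin d.natDegree → Fq) : Matrix (Fin 2) (Fin 2) (Kinf Fq) :=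
  !![emb Fq a, emb Fq (pol v); 0, emb Fq d]

lemma det_hmat_ne {a d : Fq[X]} (ha : a.Monic) (hd : d.Monic) (v : Fin d.natDegree → Fq) :
    (hmat a d v).det ≠ 0 := by
  unfold hmat
  rw [Matrix.det_fin_two_of, mul_zero, sub_zero]
  exact mul_ne_zero (emb_ne ha.ne_zero) (emb_ne hd.ne_zero)

lemma emb_injective : Function.Injective (emb Fq) := by
  rw [injective_iff_map_eq_zero]
  intro p hp
  by_contra h
  exact emb_ne h hp

lemma heckeSet_eq (n m : Fq[X]) : heckeSet n m =
    ⋃ x ∈ pairs n m, Set.range (fun v : Fin x.2.natDegree → Fq => gl (hmat x.1 x.2 v)) := by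
  ext h
  simp only [Set.mem_iUnion, Set.mem_range]
  constructor
  · rintro ⟨a, b, d, ha, hd, had, hcop, hb, hh⟩
    rw [degree_eq_natDegree hd.ne_zero] at hb
    obtain ⟨v, hv⟩ := exists_pol hb
    refine ⟨(a, d), ⟨ha, hd, had, hcop⟩, v, ?_⟩
    apply Units.ext
    show (gl (hmat a d v)).1 = h.1
    rw [gl_val (det_hmat_ne ha hd v), hh]
    unfold hmat
    rw [hv]
  · rintro ⟨⟨a, d⟩, ⟨ha, hd, had, hcop⟩, v, rfl⟩
    refine ⟨a, pol v, d, ha, hd, had, hcop, ?_, gl_val (det_hmat_ne ha hd v)⟩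
    rw [degree_eq_natDegree hd.ne_zero]
    exact pol_degree_lt v

lemma gl_hmat_injective {a d : Fq[X]} (ha : a.Monic) (hd : d.Monic) :
    Function.Injective (fun v : Fin d.natDegree → Fq => gl (hmat a d v)) := by
  intro v w h
  have h1 : hmat a d v = hmat a d w := by
    rw [← gl_val (det_hmat_ne ha hd v), ← gl_val (det_hmat_ne ha hd w)]
    exact congrArg (fun g : G Fq => g.1) h
  have h2 : emb Fq (pol v) = emb Fq (pol w) := congrFun (congrFun h1 0) 1
  exact pol_injective (emb_injective h2)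

lemma pairs_disjoint (n m : Fq[X]) : (pairs n m).PairwiseDisjoint
    (fun x => Set.range (fun v : Fin x.2.natDegree → Fq => gl (hmat x.1 x.2 v))) := by
  rintro ⟨a, d⟩ ⟨ha, hd, -, -⟩ ⟨a', d'⟩ ⟨ha', hd', -, -⟩ hne
  rw [Function.onFun, Set.disjoint_left]
  rintro g ⟨v, rfl⟩ ⟨w, hw⟩
  apply hne
  have h1 : hmat a' d' w = hmat a d v := by
    rw [← gl_val (det_hmat_ne ha hd v), ← gl_val (det_hmat_ne ha' hd' w)]
    exact congrArg (fun g : G Fq => g.1) hw
  have h2 : emb Fq a' = emb Fq a := congrFun (congrFun h1 0) 0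
  have h3 : emb Fq d' = emb Fq d := congrFun (congrFun h1 1) 1
  rw [emb_injective h2, emb_injective h3]

variable [Fintype Fq]

lemma finite_natDegree_le (k : ℕ) : {p : Fq[X] | p.natDegree ≤ k}.Finite := by
  apply Set.Finite.subset (Set.finite_range (pol : (Fin (k + 1) → Fq) → Fq[X]))
  intro p hp
  have : p.degree < ((k + 1 : ℕ) : WithBot ℕ) :=
    lt_of_le_of_lt degree_le_natDegree (by exact_mod_cast Nat.lt_succ_of_le hp)
  obtain ⟨v, hv⟩ := exists_pol this
  exact ⟨v, hv⟩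

lemma pairs_finite (n : Fq[X]) (m : Fq[X]) : (pairs n m).Finite := by
  apply Set.Finite.subset ((finite_natDegree_le (Fq := Fq) m.natDegree).prod
    (finite_natDegree_le (Fq := Fq) m.natDegree))
  rintro ⟨a, d⟩ ⟨ha, hd, had, -⟩
  have had' : a * d = m := had
  have ha' : a.Monic := ha
  have hd' : d.Monic := hd
  have := ha'.natDegree_mul hd'
  rw [had'] at this
  refine ⟨?_, ?_⟩
  · show a.natDegree ≤ m.natDegree
    omega
  · show d.natDegree ≤ m.natDegree
    omega

/-- the Hecke operator as an explicit sum -/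
theorem hecke_eq {N : Type} [AddCommGroup N] (n m : Fq[X]) (F : G Fq → N) (g : G Fq) :
    hecke n m F g = ∑ᶠ x ∈ pairs n m, ∑ v : Fin x.2.natDegree → Fq, F (gl (hmat x.1 x.2 v) * g) := by
  unfold hecke
  rw [heckeSet_eq, finsum_mem_biUnion (pairs_disjoint n m) (pairs_finite n m)
    (fun x _ => Set.finite_range _)]
  apply finsum_mem_congr rfl
  rintro ⟨a, d⟩ ⟨ha, hd, -, -⟩
  rw [finsum_mem_range (gl_hmat_injective ha hd), finsum_eq_sum_of_fintype]

end Pool.Agent.J4H97.HP
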