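import Pool.Agent.J4H97.HP.C1b
import Pool.Agent.J4H97.HP.Hk

/-!
# Project HP, job J8
-/

open Polynomial Matrix

namespace Pool.Agent.J4H97.HP

open Pool.Agent.J4H98.HP

lemma term_eq {Fq : Type} [Field Fq] [Fintype Fq] {N : Type} [AddCommGroup N] {F : G Fq → N}
    (hF : IsCochain F) {a d : Fq[X]} (ha : a.Monic) (hd : d.Monic) (v : Fin d.natDegree → Fq) :
    F (gl (hmat a d v) * gl !![unif Fq ^ 2, unif Fq; 0, 1]) =
      F (edge 1 (2 - a.natDegree + d.natDegree)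
        ((emb Fq a * unif Fq + emb Fq (pol v)) / emb Fq d)) := by
  have hp : (unif Fq ^ 2 : Kinf Fq) ≠ 0 := pow_ne_zero _ unif_ne
  have hP : (!![unif Fq ^ 2, unif Fq; 0, 1] : Matrix (Fin 2) (Fin 2) (Kinf Fq)).det ≠ 0 := by
    rw [Matrix.det_fin_two_of]
    simpa using hp
  have hane := emb_ne ha.ne_zero
  have hdne := emb_ne hd.ne_zero
  rw [← gl_mul (det_hmat_ne ha hd v) hP]
  unfold hmat
  rw [Matrix.mul_fin_two]
  simp only [mul_zero, mul_one, zero_mul, add_zero, zero_add]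
  have he : emb Fq a * unif Fq ^ 2 * emb Fq d - (emb Fq a * unif Fq + emb Fq (pol v)) * 0 =
      emb Fq a * unif Fq ^ 2 * emb Fq d := by ring
  have hne : emb Fq a * unif Fq ^ 2 * emb Fq d ≠ 0 := mul_ne_zero (mul_ne_zero hane hp) hdne
  have := red hF 1 (emb Fq a * unif Fq ^ 2) (emb Fq a * unif Fq + emb Fq (pol v)) 0 (emb Fq d)
    hdne (by rw [he]; exact hne) (val_zero _)
  rw [one_mul, one_mul, he] at this
  rw [this, ← edge_one]
  congr 2
  rw [order_mul' (mul_ne_zero hane hp) hdne, order_mul' hane hp, sq, order_mul' unif_ne unif_ne,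
    order_unif, emb_order ha.ne_zero, emb_order hd.ne_zero]
  ring

lemma finsum_mem_single {ι N : Type} [AddCommGroup N] (S : Set ι) (φ : ι → N) (a : ι) (ha : a ∈ S)
    (h : ∀ x ∈ S, x ≠ a → φ x = 0) : ∑ᶠ x ∈ S, φ x = φ a := by
  classical
  rw [finsum_eq_single _ a]
  · rw [finsum_eq_if, if_pos ha]
  · intro x hx
    by_cases hxm : x ∈ S
    · rw [finsum_eq_if, if_pos hxm]
      exact h x hxm hx
    · rw [finsum_eq_if, if_neg hxm]

lemma C1_aux {Fq : Type} [Field Fq] [Fintype Fq] {N : Type} [AddCommGroup N] {F : G Fq → N}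
    {n g : Fq[X]}
    (hF : IsCochain F) (hfam : Fam0 n (fun δ k u => F (edge δ k u))) (h0 : F (edge 1 1 0) = 0)
    (x : Fq[X] × Fq[X]) (hx : x ∈ pairs n g) (hne : x ≠ ((1 : Fq[X]), g)) :
    ∑ v : Fin x.2.natDegree → Fq, F (gl (hmat x.1 x.2 v) * gl !![unif Fq ^ 2, unif Fq; 0, 1]) = 0 := by
  obtain ⟨a, d⟩ := x
  obtain ⟨ha, hd, had, -⟩ := hx
  have ha' : a.Monic := ha
  have hd' : d.Monic := hd
  have had' : a * d = g := had
  have hda : 0 < a.natDegree := by
    rw [Nat.pos_iff_ne_zero]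
    intro h
    apply hne
    have ha1 : a = 1 := ha'.natDegree_eq_zero.1 h
    rw [ha1, one_mul] at had'
    rw [ha1, had']
  show ∑ v : Fin d.natDegree → Fq, F (gl (hmat a d v) * gl !![unif Fq ^ 2, unif Fq; 0, 1]) = 0
  rw [Finset.sum_congr rfl (fun v _ => term_eq hF ha' hd' v)]
  exact V_vanish (Φ := fun δ k u => F (edge δ k u)) hfam h0 hda hd'

lemma C1_main {Fq : Type} [Field Fq] [Fintype Fq] {N : Type} [AddCommGroup N] {F : G Fq → N}
    {g : Fq[X]} (hF : IsCochain F) (hg : g.Monic) :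
    ∑ v : Fin g.natDegree → Fq, F (gl (hmat 1 g v) * gl !![unif Fq ^ 2, unif Fq; 0, 1]) =
      ∑ v : Fin g.natDegree → Fq,
        F (edge 1 (g.natDegree + 2) ((unif Fq + emb Fq (pol v)) / emb Fq g)) := by
  apply Finset.sum_congr rfl
  intro v _
  rw [term_eq hF monic_one hg v]
  have e1 : (2 : ℤ) - ((1 : Fq[X]).natDegree : ℤ) + (g.natDegree : ℤ) = g.natDegree + 2 := by
    rw [natDegree_one]; push_cast; ring
  rw [e1, map_one, one_mul]

lemma C1_hecke {Fq : Type} [Field Fq] [Fintype Fq] {N : Type} [AddCommGroup N] {F : G Fq → N}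
    {n g : Fq[X]}
    (hF : IsCochain F) (hfam : Fam0 n (fun δ k u => F (edge δ k u))) (h0 : F (edge 1 1 0) = 0)
    (hg : g.Monic) :
    hecke n g F (gl !![unif Fq ^ 2, unif Fq; 0, 1]) =
      ∑ v : Fin g.natDegree → Fq,
        F (edge 1 (g.natDegree + 2) ((unif Fq + emb Fq (pol v)) / emb Fq g)) := by
  have hmem : ((1 : Fq[X]), g) ∈ pairs n g := ⟨monic_one, hg, one_mul g, isCoprime_one_left⟩
  rw [hecke_eq]
  have := finsum_mem_single (pairs n g) (fun x => ∑ v : Fin x.2.natDegree → Fq,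
    F (gl (hmat x.1 x.2 v) * gl !![unif Fq ^ 2, unif Fq; 0, 1])) ((1 : Fq[X]), g) hmem
    (C1_aux hF hfam h0)
  exact this.trans (C1_main hF hg)

theorem t_C1 : S_C1 := by
  intro Fq _ _ n g N _ F hF hfam h0 hg
  exact congrArg (fun x => -x) (C1_hecke hF hfam h0 hg)

end Pool.Agent.J4H97.HP
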