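import Pool.Agent.J4H98.HP.Jobs2
import Pool.Agent.J4H97.HP.C1

/-!
# Project HP, K11b
-/

open Polynomial Matrix

namespace Pool.Agent.J4H97.HP

open Pool.Agent.J4H98.HP

lemma term_eq1 {Fq : Type} [Field Fq] [Fintype Fq] {N : Type} [AddCommGroup N] {F : G Fq → N}
    (hF : IsCochain F) {a d : Fq[X]} (ha : a.Monic) (hd : d.Monic) (v : Fin d.natDegree → Fq) :
    F (gl (hmat a d v) * edge 1 1 0) =
      F (edge 1 (1 - a.natDegree + d.natDegree) ((0 + emb Fq (pol v)) / emb Fq d)) := by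
  have hp : (unif Fq : Kinf Fq) ≠ 0 := unif_ne
  have hP : (!![HahnSeries.single (1 : ℤ) (1 : Fq), 0; 0, 1] : Matrix (Fin 2) (Fin 2) (Kinf Fq)).det ≠ 0 := by
    rw [Matrix.det_fin_two_of]
    simp
  have hane := emb_ne ha.ne_zero
  have hdne := emb_ne hd.ne_zero
  rw [edge_one, ← gl_mul (det_hmat_ne ha hd v) hP]
  unfold hmat
  rw [Matrix.mul_fin_two]
  simp only [mul_zero, mul_one, zero_mul, add_zero, zero_add]
  change F (gl !![emb Fq a * unif Fq, emb Fq (pol v); 0, emb Fq d]) = _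
  have he : emb Fq a * unif Fq * emb Fq d - emb Fq (pol v) * 0 =
      emb Fq a * unif Fq * emb Fq d := by ring
  have hne : emb Fq a * unif Fq * emb Fq d ≠ 0 := mul_ne_zero (mul_ne_zero hane hp) hdne
  have := red hF 1 (emb Fq a * unif Fq) (emb Fq (pol v)) 0 (emb Fq d)
    hdne (by rw [he]; exact hne) (val_zero _)
  rw [one_mul, one_mul, he] at this
  rw [this, ← edge_one]
  congr 2
  rw [order_mul' (mul_ne_zero hane hp) hdne, order_mul' hane hp,
    order_unif, emb_order ha.ne_zero, emb_order hd.ne_zero]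
  ring

theorem t_HCUSP : Pool.Agent.J4H98.HP.S_HCUSP := by
  intro Fq _ _ n m N _ F hF hfam h0 hm
  rw [hecke_eq]
  apply finsum_mem_eq_zero_of_forall_eq_zero
  rintro ⟨a, d⟩ ⟨ha, hd, -, -⟩
  have ha' : a.Monic := ha
  have hd' : d.Monic := hd
  show ∑ v : Fin d.natDegree → Fq, F (gl (hmat a d v) * edge 1 1 0) = 0
  rw [Finset.sum_congr rfl (fun v _ => term_eq1 hF ha' hd' v)]
  exact V_zero (Φ := fun δ k u => F (edge δ k u)) hfam h0 hd' a.natDegree

end Pool.Agent.J4H97.HP
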