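import Pool.Agent.J4H97.HP.Cos

/-!
# Project HP, jobs J5 and J6
-/

open Polynomial Matrix

namespace Pool.Agent.J4H97.HP

open Pool.Agent.J4H98.HP

section
variable {Fq : Type} [Field Fq]

/-- an integral matrix of nonzero determinant in `GL₂(K_∞)` -/
noncomputable def ge (M : Matrix (Fin 2) (Fin 2) Fq[X]) : G Fq := gl (M.map (emb Fq))

lemma det_map_ne' {M : Matrix (Fin 2) (Fin 2) Fq[X]} (h : M.det ≠ 0) : (M.map (emb Fq)).det ≠ 0 := by
  rw [det_map]; exact emb_ne h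

lemma ge_val {M : Matrix (Fin 2) (Fin 2) Fq[X]} (h : M.det ≠ 0) : (ge M).1 = M.map (emb Fq) :=
  gl_val (det_map_ne' h)

lemma ge_mul {M M' : Matrix (Fin 2) (Fin 2) Fq[X]} (h : M.det ≠ 0) (h' : M'.det ≠ 0) :
    ge (M * M') = ge M * ge M' := by
  unfold ge
  rw [map_mul', gl_mul (det_map_ne' h) (det_map_ne' h')]

lemma map_inj {M M' : Matrix (Fin 2) (Fin 2) Fq[X]} (h : M.map (emb Fq) = M'.map (emb Fq)) :
    M = M' := by
  refine Matrix.ext fun i j => emb_injective ?_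
  exact congrFun (congrFun h i) j

lemma ge_inj {M M' : Matrix (Fin 2) (Fin 2) Fq[X]} (h : M.det ≠ 0) (h' : M'.det ≠ 0)
    (he : ge M = ge M') : M = M' := by
  apply map_inj
  rw [← ge_val h, ← ge_val h', he]

lemma rep_det {n m : Fq[X]} {r : Matrix (Fin 2) (Fin 2) Fq[X]} (h : r ∈ rep n m) : r.det ≠ 0 := by
  obtain ⟨a, b, d, ha, hd, -, -, -, rfl⟩ := h
  rw [Matrix.det_fin_two_of, mul_zero, sub_zero]
  exact mul_ne_zero ha.ne_zero hd.ne_zero

lemma map_of (a b c d : Fq[X]) : (!![a, b; c, d] : Matrix (Fin 2) (Fin 2) Fq[X]).map (emb Fq) =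
    !![emb Fq a, emb Fq b; emb Fq c, emb Fq d] := by
  refine Matrix.ext fun i j => ?_
  fin_cases i <;> fin_cases j <;> rfl

lemma heckeSet_image (n m : Fq[X]) : heckeSet n m = ge '' rep n m := by
  ext h
  constructor
  · rintro ⟨a, b, d, ha, hd, had, hcop, hb, hh⟩
    have hr : (!![a, b; 0, d] : Matrix (Fin 2) (Fin 2) Fq[X]) ∈ rep n m :=
      ⟨a, b, d, ha, hd, had, hcop, hb, rfl⟩
    refine ⟨_, hr, ?_⟩
    apply Units.ext
    show (ge _).1 = h.1
    rw [ge_val (rep_det hr), hh, map_of, map_zero]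
  · rintro ⟨r, hr, rfl⟩
    have hr' := hr
    obtain ⟨a, b, d, ha, hd, had, hcop, hb, rfl⟩ := hr
    refine ⟨a, b, d, ha, hd, had, hcop, hb, ?_⟩
    rw [ge_val (rep_det hr'), map_of, map_zero]

lemma gam_unit_ne {n : Fq[X]} {γ : Matrix (Fin 2) (Fin 2) Fq[X]} (h : γ ∈ gam n) : γ.det ≠ 0 :=
  h.1.ne_zero

lemma mem_Gam0_iff {n : Fq[X]} {g : G Fq} : g ∈ Gam0 n ↔ ∃ γ ∈ gam n, ge γ = g := by
  constructor
  · rintro ⟨a, b, c, d, hu, hn, h⟩
    have hg : (!![a, b; c, d] : Matrix (Fin 2) (Fin 2) Fq[X]) ∈ gam n :=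
      ⟨by rwa [Matrix.det_fin_two_of], hn⟩
    refine ⟨_, hg, ?_⟩
    apply Units.ext
    show (ge _).1 = g.1
    rw [ge_val (gam_unit_ne hg), h, map_of]
  · rintro ⟨γ, hγ, rfl⟩
    refine ⟨γ 0 0, γ 0 1, γ 1 0, γ 1 1, ?_, hγ.2, ?_⟩
    · rw [← Matrix.det_fin_two]; exact hγ.1
    · rw [ge_val (gam_unit_ne hγ), Matrix.eta_fin_two (γ.map (emb Fq))]
      rfl

lemma ge_mem {n : Fq[X]} {γ : Matrix (Fin 2) (Fin 2) Fq[X]} (h : γ ∈ gam n) : ge γ ∈ Gam0 n :=
  mem_Gam0_iff.2 ⟨γ, h, rfl⟩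

end

variable {Fq : Type} [Field Fq] [Fintype Fq]

lemma ge_injOn (n m : Fq[X]) : Set.InjOn ge (rep n m) :=
  fun _ hr _ hr' h => ge_inj (rep_det hr) (rep_det hr') h

lemma rep_finite (n m : Fq[X]) : (rep n m).Finite := by
  apply Set.Finite.of_finite_image _ (ge_injOn n m)
  rw [← heckeSet_image]
  exact heckeSet_finite n m

lemma hecke_rep {N : Type} [AddCommGroup N] (n m : Fq[X]) (F : G Fq → N) (g : G Fq) :
    hecke n m F g = ∑ r ∈ (rep_finite n m).toFinset, F (ge r * g) := by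
  unfold hecke
  rw [heckeSet_image, finsum_mem_image (ge_injOn n m), finsum_mem_eq_finite_toFinset_sum _
    (rep_finite n m)]

theorem t_PRESG : S_PRESG := by
  intro Fq _ _ n m N _ F hn hm hF γ0 hγ0 g
  obtain ⟨γ, hγ, rfl⟩ := mem_Gam0_iff.1 hγ0
  rw [hecke_rep, hecke_rep]
  have hex : ∀ r : rep n m, ∃ δ ∈ gam n, ∃ r' ∈ rep n m, δ * (r * γ) = r' := fun r =>
    exists_rep hm (del_mul_mem hγ (rep_mem_del r.2))
  choose δ hδ r' hr' he using hex
  have hinj : Function.Injective (fun r : rep n m => (⟨r' r, hr' r⟩ : rep n m)) := by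
    intro r1 r2 h
    have h' : r' r1 = r' r2 := congrArg Subtype.val h
    have h1 : δ r1 * r1.1 = δ r2 * r2.1 := by
      have e1 : δ r1 * r1.1 * γ = δ r2 * r2.1 * γ := by
        rw [mul_assoc, mul_assoc, he, he, h']
      have e2 := congrArg (fun M => M * γ⁻¹) e1
      simp only [mul_assoc] at e2
      rw [Matrix.mul_nonsing_inv _ hγ.1, mul_one, mul_one] at e2
      exact e2
    have h2 : (δ r2)⁻¹ * δ r1 * r1.1 = r2.1 := by
      rw [mul_assoc, h1, ← mul_assoc, Matrix.nonsing_inv_mul _ (hδ r2).1, one_mul]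
    apply Subtype.ext
    exact rep_unique (mul_mem_gam (inv_mem_gam (hδ r2)) (hδ r1)).1 r1.2 r2.2 h2
  have : Finite (rep n m) := rep_finite n m
  have hbij := Finite.injective_iff_bijective.1 hinj
  have hfin : Fintype (rep n m) := Fintype.ofFinite _
  have hconv : ∀ f : Matrix (Fin 2) (Fin 2) Fq[X] → N,
      ∑ r ∈ (rep_finite n m).toFinset, f r = ∑ r : rep n m, f r := by
    intro f
    rw [← Finset.sum_coe_sort]
    refine Fintype.sum_equiv (Equiv.subtypeEquivRight (fun x => ?_)) _ _ (fun x => rfl)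
    exact (rep_finite n m).mem_toFinset
  rw [hconv, hconv]
  rw [← hbij.sum_comp (fun r : rep n m => F (ge r.1 * g))]
  apply Finset.sum_congr rfl
  intro r _
  show F (ge r.1 * (ge γ * g)) = F (ge (r' r) * g)
  have hrd := rep_det r.2
  have hγd := gam_unit_ne hγ
  have hrγ : (r.1 * γ).det ≠ 0 := by
    rw [Matrix.det_mul]; exact mul_ne_zero hrd hγd
  rw [← he r, ge_mul (gam_unit_ne (hδ r)) hrγ, ge_mul hrd hγd, mul_assoc, mul_assoc,
    hF _ (ge_mem (hδ r))]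

end Pool.Agent.J4H97.HP
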