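import Pool.Agent.J4H97.HP.Coch
import Pool.Agent.J4H97.HP.HCusp
import Pool.Agent.J4H97.HP.PresG

/-!
# Project HP, K12: the Hecke operators act on the space of modular forms
-/

open Polynomial Matrix Filter Topology

namespace Pool.Agent.J4H97.HP

open Pool.Agent.J4H98.HP
open Pool.Agent.TH828.DM (Omega OmegaN IsRigidAnalytic expA res HasRes pt avg)
open Pool.Agent.N814.DR (slash SmallAtInfinity)

section
variable {Fq : Type} [Field Fq] [Fintype Fq] {C : Type} [NontriviallyNormedField C]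
  [IsUltrametricDist C] [Algebra Fq C] {t s ϖ : C} {ι : Kinf Fq →+* C}

lemma heckeM_rep (n m : Fq[X]) (f : C → C) :
    heckeM t n m f = ∑ r ∈ (rep_finite n m).toFinset, slash Fq t 2 1 r f :=
  finsum_mem_eq_finite_toFinset_sum _ (rep_finite n m)

/-- the action as an additive map -/
noncomputable def slHom (t : C) (ι : Kinf Fq →+* C) (g : G Fq) : (C → C) →+ (C → C) where
  toFun f := sl t ι g f
  map_zero' := by
    have := sl_add (t := t) (ι := ι) g 0 0
    rw [add_zero] at this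
    exact left_eq_add.1 this
  map_add' := sl_add g

lemma sl_ge (hS : Sta t s ι) {r : Matrix (Fin 2) (Fin 2) Fq[X]} (hr : r.det ≠ 0) (f : C → C) :
    sl t ι (ge r) f = slash Fq t 2 1 r f := sl_slash hS hr f

lemma sl_heckeM (hS : Sta t s ι) (n m : Fq[X]) (f : C → C) (x : G Fq) :
    sl t ι x (heckeM t n m f) = ∑ r ∈ (rep_finite n m).toFinset, sl t ι (ge r * x) f := by
  have h1 : sl t ι x (heckeM t n m f) = slHom t ι x (heckeM t n m f) := rfl
  rw [h1, heckeM_rep, map_sum]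
  refine Finset.sum_congr rfl fun r hr => ?_
  have hr' : r ∈ rep n m := by simpa using hr
  rw [sl_mul hS, sl_ge hS (rep_det hr')]
  rfl

lemma sl_inv (hS : Sta t s ι) {n : Fq[X]} {f : C → C}
    (hf : ∀ γ : Matrix (Fin 2) (Fin 2) Fq[X], IsUnit γ.det → n ∣ γ 1 0 → slash Fq t 2 1 γ f = f)
    {γ : G Fq} (hγ : γ ∈ Gam0 n) (x : G Fq) : sl t ι (γ * x) f = sl t ι x f := by
  obtain ⟨γ', h1, rfl⟩ := mem_Gam0_iff.1 hγ
  rw [sl_mul hS, sl_ge hS (gam_unit_ne h1), hf γ' h1.1 h1.2]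

lemma heckeM_inv (hS : Sta t s ι) {n m : Fq[X]} (hn : n.Monic) (hm : m.Monic) {f : C → C}
    (hf : ∀ γ : Matrix (Fin 2) (Fin 2) Fq[X], IsUnit γ.det → n ∣ γ 1 0 → slash Fq t 2 1 γ f = f)
    (h0 : ∀ z, z ∉ Omega Fq t → heckeM t n m f z = 0)
    {γ : Matrix (Fin 2) (Fin 2) Fq[X]} (hγ : IsUnit γ.det) (hγn : n ∣ γ 1 0) :
    slash Fq t 2 1 γ (heckeM t n m f) = heckeM t n m f := by
  have hg : ge γ ∈ Gam0 n := mem_Gam0_iff.2 ⟨γ, ⟨hγ, hγn⟩, rfl⟩
  have h1 := t_PRESG Fq n m (C → C) (fun x => sl t ι x f) hn hm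
    (fun γ hγ x => sl_inv hS hf hγ x) (ge γ) hg 1
  rw [hecke_rep, hecke_rep] at h1
  have h2 := sl_heckeM hS n m f (ge γ * 1)
  have h3 := sl_heckeM hS n m f 1
  rw [← sl_ge hS hγ.ne_zero]
  rw [mul_one] at h1 h2
  rw [h2, h1, ← h3, sl_one h0]

lemma rigid_sum {ι' : Type} (T : Finset ι') (φ : ι' → C → C) (h : ∀ i ∈ T, IsRigidAnalytic Fq t (φ i)) :
    IsRigidAnalytic Fq t (∑ i ∈ T, φ i) := by
  classical
  induction T using Finset.induction_on with
  | empty =>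
    rw [Finset.sum_empty]
    exact Pool.Agent.N814.DR.IsRigidAnalytic.zero'
  | insert x T hx ih =>
    rw [Finset.sum_insert hx]
    exact Pool.Agent.N814.DR.IsRigidAnalytic.add' (h x (Finset.mem_insert_self _ _))
      (ih fun i hi => h i (Finset.mem_insert_of_mem hi))

lemma small_sum {ι' : Type} (T : Finset ι') (φ : ι' → C → C) (h : ∀ i ∈ T, SmallAtInfinity Fq t (φ i)) :
    SmallAtInfinity Fq t (∑ i ∈ T, φ i) := by
  classical
  induction T using Finset.induction_on with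
  | empty =>
    rw [Finset.sum_empty]
    exact Pool.Agent.N814.DR.SmallAtInfinity.zero'
  | insert x T hx ih =>
    rw [Finset.sum_insert hx]
    exact Pool.Agent.N814.DR.SmallAtInfinity.add' (h x (Finset.mem_insert_self _ _))
      (ih fun i hi => h i (Finset.mem_insert_of_mem hi))

lemma per_of_inv {n : Fq[X]} {f : C → C}
    (hf : ∀ γ : Matrix (Fin 2) (Fin 2) Fq[X], IsUnit γ.det → n ∣ γ 1 0 → slash Fq t 2 1 γ f = f) :
    Per Fq t f := by
  intro a z hz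
  have h := congrFun (hf !![1, a; 0, 1] (by rw [det_tr]; exact isUnit_one) (dvd_zero n)) z
  rw [Pool.Agent.N814.DR.slash_of_mem _ _ hz, det_tr] at h
  simpa [Pool.Agent.N814.DR.jf, Pool.Agent.N814.DR.mob] using h

/-- scalars act trivially -/
lemma slash_scalar (ht : 1 < ‖t‖) {n : Fq[X]} (hn : n ≠ 0) (M : Matrix (Fin 2) (Fin 2) Fq[X])
    (f : C → C) : slash Fq t 2 1 (n • M) f = slash Fq t 2 1 M f := by
  have hn0 := Pool.Agent.N814.DR.aeval_ne_zero ht hn
  funext z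
  by_cases hz : z ∈ Omega Fq t
  · rw [Pool.Agent.N814.DR.slash_of_mem _ _ hz, Pool.Agent.N814.DR.slash_of_mem _ _ hz,
      Matrix.det_smul, Fintype.card_fin]
    have e1 : Pool.Agent.N814.DR.jf t (n • M) z = aeval t n * Pool.Agent.N814.DR.jf t M z := by
      unfold Pool.Agent.N814.DR.jf
      simp only [Matrix.smul_apply, smul_eq_mul, map_mul]
      ring
    have e2 : Pool.Agent.N814.DR.mob t (n • M) z = Pool.Agent.N814.DR.mob t M z := by
      unfold Pool.Agent.N814.DR.mob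
      rw [e1]
      simp only [Matrix.smul_apply, smul_eq_mul, map_mul]
      rw [mul_assoc, ← mul_add, mul_div_mul_left _ _ hn0]
    rw [e1, e2, map_mul, map_pow, zpow_one, zpow_one, mul_pow, mul_inv]
    congr 1
    have h2 : aeval t n ^ 2 ≠ 0 := pow_ne_zero _ hn0
    field_simp
  · rw [Pool.Agent.N814.DR.slash_of_not_mem _ _ hz, Pool.Agent.N814.DR.slash_of_not_mem _ _ hz]

lemma det_W (n : Fq[X]) : (!![0, 1; n, 0] : Matrix (Fin 2) (Fin 2) Fq[X]).det = -n := by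
  rw [Matrix.det_fin_two_of]; ring

/-- smallness at all cusps -/
lemma small_all (hS : Sta t s ι) {n : Fq[X]} (hn : n.Monic) (hirr : Irreducible n) {f : C → C}
    (hf : ∀ γ : Matrix (Fin 2) (Fin 2) Fq[X], IsUnit γ.det → n ∣ γ 1 0 → slash Fq t 2 1 γ f = f)
    (h1 : SmallAtInfinity Fq t f) (h2 : SmallAtInfinity Fq t (slash Fq t 2 1 !![0, 1; n, 0] f))
    {M : Matrix (Fin 2) (Fin 2) Fq[X]} (hM : M.det ≠ 0) :
    SmallAtInfinity Fq t (slash Fq t 2 1 M f) := by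
  apply Pool.Agent.N814.DR.small_slash hS.ht _ hM
  intro γ
  have hγ : IsUnit γ.1.det := (Matrix.isUnit_iff_isUnit_det _).1 γ.isUnit
  generalize γ.1 = γ at hγ
  by_cases hd : n ∣ γ 1 0
  · rw [hf γ hγ hd]
    exact h1
  · have hcop : IsCoprime n (γ 1 0) := (hirr.coprime_iff_not_dvd).2 hd
    obtain ⟨u, v, huv⟩ := hcop
    set x := v * γ 1 1 with hx
    have hdvd : n ∣ γ 1 1 - γ 1 0 * x := by
      refine ⟨u * γ 1 1, ?_⟩
      rw [hx]
      linear_combination (-γ 1 1) * huv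
    set γ0 : Matrix (Fin 2) (Fin 2) Fq[X] := !![γ 0 1 - γ 0 0 * x, γ 0 0; γ 1 1 - γ 1 0 * x, γ 1 0] with hγ0
    have hdet0 : γ0.det = -γ.det := by
      rw [hγ0, Matrix.det_fin_two_of, Matrix.det_fin_two]; ring
    have hγe : γ = γ0 * !![0, 1; 1, x] := by
      conv_lhs => rw [Matrix.eta_fin_two γ]
      rw [hγ0, Matrix.mul_fin_two]
      congr 1
      ring_nf
    have hdw : (!![0, 1; 1, x] : Matrix (Fin 2) (Fin 2) Fq[X]).det ≠ 0 := by
      rw [Matrix.det_fin_two_of]; simp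
    have e1 : slash Fq t 2 1 γ f = slash Fq t 2 1 !![0, 1; 1, x] f := by
      rw [hγe, ← Pool.Agent.N814.DR.slash_mul hS.ht γ0 hdw, hf γ0 (by rw [hdet0]; exact hγ.neg) hdvd]
    have hdU : (!![1, x; 0, n] : Matrix (Fin 2) (Fin 2) Fq[X]).det ≠ 0 := by
      rw [Matrix.det_fin_two_of]; simpa using hn.ne_zero
    have e2 : (n • !![0, 1; 1, x] : Matrix (Fin 2) (Fin 2) Fq[X]) = !![0, 1; n, 0] * !![1, x; 0, n] := by
      rw [Matrix.mul_fin_two]
      refine Matrix.ext fun i j => ?_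
      fin_cases i <;> fin_cases j <;> simp
    rw [e1, ← slash_scalar hS.ht hn.ne_zero, e2, ← Pool.Agent.N814.DR.slash_mul hS.ht _ hdU]
    exact Pool.Agent.N814.DR.small_slash_tri hS.ht rfl hdU h2

variable [CompleteSpace C] [IsAlgClosed C]

lemma rc_heckeM (hS : Sta t s ι) (n m : Fq[X]) {f : C → C} (hf : IsRigidAnalytic Fq t f) :
    rc t s ι (heckeM t n m f) = hecke n m (rc t s ι f) := by
  funext x
  rw [hecke_rep]
  unfold rc
  rw [sl_heckeM hS]
  apply HasRes.res_eq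
  have h1 := HasRes.sum (q := Fintype.card Fq) (a := 0) (s := s) (T := (rep_finite n m).toFinset)
    (g := fun r => sl t ι (ge r * x) f)
    (v := fun r => res (Fintype.card Fq) (sl t ι (ge r * x) f) 0 s)
    (fun r _ => hasRes0 hS (sl_rigid hS _ hf))
  have e : (∑ r ∈ (rep_finite n m).toFinset, sl t ι (ge r * x) f) =
      fun z => ∑ r ∈ (rep_finite n m).toFinset, sl t ι (ge r * x) f z := by
    funext z
    rw [Finset.sum_apply]
  rw [e]
  exact h1

lemma rc_fam0 (hS : Sta t s ι) {n : Fq[X]} {f : C → C} (hr : IsRigidAnalytic Fq t f)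
    (hf : ∀ γ : Matrix (Fin 2) (Fin 2) Fq[X], IsUnit γ.det → n ∣ γ 1 0 → slash Fq t 2 1 γ f = f) :
    Fam0 n (fun δ k u => rc t s ι f (edge δ k u)) := by
  apply t_FAM0 Fq n C _ (t_COCH Fq C t s ι hS f hr)
  intro γ hγ x
  unfold rc
  rw [sl_inv hS hf hγ]

lemma t_inv_s (hS : Sta t s ι) : t ^ (-1 : ℤ) * s = s⁻¹ := by
  have hs0 := s_ne hS
  rw [← hS.hs, _root_.zpow_neg, _root_.zpow_one]
  field_simp

/-- the residue at the cusp -/
lemma hasRes_slash (hS : Sta t s ι) {f : C → C} (hr : IsRigidAnalytic Fq t f)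
    {δ : Matrix (Fin 2) (Fin 2) Fq[X]} (hδ : δ.det ≠ 0) :
    HasRes (Fintype.card Fq) (slash Fq t 2 1 δ f) 0 s⁻¹ (rc t s ι f (edge δ 1 0)) := by
  have h := t_EDGE Fq C t s ι hS f hr δ hδ 1 0
  rwa [map_zero, t_inv_s hS] at h

lemma hasRes_inf (hS : Sta t s ι) {f : C → C} (h0 : ∀ z, z ∉ Omega Fq t → f z = 0)
    (hr : IsRigidAnalytic Fq t f) :
    HasRes (Fintype.card Fq) f 0 s⁻¹ (rc t s ι f (edge 1 1 0)) := by
  have h := hasRes_slash hS hr (δ := 1) (by rw [Matrix.det_one]; exact one_ne_zero)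
  rwa [Pool.Agent.N814.DR.slash_one h0] at h

lemma DC_of (h4 : S_UE) (hS : Sta t s ι) (hϖ : ϖ ≠ 0) {f : C → C} (hr : IsRigidAnalytic Fq t f)
    (hp : Per Fq t f) (hs : SmallAtInfinity Fq t f)
    (hc : HasRes (Fintype.card Fq) f 0 s⁻¹ 0) : DC Fq t ϖ f := by
  obtain ⟨c, hc0, hc1, hc2, -⟩ := h4 Fq C t s ι hS f hr hp hs
  refine ⟨fun i => c i * ϖ ^ i, ⟨1, fun z hz hfar => ?_⟩, by simp [hc0], ?_⟩
  · convert hc2 z hz hfar using 2 with i
    rw [mul_inv, mul_pow, inv_pow]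
    have := pow_ne_zero i hϖ
    field_simp
  · have h1 := hc1 0
    have h2 : c 1 = 0 := by
      refine HasRes.unique h1 ?_
      refine hc.congr Pool.Agent.TH828.DM.two_le_card fun z _ => ?_
      rw [pow_zero, mul_one]
    beta_reduce
    rw [h2, zero_mul]

lemma res_of_DC (h4 : S_UE) (h13 : S_UNIQ) (hS : Sta t s ι) (hϖ : ϖ ≠ 0) {f : C → C}
    (hr : IsRigidAnalytic Fq t f) (hp : Per Fq t f) (hD : DC Fq t ϖ f) :
    SmallAtInfinity Fq t f ∧ HasRes (Fintype.card Fq) f 0 s⁻¹ 0 := by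
  obtain ⟨a, ha, ha0, ha1⟩ := hD
  have hsm : SmallAtInfinity Fq t f := (h13 Fq C t ϖ hS.ht hϖ f a a ha).2 ha0
  refine ⟨hsm, ?_⟩
  obtain ⟨c, hc0, hc1, hc2, -⟩ := h4 Fq C t s ι hS f hr hp hsm
  have hE : HasExp Fq t ϖ f (fun i => c i * ϖ ^ i) := by
    refine ⟨1, fun z hz hfar => ?_⟩
    convert hc2 z hz hfar using 2 with i
    rw [mul_inv, mul_pow, inv_pow]
    have := pow_ne_zero i hϖ
    field_simp
  have heq := (h13 Fq C t ϖ hS.ht hϖ f a _ ha).1 hE
  have h1 := congrFun heq 1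
  rw [ha1, pow_one] at h1
  have h2 : c 1 = 0 := by
    rcases mul_eq_zero.1 h1.symm with h | h
    · exact h
    · exact absurd h hϖ
  have h3 := hc1 0
  rw [zero_add, h2] at h3
  refine h3.congr Pool.Agent.TH828.DM.two_le_card fun z _ => ?_
  rw [pow_zero, mul_one]

/-- the residue at the cusp `0` -/
lemma rc_W (hS : Sta t s ι) {n : Fq[X]} (hn : n.Monic) (hn4 : n.natDegree = 4) {f : C → C}
    (hr : IsRigidAnalytic Fq t f) :
    rc t s ι f (edge !![0, 1; n, 0] 1 0) = rc t s ι f (edge !![0, 1; 1, 0] (-3) 0) := by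
  have hF := t_COCH Fq C t s ι hS f hr
  have hWd : (!![0, 1; n, 0] : Matrix (Fin 2) (Fin 2) Fq[X]).det ≠ 0 := by
    rw [det_W]; simpa using hn.ne_zero
  have hwd : (!![0, 1; 1, 0] : Matrix (Fin 2) (Fin 2) Fq[X]).det ≠ 0 := by
    rw [Matrix.det_fin_two_of]; simp
  have hnd : (!![n, 0; 0, 1] : Matrix (Fin 2) (Fin 2) Fq[X]).det ≠ 0 := by
    rw [Matrix.det_fin_two_of]; simpa using hn.ne_zero
  have e1 : (!![0, 1; n, 0] : Matrix (Fin 2) (Fin 2) Fq[X]) = !![0, 1; 1, 0] * !![n, 0; 0, 1] := by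
    rw [Matrix.mul_fin_two]
    simp
  have hp : (!![HahnSeries.single (1 : ℤ) (1 : Fq), 0; 0, 1] : Matrix (Fin 2) (Fin 2) (Kinf Fq)).det ≠ 0 := by
    rw [Matrix.det_fin_two_of]
    simp
  have hne := emb_ne hn.ne_zero
  have e2 : (edge !![0, 1; n, 0] 1 0 : G Fq) = ge !![0, 1; 1, 0] * gl !![emb Fq n * unif Fq, 0; 0, 1] := by
    have h1 : (edge !![0, 1; n, 0] 1 0 : G Fq) =
        ge !![0, 1; n, 0] * gl !![HahnSeries.single (1 : ℤ) (1 : Fq), 0; 0, 1] := rfl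
    rw [h1, e1, ge_mul hwd hnd, mul_assoc]
    congr 1
    unfold ge
    rw [← gl_mul (det_map_ne' hnd) hp, map_of, Matrix.mul_fin_two]
    simp only [map_zero, map_one, mul_zero, mul_one, zero_mul, add_zero, zero_add]
    rfl
  have hprod : emb Fq n * unif Fq ≠ 0 := mul_ne_zero hne unif_ne
  have h3 := red hF (ge !![0, 1; 1, 0]) (emb Fq n * unif Fq) 0 0 1 one_ne_zero
    (by rw [mul_one, mul_zero, sub_zero]; exact hprod) (val_zero _)
  rw [e2, h3]
  have e4 : ((emb Fq n * unif Fq) * 1 - 0 * 0 : Kinf Fq).order - 2 * (1 : Kinf Fq).order = -3 := by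
    rw [mul_one, mul_zero, sub_zero, order_mul' hne unif_ne, emb_order hn.ne_zero, order_unif,
      HahnSeries.order_one, hn4]
    norm_num
  rw [e4, zero_div]
  rfl

end

theorem t_MMH (h4 : S_UE) (h11 : S_CUSPC) (h13 : S_UNIQ) : Pool.Agent.J4H98.HP.S_MMH := by
  intro Fq C _ _ _ _ _ _ _ t s ϖ ι hS hϖ n m hn hirr hn4 hm f hf
  obtain ⟨hsupp, hrig, hinv, hinf, hzero⟩ := hf
  have hWd : (!![0, 1; n, 0] : Matrix (Fin 2) (Fin 2) Fq[X]).det ≠ 0 := by
    rw [det_W]; simpa using hn.ne_zero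
  set W : Matrix (Fin 2) (Fin 2) Fq[X] := !![0, 1; n, 0] with hW
  -- translations for `W`
  have hperW : ∀ f : C → C,
      (∀ γ : Matrix (Fin 2) (Fin 2) Fq[X], IsUnit γ.det → n ∣ γ 1 0 → slash Fq t 2 1 γ f = f) →
      Per Fq t (slash Fq t 2 1 W f) := by
    intro f hf a z hz
    have hd1 : (!![1, a; 0, 1] : Matrix (Fin 2) (Fin 2) Fq[X]).det ≠ 0 := by
      rw [det_tr]; exact one_ne_zero
    have hd2 : (!![1, 0; n * a, 1] : Matrix (Fin 2) (Fin 2) Fq[X]).det = 1 := by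
      rw [Matrix.det_fin_two_of]; ring
    have e1 : W * !![1, a; 0, 1] = !![1, 0; n * a, 1] * W := by
      rw [hW, Matrix.mul_fin_two, Matrix.mul_fin_two]
      simp
    have e2 : slash Fq t 2 1 !![1, a; 0, 1] (slash Fq t 2 1 W f) = slash Fq t 2 1 W f := by
      rw [Pool.Agent.N814.DR.slash_mul hS.ht W hd1, e1, ← Pool.Agent.N814.DR.slash_mul hS.ht _ hWd,
        hf _ (by rw [hd2]; exact isUnit_one) ⟨a, rfl⟩]
    have h := congrFun e2 z
    rw [Pool.Agent.N814.DR.slash_of_mem _ _ hz, det_tr] at h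
    simpa [Pool.Agent.N814.DR.jf, Pool.Agent.N814.DR.mob] using h
  -- properties of `f`
  have hrigW : IsRigidAnalytic Fq t (slash Fq t 2 1 W f) :=
    Pool.Agent.N814.DR.rigid_slash hS.ht hWd hrig
  obtain ⟨hsm, hres⟩ := res_of_DC h4 h13 hS hϖ hrig (per_of_inv hinv) hinf
  obtain ⟨hsmW, -⟩ := res_of_DC h4 h13 hS hϖ hrigW (hperW f hinv) hzero
  have hall : ∀ M : Matrix (Fin 2) (Fin 2) Fq[X], M.det ≠ 0 → SmallAtInfinity Fq t (slash Fq t 2 1 M f) :=
    fun M hM => small_all hS hn hirr hinv hsm hsmW hM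
  have hc : rc t s ι f (edge 1 1 0) = 0 := HasRes.unique (hasRes_inf hS hsupp hrig) hres
  -- properties of `g = T_m f`
  have gsupp : ∀ z, z ∉ Omega Fq t → heckeM t n m f z = 0 := by
    intro z hz
    rw [heckeM_rep, Finset.sum_apply]
    apply Finset.sum_eq_zero
    intro r _
    exact Pool.Agent.N814.DR.slash_of_not_mem _ _ hz
  have hdet : ∀ r ∈ (rep_finite n m).toFinset, r.det ≠ 0 := by
    intro r hr
    have hr' : r ∈ rep n m := by simpa using hr
    exact rep_det hr'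
  have grig : IsRigidAnalytic Fq t (heckeM t n m f) := by
    rw [heckeM_rep]
    exact rigid_sum _ _ fun r hr => Pool.Agent.N814.DR.rigid_slash hS.ht (hdet r hr) hrig
  have ginv : ∀ γ : Matrix (Fin 2) (Fin 2) Fq[X], IsUnit γ.det → n ∣ γ 1 0 →
      slash Fq t 2 1 γ (heckeM t n m f) = heckeM t n m f :=
    fun γ hγ hγn => heckeM_inv hS hn hm hinv gsupp hγ hγn
  have gsm : SmallAtInfinity Fq t (heckeM t n m f) := by
    rw [heckeM_rep]
    exact small_sum _ _ fun r hr => hall r (hdet r hr)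
  have gsmW : SmallAtInfinity Fq t (slash Fq t 2 1 W (heckeM t n m f)) := by
    rw [heckeM_rep, map_sum]
    refine small_sum _ _ fun r hr => ?_
    rw [Pool.Agent.N814.DR.slash_mul hS.ht r hWd]
    exact hall _ (by rw [Matrix.det_mul]; exact mul_ne_zero (hdet r hr) hWd)
  have grigW : IsRigidAnalytic Fq t (slash Fq t 2 1 W (heckeM t n m f)) :=
    Pool.Agent.N814.DR.rigid_slash hS.ht hWd grig
  -- the residues
  have hfam := rc_fam0 hS hrig hinv
  have gfam := rc_fam0 hS grig ginv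
  have hcoch := t_COCH Fq C t s ι hS f hrig
  have gc : rc t s ι (heckeM t n m f) (edge 1 1 0) = 0 := by
    rw [rc_heckeM hS n m hrig]
    exact t_HCUSP Fq n m C _ hcoch hfam hc hm
  have gcW : rc t s ι (heckeM t n m f) (edge W 1 0) = 0 := by
    rw [hW, rc_W hS hn hn4 grig]
    refine h11 Fq n hn hn4 hirr C (fun x => ?_) _ gfam gc
    rw [nsmul_eq_mul, Pool.Agent.TH828.DM.card_cast Fq C, zero_mul]
  refine ⟨gsupp, grig, ginv, ?_, ?_⟩
  · refine DC_of h4 hS hϖ grig (per_of_inv ginv) gsm ?_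
    have := hasRes_inf hS gsupp grig
    rwa [gc] at this
  · refine DC_of h4 hS hϖ grigW (hperW _ ginv) gsmW ?_
    have := hasRes_slash hS grig hWd
    rwa [gcW] at this

end Pool.Agent.J4H97.HP
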