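import Pool.Agent.J4H97.HP.Fam0

/-!
# Project HP, job J8, part a
-/

open Polynomial Matrix

namespace Pool.Agent.J4H97.HP

open Pool.Agent.J4H98.HP

variable {Fq : Type} [Field Fq]

/-! ### `pol` -/

lemma pol_coeff {m : ℕ} (v : Fin m → Fq) (j : ℕ) :
    (pol v).coeff j = if h : j < m then v ⟨j, h⟩ else 0 := by
  unfold pol
  rw [finsetSum_coeff]
  simp only [coeff_C_mul_X_pow]
  split_ifs with h
  · rw [Finset.sum_eq_single ⟨j, h⟩]
    · simp
    · intro b _ hb
      rw [if_neg]
      intro hj
      apply hb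
      ext
      exact hj.symm
    · intro hn
      exact absurd (Finset.mem_univ _) hn
  · apply Finset.sum_eq_zero
    intro b _
    rw [if_neg]
    intro hj
    apply h
    rw [hj]; exact b.2

lemma pol_degree_lt {m : ℕ} (v : Fin m → Fq) : (pol v).degree < m := by
  rw [degree_lt_iff_coeff_zero]
  intro j hj
  rw [pol_coeff, dif_neg (by omega)]

lemma pol_injective {m : ℕ} : Function.Injective (pol : (Fin m → Fq) → Fq[X]) := by
  intro v w h
  funext i
  have := congrArg (fun p => p.coeff i) h
  simp only [pol_coeff] at this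
  rwa [dif_pos i.2, dif_pos i.2] at this

lemma exists_pol {m : ℕ} {p : Fq[X]} (h : p.degree < m) : ∃ v : Fin m → Fq, pol v = p := by
  refine ⟨fun i => p.coeff i, ?_⟩
  ext j
  rw [pol_coeff]
  split_ifs with hj
  · rfl
  · exact ((degree_lt_iff_coeff_zero _ _).1 h j (by omega)).symm

lemma pol_snoc {m : ℕ} (v : Fin m → Fq) (c : Fq) :
    pol (Fin.snoc v c : Fin (m + 1) → Fq) = pol v + C c * X ^ m := by
  unfold pol
  rw [Fin.sum_univ_castSucc]
  simp

/-- sums of periodic functions are invariant under shifts -/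
lemma shift_sum [Fintype Fq] {N : Type} [AddCommGroup N] {d : Fq[X]} (hd : d.Monic) (f : Fq[X] → N)
    (hf : ∀ b e, f (b + d * e) = f b) (p : Fq[X]) :
    ∑ v : Fin d.natDegree → Fq, f (pol v + p) = ∑ v : Fin d.natDegree → Fq, f (pol v) := by
  have hlt : ∀ b : Fq[X], (b %ₘ d).degree < (d.natDegree : ℕ) := by
    intro b
    rw [← degree_eq_natDegree hd.ne_zero]
    exact degree_modByMonic_lt _ hd
  choose τ hτ using fun v : Fin d.natDegree → Fq => exists_pol (hlt (pol v + p))
  have hinj : Function.Injective τ := by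
    intro v w h
    have h1 : (pol v + p) %ₘ d = (pol w + p) %ₘ d := by rw [← hτ, ← hτ, h]
    have h2 : (pol v) %ₘ d = (pol w) %ₘ d := by
      rw [add_modByMonic, add_modByMonic] at h1
      exact add_right_cancel h1
    have h3 : ∀ v : Fin d.natDegree → Fq, (pol v) %ₘ d = pol v := by
      intro v
      rw [modByMonic_eq_self_iff hd, degree_eq_natDegree hd.ne_zero]
      exact pol_degree_lt v
    rw [h3, h3] at h2
    exact pol_injective h2
  have hbij : Function.Bijective τ := Finite.injective_iff_bijective.1 hinj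
  rw [← hbij.sum_comp (fun v => f (pol v))]
  apply Finset.sum_congr rfl
  intro v _
  rw [hτ]
  conv_lhs => rw [← modByMonic_add_div (pol v + p) d]
  exact hf _ _

end Pool.Agent.J4H97.HP
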