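import Pool.Agent.J4H97.HP.C1a

/-!
# Project HP, job J8, part b
-/

open Polynomial Matrix

namespace Pool.Agent.J4H97.HP

open Pool.Agent.J4H98.HP

variable {Fq : Type} [Field Fq]

lemma val_zero (k : ℤ) : Val k (0 : Kinf Fq) := fun _ _ => rfl

lemma val_mono {k l : ℤ} (h : l ≤ k) {x : Kinf Fq} (hx : Val k x) : Val l x :=
  fun i hi => hx i (lt_of_lt_of_le hi h)

lemma val_add {k : ℤ} {x y : Kinf Fq} (hx : Val k x) (hy : Val k y) : Val k (x + y) := by
  intro i hi
  rw [HahnSeries.coeff_add, hx i hi, hy i hi, add_zero]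

lemma val_sub {k : ℤ} {x y : Kinf Fq} (hx : Val k x) (hy : Val k y) : Val k (x - y) := by
  intro i hi
  rw [HahnSeries.coeff_sub, hx i hi, hy i hi, sub_zero]

lemma val_mul {k l : ℤ} {x y : Kinf Fq} (hx : Val k x) (hy : Val l y) : Val (k + l) (x * y) := by
  rw [val_iff] at *
  by_cases h1 : x = 0
  · left; rw [h1, zero_mul]
  by_cases h2 : y = 0
  · left; rw [h2, mul_zero]
  right
  rw [order_mul' h1 h2]
  rcases hx with h | h
  · exact absurd h h1
  rcases hy with h' | h'
  · exact absurd h' h2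
  linarith

lemma val_single (k : ℤ) (c : Fq) : Val k (HahnSeries.single k c : Kinf Fq) := by
  intro i hi
  rw [HahnSeries.coeff_single, if_neg (ne_of_lt hi)]

/-- `d = T^D (1 + O(π))` -/
lemma emb_monic {d : Fq[X]} (hd : d.Monic) :
    Val (1 - (d.natDegree : ℤ)) (emb Fq d - HahnSeries.single (-(d.natDegree : ℤ)) (1 : Fq)) := by
  intro i hi
  rw [HahnSeries.coeff_sub, emb_coeff, HahnSeries.coeff_single]
  by_cases h : i = -(d.natDegree : ℤ)
  · rw [if_pos h, if_pos (by omega), h]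
    simp only [Int.natAbs_neg, Int.natAbs_natCast]
    rw [hd.coeff_natDegree, sub_self]
  · rw [if_neg h, sub_zero]
    split_ifs with h1
    · apply coeff_eq_zero_of_natDegree_lt
      omega
    · rfl

lemma single_eq_div {d : Fq[X]} (hd : d.Monic) (k : ℤ) (c : Fq) :
    Val (k + d.natDegree + 1) (HahnSeries.single (k + d.natDegree) c -
      HahnSeries.single k c / emb Fq d) := by
  have hne := emb_ne hd.ne_zero
  have h1 : (HahnSeries.single (k + d.natDegree) c : Kinf Fq) -
      HahnSeries.single k c / emb Fq d =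
      (HahnSeries.single (k + d.natDegree) c * (emb Fq d - HahnSeries.single
        (-(d.natDegree : ℤ)) (1 : Fq))) / emb Fq d := by
    rw [mul_sub, HahnSeries.single_mul_single, mul_one]
    have : k + (d.natDegree : ℤ) + -(d.natDegree : ℤ) = k := by ring
    rw [this]
    field_simp
  rw [h1]
  have h2 := val_div (val_mul (val_single (k + d.natDegree) c) (emb_monic hd)) hne
  rw [emb_order hd.ne_zero] at h2
  refine val_mono ?_ h2
  linarith

lemma emb_C_mul_X_pow (c : Fq) (m : ℕ) : emb Fq (C c * X ^ m) = HahnSeries.single (-(m : ℤ)) c := by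
  rw [map_mul, map_pow, emb_C, emb_X, single_pow, HahnSeries.C_apply,
    HahnSeries.single_mul_single, zero_add, mul_one]

variable [Fintype Fq] {N : Type} [AddCommGroup N] {n : Fq[X]}
  {Φ : Matrix (Fin 2) (Fin 2) Fq[X] → ℤ → Kinf Fq → N}

lemma det_tr (e : Fq[X]) : (!![1, e; 0, 1] : Matrix (Fin 2) (Fin 2) Fq[X]).det = 1 := by
  rw [Matrix.det_fin_two_of]; ring

lemma det_one_unit : IsUnit (1 : Matrix (Fin 2) (Fin 2) Fq[X]).det := by
  rw [Matrix.det_one]; exact isUnit_one

/-- `Φ (δ (1 e; 0 1)) k u = Φ δ k (u + e)` -/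
lemma transl' (h : Fam0 n Φ) {δ : Matrix (Fin 2) (Fin 2) Fq[X]} (hδ : IsUnit δ.det) (k : ℤ)
    (u : Kinf Fq) (e : Fq[X]) : Φ (δ * !![1, e; 0, 1]) k u = Φ δ k (u + emb Fq e) := by
  have hden : den !![1, e; 0, 1] u = 1 := by
    simp [den]
  have hnum : num !![1, e; 0, 1] u = u + emb Fq e := by
    simp [num]
  have := h.moebA δ !![1, e; 0, 1] hδ (by rw [det_tr]; exact isUnit_one) k u
    (by rw [hden]; exact one_ne_zero) (by
      show Val _ (emb Fq 0)
      rw [map_zero]; exact val_zero _)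
  rw [this, hden, hnum, HahnSeries.order_one, div_one, mul_zero, sub_zero]

lemma transl (h : Fam0 n Φ) (k : ℤ) (u : Kinf Fq) (e : Fq[X]) :
    Φ 1 k (u + emb Fq e) = Φ 1 k u := by
  rw [← transl' h det_one_unit, one_mul]
  have := h.inv 1 det_one_unit !![1, e; 0, 1] (by rw [det_tr]; exact isUnit_one) (dvd_zero n)
  rw [mul_one] at this
  rw [this]

/-- the sum `V k x = ∑_{deg b < deg d} Φ 1 (k + deg d) ((x + b)/d)` -/
noncomputable def V (Φ : Matrix (Fin 2) (Fin 2) Fq[X] → ℤ → Kinf Fq → N) (d : Fq[X]) (k : ℤ)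
    (x : Kinf Fq) : N :=
  ∑ v : Fin d.natDegree → Fq, Φ 1 (k + d.natDegree) ((x + emb Fq (pol v)) / emb Fq d)

lemma V_congr (h : Fam0 n Φ) {d : Fq[X]} (hd : d.Monic) (k : ℤ) (x y : Kinf Fq)
    (hxy : Val k (x - y)) : V Φ d k x = V Φ d k y := by
  unfold V
  apply Finset.sum_congr rfl
  intro v _
  apply h.congr 1 det_one_unit
  have : (x + emb Fq (pol v)) / emb Fq d - (y + emb Fq (pol v)) / emb Fq d =
      (x - y) / emb Fq d := by ring
  rw [this]
  have h2 := val_div hxy (emb_ne hd.ne_zero)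
  rw [emb_order hd.ne_zero] at h2
  refine val_mono ?_ h2
  linarith

lemma V_shift (h : Fam0 n Φ) {d : Fq[X]} (hd : d.Monic) (k : ℤ) (x : Kinf Fq) (p : Fq[X]) :
    V Φ d k (x + emb Fq p) = V Φ d k x := by
  unfold V
  have hne := emb_ne hd.ne_zero
  rw [← shift_sum hd (fun b => Φ 1 (k + d.natDegree) ((x + emb Fq b) / emb Fq d)) ?_ p]
  · apply Finset.sum_congr rfl
    intro v _
    simp only [map_add]
    congr 2
    ring
  · intro b e
    simp only [map_add, map_mul]
    rw [← transl h _ ((x + emb Fq b) / emb Fq d) e]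
    congr 1
    field_simp
    ring

lemma V_step (h : Fam0 n Φ) {d : Fq[X]} (hd : d.Monic) (k : ℤ) (x : Kinf Fq) :
    V Φ d k x = ∑ c : Fq, V Φ d (k + 1) (x + HahnSeries.single k c) := by
  unfold V
  rw [Finset.sum_comm]
  apply Finset.sum_congr rfl
  intro v _
  rw [h.sum 1 det_one_unit]
  apply Finset.sum_congr rfl
  intro c _
  have e1 : k + (d.natDegree : ℤ) + 1 = k + 1 + d.natDegree := by ring
  rw [e1]
  apply h.congr 1 det_one_unit
  have : (x + emb Fq (pol v)) / emb Fq d + HahnSeries.single (k + d.natDegree) c -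
      (x + HahnSeries.single k c + emb Fq (pol v)) / emb Fq d =
      HahnSeries.single (k + d.natDegree) c - HahnSeries.single k c / emb Fq d := by ring
  rw [this, ← e1]
  exact single_eq_div hd k c

lemma V_neg (h : Fam0 n Φ) {d : Fq[X]} (hd : d.Monic) (j : ℕ) (x : Kinf Fq)
    (h1 : V Φ d 1 x = 0) : V Φ d (1 - j) x = 0 := by
  induction j with
  | zero => simpa using h1
  | succ j ih =>
    rw [V_step h hd]
    apply Finset.sum_eq_zero
    intro c _
    have e1 : (1 : ℤ) - ((j + 1 : ℕ) : ℤ) = -(j : ℤ) := by push_cast; ring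
    rw [e1, ← emb_C_mul_X_pow, V_shift h hd]
    have e2 : -(j : ℤ) + 1 = 1 - j := by ring
    rw [e2]
    exact ih

lemma split_ball (h : Fam0 n Φ) {d : Fq[X]} (hd : d.Monic) (m : ℕ) (x : Kinf Fq) :
    Φ 1 (d.natDegree + 1 - m) (x / emb Fq d) =
      ∑ v : Fin m → Fq, Φ 1 (d.natDegree + 1) ((x + emb Fq (pol v)) / emb Fq d) := by
  induction m generalizing x with
  | zero =>
    rw [Fintype.sum_unique]
    have : pol (default : Fin 0 → Fq) = 0 := by
      unfold pol; simp
    rw [this, map_zero, add_zero]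
    simp
  | succ m ih =>
    rw [h.sum 1 det_one_unit]
    rw [← (Fin.snocEquiv (fun _ : Fin (m + 1) => Fq)).sum_comp]
    rw [Fintype.sum_prod_type]
    apply Finset.sum_congr rfl
    intro c _
    have e1 : (d.natDegree : ℤ) + 1 - ((m + 1 : ℕ) : ℤ) + 1 = d.natDegree + 1 - m := by
      push_cast; ring
    have e2 : (d.natDegree : ℤ) + 1 - ((m + 1 : ℕ) : ℤ) = -(m : ℤ) + d.natDegree := by
      push_cast; ring
    rw [e1, e2]
    rw [h.congr 1 det_one_unit _ _ ((x + emb Fq (C c * X ^ m)) / emb Fq d) ?_, ih]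
    · apply Finset.sum_congr rfl
      intro v _
      congr 2
      have : (Fin.snocEquiv (fun _ : Fin (m + 1) => Fq)) (c, v) = (Fin.snoc v c : Fin (m + 1) → Fq) := rfl
      rw [this, pol_snoc, map_add]
      ring
    · rw [emb_C_mul_X_pow]
      have : x / emb Fq d + HahnSeries.single (-(m : ℤ) + d.natDegree) c -
          (x + HahnSeries.single (-(m : ℤ)) c) / emb Fq d =
          HahnSeries.single (-(m : ℤ) + d.natDegree) c -
            HahnSeries.single (-(m : ℤ)) c / emb Fq d := by ring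
      rw [this]
      refine val_mono ?_ (single_eq_div hd (-(m : ℤ)) c)
      linarith

lemma V_zero (h : Fam0 n Φ) (h0 : Φ 1 1 0 = 0) {d : Fq[X]} (hd : d.Monic) (j : ℕ) :
    V Φ d (1 - j) 0 = 0 := by
  apply V_neg h hd
  unfold V
  have := split_ball h hd d.natDegree 0
  have e : (d.natDegree : ℤ) + 1 - d.natDegree = 1 := by ring
  rw [e, zero_div, h0] at this
  rw [this]
  apply Finset.sum_congr rfl
  intro v _
  rw [add_comm (1 : ℤ)]

/-- the terms with `a ≠ 1` -/
lemma V_vanish (h : Fam0 n Φ) (h0 : Φ 1 1 0 = 0) {a d : Fq[X]} (ha : 0 < a.natDegree)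
    (hd : d.Monic) :
    ∑ v : Fin d.natDegree → Fq, Φ 1 (2 - a.natDegree + d.natDegree)
      ((emb Fq a * unif Fq + emb Fq (pol v)) / emb Fq d) = 0 := by
  obtain ⟨j, hj⟩ : ∃ j : ℕ, a.natDegree = j + 1 := ⟨a.natDegree - 1, by omega⟩
  have hk : (2 : ℤ) - a.natDegree = 1 - j := by rw [hj]; push_cast; ring
  rw [hk]
  show V Φ d (1 - j) (emb Fq a * unif Fq) = 0
  have h1 : emb Fq a * unif Fq = HahnSeries.single 1 (a.coeff 0) + emb Fq (divX a) := by
    conv_lhs => rw [← divX_mul_X_add a]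
    rw [map_add, map_mul, emb_C, emb_X, add_mul, mul_assoc]
    unfold unif
    rw [HahnSeries.single_mul_single, HahnSeries.C_apply, HahnSeries.single_mul_single]
    simp only [neg_add_cancel, mul_one, zero_add]
    rw [add_comm]
    congr 1
    rw [show (HahnSeries.single (0 : ℤ) (1 : Fq) : Kinf Fq) = 1 from rfl, mul_one]
  rw [h1, V_shift h hd, V_congr h hd _ _ 0, V_zero h h0 hd]
  rw [sub_zero]
  exact val_mono (by linarith) (val_single 1 _)

end Pool.Agent.J4H97.HP
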