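import Pool.Agent.J4H97.HP.C1b

/-!
# Project HP, job J2
-/

open Polynomial Matrix

namespace Pool.Agent.J4H97.HP

open Pool.Agent.J4H98.HP

section
variable {Fq : Type} [Field Fq]

/-- elements of `GL₂(A)` -/
def IsPoly (g : G Fq) : Prop :=
  ∃ δ : Matrix (Fin 2) (Fin 2) Fq[X], IsUnit δ.det ∧ g.1 = δ.map (emb Fq)

lemma isPoly_gl {δ : Matrix (Fin 2) (Fin 2) Fq[X]} (h : IsUnit δ.det) :
    IsPoly (gl (δ.map (emb Fq))) := ⟨δ, h, gl_val (det_map_ne h)⟩

lemma IsPoly.mul {g h : G Fq} (hg : IsPoly g) (hh : IsPoly h) : IsPoly (g * h) := by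
  obtain ⟨δ, h1, h2⟩ := hg
  obtain ⟨ε, h3, h4⟩ := hh
  refine ⟨δ * ε, by rw [Matrix.det_mul]; exact h1.mul h3, ?_⟩
  rw [map_mul', ← h2, ← h4]; rfl

lemma IsPoly.inv {g : G Fq} (hg : IsPoly g) : IsPoly g⁻¹ := by
  obtain ⟨δ, h1, h2⟩ := hg
  refine ⟨δ⁻¹, ?_, ?_⟩
  · exact Matrix.isUnit_nonsing_inv_det _ h1
  · have h3 : g.1 * (δ⁻¹).map (emb Fq) = 1 := by
      rw [h2, ← map_mul', Matrix.mul_nonsing_inv _ h1, Matrix.map_one _ (map_zero _) (map_one _)]
    have h4 : g⁻¹.1 * g.1 = 1 := by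
      have : (g⁻¹ * g).1 = (1 : G Fq).1 := by rw [inv_mul_cancel]
      exact this
    calc g⁻¹.1 = g⁻¹.1 * (g.1 * (δ⁻¹).map (emb Fq)) := by rw [h3, mul_one]
      _ = (g⁻¹.1 * g.1) * (δ⁻¹).map (emb Fq) := by rw [mul_assoc]
      _ = _ := by rw [h4, one_mul]

lemma isPoly_gam {n : Fq[X]} {g : G Fq} (hg : g ∈ Gam0 n) : IsPoly g := by
  obtain ⟨a, b, c, d, hu, -, h⟩ := hg
  refine ⟨!![a, b; c, d], by rwa [Matrix.det_fin_two_of], ?_⟩
  rw [h]
  refine Matrix.ext fun i j => ?_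
  fin_cases i <;> fin_cases j <;> rfl

lemma val_det {M : Matrix (Fin 2) (Fin 2) (Kinf Fq)} (h : ∀ i j, Val 0 (M i j)) :
    Val 0 M.det := by
  rw [Matrix.det_fin_two]
  have h1 := val_mul (h 0 0) (h 1 1)
  have h2 := val_mul (h 0 1) (h 1 0)
  rw [add_zero] at h1 h2
  exact val_sub h1 h2

lemma order_zero_of {x : Kinf Fq} (h : Val 0 x) (h0 : x.coeff 0 ≠ 0) : x ≠ 0 ∧ x.order = 0 := by
  have hx : x ≠ 0 := by rintro rfl; exact h0 rfl
  refine ⟨hx, le_antisymm (HahnSeries.order_le_of_coeff_ne_zero h0) ?_⟩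
  rw [val_iff] at h
  rcases h with h | h
  · exact absurd h hx
  · exact h

lemma iwahori_det {κ : G Fq} (h : κ ∈ Iwahori Fq) : κ.1.det ≠ 0 ∧ κ.1.det.order = 0 :=
  order_zero_of (val_det h.1) h.2.2

lemma iwahori_inv {κ : G Fq} (h : κ ∈ Iwahori Fq) : ∀ i j, Val 0 (κ⁻¹.1 i j) := by
  obtain ⟨hd, ho⟩ := iwahori_det h
  have h3 : κ.1 * (κ.1.det⁻¹ • κ.1.adjugate) = 1 := by
    rw [Matrix.mul_smul, Matrix.mul_adjugate, smul_smul, inv_mul_cancel₀ hd, one_smul]
  have h4 : κ⁻¹.1 * κ.1 = 1 := by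
    have : (κ⁻¹ * κ).1 = (1 : G Fq).1 := by rw [inv_mul_cancel]
    exact this
  have h5 : κ⁻¹.1 = κ.1.det⁻¹ • κ.1.adjugate := by
    calc κ⁻¹.1 = κ⁻¹.1 * (κ.1 * (κ.1.det⁻¹ • κ.1.adjugate)) := by rw [h3, mul_one]
      _ = (κ⁻¹.1 * κ.1) * (κ.1.det⁻¹ • κ.1.adjugate) := by rw [mul_assoc]
      _ = _ := by rw [h4, one_mul]
  have hv : Val 0 (κ.1.det⁻¹) := by
    rw [val_iff]; right; rw [order_inv' hd, ho]; rfl
  have hadj : ∀ i j, Val 0 (κ.1.adjugate i j) := by
    rw [Matrix.adjugate_fin_two]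
    have hneg : ∀ x : Kinf Fq, Val 0 x → Val 0 (-x) := by
      intro x hx i hi
      rw [HahnSeries.coeff_neg, hx i hi, neg_zero]
    intro i j
    fin_cases i <;> fin_cases j
    · exact h.1 1 1
    · exact hneg _ (h.1 0 1)
    · exact hneg _ (h.1 1 0)
    · exact h.1 0 0
  intro i j
  rw [h5, Matrix.smul_apply, smul_eq_mul]
  have := val_mul hv (hadj i j)
  rwa [add_zero] at this

lemma val_matmul {M N : Matrix (Fin 2) (Fin 2) (Kinf Fq)} (h : ∀ i j, Val 0 (M i j))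
    (h' : ∀ i j, Val 0 (N i j)) : ∀ i j, Val 0 ((M * N) i j) := by
  intro i j
  rw [Matrix.mul_apply, Fin.sum_univ_two]
  have h1 := val_mul (h i 0) (h' 0 j)
  have h2 := val_mul (h i 1) (h' 1 j)
  rw [add_zero] at h1 h2
  exact val_add h1 h2

lemma emb_val_one {p : Fq[X]} (h : Val 1 (emb Fq p)) : p = 0 := by
  ext i
  have := h (-(i : ℤ)) (by omega)
  rw [emb_coeff, if_pos (by omega)] at this
  simpa using this

lemma det_z_ne {z : Kinf Fq} (hz : z ≠ 0) :
    (!![z, 0; 0, z] : Matrix (Fin 2) (Fin 2) (Kinf Fq)).det ≠ 0 := by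
  rw [Matrix.det_fin_two_of]
  simpa using hz

lemma z_inv {z : Kinf Fq} (hz : z ≠ 0) : (gl !![z, 0; 0, z])⁻¹ = gl !![z⁻¹, 0; 0, z⁻¹] := by
  rw [inv_eq_iff_mul_eq_one, ← gl_mul (det_z_ne hz) (det_z_ne (inv_ne_zero hz)),
    Matrix.mul_fin_two]
  simp only [mul_inv_cancel₀ hz, mul_zero, zero_mul, add_zero, zero_add]
  rw [← Matrix.one_fin_two, gl_one]

/-- the key non-equivalence -/
lemma no_equiv {γ γ' s κ κ' : G Fq} {z z' : Kinf Fq} {i j : ℕ} (hγ : IsPoly γ) (hγ' : IsPoly γ')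
    (hκ : κ ∈ Iwahori Fq) (hκ' : κ' ∈ Iwahori Fq) (hz : z ≠ 0) (hz' : z' ≠ 0)
    (h1 : gl !![HahnSeries.single (-(i : ℤ)) (1 : Fq), 0; 0, 1] = γ * s * κ * gl !![z, 0; 0, z])
    (h2 : gl !![HahnSeries.single (-(j : ℤ)) (1 : Fq), 0; 0, 1] = γ' * s * κ' * gl !![z', 0; 0, z'])
    (hij : j < i) : False := by
  set D : G Fq := gl !![HahnSeries.single (-(i : ℤ)) (1 : Fq), 0; 0, 1] with hD
  set D' : G Fq := gl !![HahnSeries.single (-(j : ℤ)) (1 : Fq), 0; 0, 1] with hD'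
  have h3 : D * (gl !![z, 0; 0, z])⁻¹ * (κ⁻¹ * κ') * gl !![z', 0; 0, z'] = (γ * γ'⁻¹) * D' := by
    rw [h1, h2]; group
  obtain ⟨P, hP1, hP2⟩ := hγ.mul hγ'.inv
  set K : G Fq := κ⁻¹ * κ' with hK
  have hKv : ∀ a b, Val 0 (K.1 a b) := val_matmul (iwahori_inv hκ) hκ'.1
  rw [z_inv hz] at h3
  have h4 := congrArg (fun g : G Fq => g.1) h3
  have h5 : !![HahnSeries.single (-(i : ℤ)) (1 : Fq), 0; 0, 1] * !![z⁻¹, 0; 0, z⁻¹] * K.1 *
      !![z', 0; 0, z'] = P.map (emb Fq) * !![HahnSeries.single (-(j : ℤ)) (1 : Fq), 0; 0, 1] := by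
    rw [← hP2, ← gl_val (det_p_ne (Fq := Fq) (-(i : ℤ)) 0), ← gl_val (det_p_ne (Fq := Fq) (-(j : ℤ)) 0),
      ← gl_val (det_z_ne (inv_ne_zero hz)), ← gl_val (det_z_ne hz')]
    exact h4
  have h6 := congrArg Matrix.det h5
  rw [Matrix.det_mul, Matrix.det_mul, Matrix.det_mul, Matrix.det_mul, det_map,
    Matrix.det_fin_two_of, Matrix.det_fin_two_of, Matrix.det_fin_two_of, Matrix.det_fin_two_of] at h6
  simp only [mul_one, mul_zero, sub_zero] at h6
  -- det K has order 0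
  have hKd : K.1.det ≠ 0 ∧ K.1.det.order = 0 := by
    have e1 : κ⁻¹.1.det * κ.1.det = 1 := by
      rw [← Matrix.det_mul]
      have : κ⁻¹.1 * κ.1 = 1 := by
        have : (κ⁻¹ * κ).1 = (1 : G Fq).1 := by rw [inv_mul_cancel]
        exact this
      rw [this, Matrix.det_one]
    obtain ⟨a1, a2⟩ := iwahori_det hκ
    obtain ⟨b1, b2⟩ := iwahori_det hκ'
    have c1 : κ⁻¹.1.det ≠ 0 := by
      intro h0; rw [h0, zero_mul] at e1; exact zero_ne_one e1
    have c2 : κ⁻¹.1.det.order = 0 := by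
      have := congrArg HahnSeries.order e1
      rw [order_mul' c1 a1, a2, HahnSeries.order_one] at this
      linarith
    have e2 : K.1.det = κ⁻¹.1.det * κ'.1.det := by
      rw [← Matrix.det_mul]; rfl
    rw [e2]
    exact ⟨mul_ne_zero c1 b1, by rw [order_mul' c1 b1, c2, b2, zero_add]⟩
  have hzi := inv_ne_zero hz
  have h7 := congrArg HahnSeries.order h6
  rw [order_mul' (mul_ne_zero (mul_ne_zero (single_ne _) (mul_ne_zero hzi hzi)) hKd.1)
    (mul_ne_zero hz' hz'), order_mul' (mul_ne_zero (single_ne _) (mul_ne_zero hzi hzi)) hKd.1,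
    order_mul' (single_ne _) (mul_ne_zero hzi hzi), order_mul' hzi hzi, order_mul' hz' hz',
    order_mul' (emb_unit hP1).1 (single_ne _), (emb_unit hP1).2, hKd.2, order_single',
    order_single', order_inv' hz] at h7
  -- the lower row
  rw [Matrix.eta_fin_two K.1, Matrix.eta_fin_two (P.map (emb Fq)), Matrix.mul_fin_two,
    Matrix.mul_fin_two, Matrix.mul_fin_two, Matrix.mul_fin_two] at h5
  have h10 : z⁻¹ * K.1 1 0 * z' = emb Fq (P 1 0) * HahnSeries.single (-(j : ℤ)) (1 : Fq) := by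
    have := congrFun (congrFun h5 1) 0
    simpa [Matrix.map_apply] using this
  have h11 : z⁻¹ * K.1 1 1 * z' = emb Fq (P 1 1) := by
    have := congrFun (congrFun h5 1) 1
    simpa [Matrix.map_apply] using this
  have hij' : (j : ℤ) < i := by exact_mod_cast hij
  have hP11 : P 1 1 = 0 := by
    apply emb_val_one
    rw [← h11, val_iff]
    by_cases hk : K.1 1 1 = 0
    · left; rw [hk]; ring
    · right
      rw [order_mul' (mul_ne_zero hzi hk) hz', order_mul' hzi hk, order_inv' hz]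
      have := hKv 1 1
      rw [val_iff] at this
      rcases this with h | h
      · exact absurd h hk
      · omega
  have hP10 : P 1 0 = 0 := by
    apply emb_val_one
    have e : emb Fq (P 1 0) = z⁻¹ * K.1 1 0 * z' * HahnSeries.single (j : ℤ) (1 : Fq) := by
      rw [h10, mul_assoc, HahnSeries.single_mul_single]
      simp only [neg_add_cancel, mul_one]
      rw [show (HahnSeries.single (0 : ℤ) (1 : Fq) : Kinf Fq) = 1 from rfl, mul_one]
    rw [e, val_iff]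
    by_cases hk : K.1 1 0 = 0
    · left; rw [hk]; ring
    · right
      rw [order_mul' (mul_ne_zero (mul_ne_zero hzi hk) hz') (single_ne _),
        order_mul' (mul_ne_zero hzi hk) hz', order_mul' hzi hk, order_inv' hz, order_single']
      have := hKv 1 0
      rw [val_iff] at this
      rcases this with h | h
      · exact absurd h hk
      · omega
  rw [Matrix.det_fin_two, hP11, hP10] at hP1
  simp at hP1

end

variable {Fq : Type} [Field Fq] [Fintype Fq]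

lemma exists_zero {n : Fq[X]} {F : G Fq → ℤ} (hF : FinSupp n F)
    {δ : Matrix (Fin 2) (Fin 2) Fq[X]} (hδ : IsUnit δ.det) (m : ℕ) :
    ∃ i ≥ m, F (edge δ (-(i : ℤ)) 0) = 0 := by
  by_contra hcon
  push Not at hcon
  obtain ⟨S, hS, h⟩ := hF
  have h' : ∀ i : ℕ, ∃ s : S, ∃ γ ∈ Gam0 n, ∃ κ ∈ Iwahori Fq, ∃ z : Kinf Fq, z ≠ 0 ∧
      edge δ (-((m + i : ℕ) : ℤ)) 0 = γ * s * κ * gl !![z, 0; 0, z] := by
    intro i
    obtain ⟨γ, hγ, s, hs, κ, hκ, z, hz, he⟩ := h _ (hcon (m + i) (by omega))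
    exact ⟨⟨s, hs⟩, γ, hγ, κ, hκ, z, hz, he⟩
  choose s hs using h'
  have : Finite S := hS
  obtain ⟨i, j, hne, hss⟩ := Finite.exists_ne_map_eq_of_infinite s
  have key : ∀ i j : ℕ, s i = s j → j < i → False := by
    intro i j hss hij
    obtain ⟨γ, hγ, κ, hκ, z, hz, he⟩ := hs i
    obtain ⟨γ', hγ', κ', hκ', z', hz', he'⟩ := hs j
    have hpi := (isPoly_gl hδ).inv
    rw [← hss] at he'
    unfold edge at he he'
    refine no_equiv (i := m + i) (j := m + j) (hpi.mul (isPoly_gam hγ)) (hpi.mul (isPoly_gam hγ')) hκ hκ' hz hz'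
      (s := s i) ?_ ?_ (by omega)
    · rw [mul_assoc, mul_assoc, mul_assoc, ← mul_assoc γ, ← mul_assoc (γ * _), ← he]
      group
    · rw [mul_assoc, mul_assoc, mul_assoc, ← mul_assoc γ', ← mul_assoc (γ' * _), ← he']
      group
  rcases lt_or_gt_of_ne hne with h1 | h1
  · exact key j i hss.symm h1
  · exact key i j hss h1

lemma step_inf {n : Fq[X]} {F : G Fq → ℤ} (hfam : Fam0 n (fun δ k u => F (edge δ k u))) (i : ℕ) :
    F (edge 1 (-(i : ℤ)) 0) = (Fintype.card Fq : ℤ) ^ (i + 1) * F (edge 1 1 0) := by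
  have step : ∀ i : ℕ, F (edge 1 (-(i : ℤ)) 0) =
      (Fintype.card Fq : ℤ) * F (edge 1 (-(i : ℤ) + 1) 0) := by
    intro i
    rw [hfam.sum 1 det_one_unit]
    have : ∀ c : Fq, F (edge 1 (-(i : ℤ) + 1) (0 + HahnSeries.single (-(i : ℤ)) c)) =
        F (edge 1 (-(i : ℤ) + 1) 0) := by
      intro c
      rw [← emb_C_mul_X_pow]
      exact transl hfam _ _ _
    rw [Finset.sum_congr rfl (fun c _ => this c), Finset.sum_const, Finset.card_univ]
    simp
  induction i with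
  | zero =>
    rw [step]; simp
  | succ i ih =>
    rw [step]
    have : -((i + 1 : ℕ) : ℤ) + 1 = -(i : ℤ) := by push_cast; ring
    rw [this, ih]
    ring

lemma det_w : IsUnit (!![0, 1; 1, 0] : Matrix (Fin 2) (Fin 2) Fq[X]).det := by
  rw [Matrix.det_fin_two_of]
  simp

lemma transl_w {n : Fq[X]} {F : G Fq → ℤ} (hfam : Fam0 n (fun δ k u => F (edge δ k u)))
    (k : ℤ) (u : Kinf Fq) (a : Fq[X]) :
    F (edge !![0, 1; 1, 0] k (u + emb Fq (n * a))) = F (edge !![0, 1; 1, 0] k u) := by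
  have h1 : F (edge (!![0, 1; 1, 0] * !![1, n * a; 0, 1]) k u) =
      F (edge !![0, 1; 1, 0] k (u + emb Fq (n * a))) := transl' hfam det_w k u (n * a)
  have h2 : (!![0, 1; 1, 0] : Matrix (Fin 2) (Fin 2) Fq[X]) * !![1, n * a; 0, 1] =
      !![1, 0; n * a, 1] * !![0, 1; 1, 0] := by
    rw [Matrix.mul_fin_two, Matrix.mul_fin_two]
    simp
  have h3 := hfam.inv !![0, 1; 1, 0] det_w !![1, 0; n * a, 1]
    (by rw [Matrix.det_fin_two_of]; simp) (Dvd.intro a rfl)
  rw [← h1, h2]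
  exact congrFun (congrFun h3 k) u

lemma step_zero {n : Fq[X]} (hn : n.Monic) (hn4 : n.natDegree = 4) {F : G Fq → ℤ}
    (hfam : Fam0 n (fun δ k u => F (edge δ k u))) (i : ℕ) :
    F (edge !![0, 1; 1, 0] (-((3 + i : ℕ) : ℤ)) 0) =
      (Fintype.card Fq : ℤ) ^ i * F (edge !![0, 1; 1, 0] (-3) 0) := by
  induction i with
  | zero => simp
  | succ i ih =>
    rw [hfam.sum _ det_w]
    have hk : -((3 + (i + 1) : ℕ) : ℤ) + 1 = -((3 + i : ℕ) : ℤ) := by push_cast; ring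
    have : ∀ c : Fq, F (edge !![0, 1; 1, 0] (-((3 + (i + 1) : ℕ) : ℤ) + 1)
        (0 + HahnSeries.single (-((3 + (i + 1) : ℕ) : ℤ)) c)) =
        F (edge !![0, 1; 1, 0] (-((3 + i : ℕ) : ℤ)) 0) := by
      intro c
      rw [hk, ← transl_w hfam _ 0 (C c * X ^ i)]
      apply hfam.congr _ det_w
      rw [← emb_C_mul_X_pow, zero_add, zero_add, ← map_sub]
      intro t ht
      rw [emb_coeff]
      split_ifs with h0
      · have hdeg : (n - X ^ 4).degree < 4 := by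
          have h4 : (n - X ^ 4).degree < n.degree := by
            apply degree_sub_lt_left
            · rw [degree_eq_natDegree hn.ne_zero, hn4]; simp
            · exact hn.ne_zero
            · rw [hn.leadingCoeff]; simp
          rwa [degree_eq_natDegree hn.ne_zero, hn4] at h4
        have e : (C c * X ^ (3 + (i + 1)) - n * (C c * X ^ i) : Fq[X]) =
            -(C c * ((n - X ^ 4) * X ^ i)) := by ring
        rw [e, coeff_neg, coeff_C_mul, coeff_mul_X_pow']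
        split_ifs with h5
        · rw [coeff_eq_zero_of_degree_lt, mul_zero, neg_zero]
          refine lt_of_lt_of_le hdeg ?_
          have : 4 ≤ t.natAbs - i := by omega
          exact_mod_cast this
        · simp
      · rfl
    rw [Finset.sum_congr rfl (fun c _ => this c), Finset.sum_const, Finset.card_univ, ih]
    simp only [nsmul_eq_mul]
    ring

theorem t_CUSP : S_CUSP := by
  intro Fq _ _ n hn hn4 F hfin hfam
  have hq : (Fintype.card Fq : ℤ) ≠ 0 := by exact_mod_cast Fintype.card_ne_zero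
  constructor
  · obtain ⟨i, -, hi⟩ := exists_zero hfin (det_one_unit (Fq := Fq)) 0
    rw [step_inf hfam] at hi
    exact (mul_eq_zero.1 hi).resolve_left (pow_ne_zero _ hq)
  · obtain ⟨i, h3, hi⟩ := exists_zero hfin (det_w (Fq := Fq)) 3
    obtain ⟨j, rfl⟩ := Nat.exists_eq_add_of_le h3
    rw [step_zero hn hn4 hfam] at hi
    exact (mul_eq_zero.1 hi).resolve_left (pow_ne_zero _ hq)

end Pool.Agent.J4H97.HP
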