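import Pool.Agent.J4H97.HP.Edge
import Pool.Agent.J4H97.HP.Cusp
import Pool.Agent.J4H97.HP.C1b

/-!
# Project HP, K3: the residues form a harmonic cochain
-/

open Polynomial Matrix Filter Topology

namespace Pool.Agent.J4H97.HP

open Pool.Agent.J4H98.HP
open Pool.Agent.TH828.DM (Omega OmegaN IsRigidAnalytic expA res HasRes pt avg)
open Pool.Agent.N814.DR (slash SmallAtInfinity)

section
variable {Fq : Type} [Field Fq] [Fintype Fq] {C : Type} [NontriviallyNormedField C]
  [IsUltrametricDist C] [Algebra Fq C] {t s : C} {ι : Kinf Fq →+* C}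

lemma norm_iota_unit (hS : Sta t s ι) {x : Kinf Fq} (hx : x ≠ 0) (h0 : x.order = 0) :
    ‖ι x‖ = 1 := by
  rw [hS.norm x hx, h0]
  simp

lemma norm_iota_le (hS : Sta t s ι) {x : Kinf Fq} (hx : Val 0 x) : ‖ι x‖ ≤ 1 := by
  rcases (val_iff 0 x).1 hx with h | h
  · rw [h, map_zero, norm_zero]
    exact zero_le_one
  · by_cases h0 : x = 0
    · rw [h0, map_zero, norm_zero]
      exact zero_le_one
    rw [hS.norm x h0]
    apply zpow_le_one_of_nonpos₀ hS.ht.le
    omega

lemma avg_inv_roots {N : ℕ} (hN : 0 < N) (φ : C → C) :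
    ∑ ζ ∈ nthRootsFinset N (1 : C), φ ζ = ∑ ζ ∈ nthRootsFinset N (1 : C), φ ζ⁻¹ := by
  symm
  apply Finset.sum_bij (fun ζ _ => ζ⁻¹)
  · intro ζ hζ
    rw [mem_nthRootsFinset hN] at hζ ⊢
    rw [inv_pow, hζ, inv_one]
  · intro x _ y _ h
    exact inv_injective h
  · intro ζ hζ
    refine ⟨ζ⁻¹, ?_, inv_inv ζ⟩
    rw [mem_nthRootsFinset hN] at hζ ⊢
    rw [inv_pow, hζ, inv_one]
  · intro ζ _
    rfl

lemma avg_reverse (hS : Sta t s ι) (h : C → C) {N : ℕ} (hN : 0 < N) :
    avg N (sl t ι (gl !![0, 1; unif Fq, 0]) h) 0 s = -avg N h 0 s := by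
  have hs0 := s_ne hS
  have ht0 : t ≠ 0 := by rw [← hS.hs]; exact pow_ne_zero _ hs0
  unfold avg
  rw [← mul_neg]
  congr 1
  rw [avg_inv_roots hN (fun ζ => s * ζ * h (0 + s * ζ)), ← Finset.sum_neg_distrib]
  refine Finset.sum_congr rfl fun ζ hζ => ?_
  have h1 := Pool.Agent.TH828.DM.norm_of_mem_nthRoots hN hζ
  have hζ0 : ζ ≠ 0 := by
    rintro rfl
    rw [norm_zero] at h1
    exact zero_ne_one h1
  have h2 := circ_omega hS h1
  rw [zero_add, sl_mem _ _ h2, gl_val det_w_ne, Matrix.det_fin_two_of]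
  simp only [Matrix.of_apply, Matrix.cons_val', Matrix.cons_val_zero, Matrix.cons_val_one,
    Matrix.cons_val_fin_one, map_zero, map_one, map_neg, zero_mul, zero_add, mul_zero, zero_sub,
    add_zero, one_mul, iota_unif hS]
  have e1 : (1 : C) / (t⁻¹ * (s * ζ)) = s * ζ⁻¹ := by
    rw [← hS.hs]
    field_simp
  rw [e1]
  have e2 : s * ζ * (-t⁻¹ * ((t⁻¹ * (s * ζ)) ^ 2)⁻¹ * h (s * ζ⁻¹)) =
      -(s * ζ * t⁻¹ * ((t⁻¹ * (s * ζ)) ^ 2)⁻¹) * h (s * ζ⁻¹) := by ring
  have e3 : s * ζ * t⁻¹ * ((t⁻¹ * (s * ζ)) ^ 2)⁻¹ = s * ζ⁻¹ := by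
    rw [← hS.hs]
    field_simp
  rw [e2, e3]
  ring

lemma det_h_ne (c : Fq) : (!![HahnSeries.C c, 1; 1, 0] : Matrix (Fin 2) (Fin 2) (Kinf Fq)).det ≠ 0 := by
  rw [Matrix.det_fin_two_of]
  simp

lemma iota_C (hS : Sta t s ι) (c : Fq) : ι (HahnSeries.C c) = algebraMap Fq C c := by
  rw [← emb_C, hS.emb, aeval_C]

lemma avg_harm (hS : Sta t s ι) (h : C → C) (c : Fq) {N : ℕ} (hN : 0 < N) :
    avg N (sl t ι (gl !![HahnSeries.C c, 1; 1, 0]) h) 0 s = -avg N h (algebraMap Fq C c) s⁻¹ := by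
  have hs0 := s_ne hS
  have ht0 : t ≠ 0 := by rw [← hS.hs]; exact pow_ne_zero _ hs0
  unfold avg
  rw [← mul_neg]
  congr 1
  rw [avg_inv_roots hN (fun ζ => s⁻¹ * ζ * h (algebraMap Fq C c + s⁻¹ * ζ)), ← Finset.sum_neg_distrib]
  refine Finset.sum_congr rfl fun ζ hζ => ?_
  have h1 := Pool.Agent.TH828.DM.norm_of_mem_nthRoots hN hζ
  have hζ0 : ζ ≠ 0 := by
    rintro rfl
    rw [norm_zero] at h1
    exact zero_ne_one h1
  have h2 := circ_omega hS h1
  rw [zero_add, sl_mem _ _ h2, gl_val (det_h_ne c), Matrix.det_fin_two_of]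
  simp only [Matrix.of_apply, Matrix.cons_val', Matrix.cons_val_zero, Matrix.cons_val_one,
    Matrix.cons_val_fin_one, map_zero, map_one, map_neg, mul_zero, zero_sub,
    add_zero, mul_one, one_mul, iota_C hS]
  have e1 : (algebraMap Fq C c * (s * ζ) + 1) / (s * ζ) = algebraMap Fq C c + s⁻¹ * ζ⁻¹ := by
    field_simp
  rw [e1]
  have e3 : s * ζ * (-1 * ((s * ζ) ^ 2)⁻¹ * h (algebraMap Fq C c + s⁻¹ * ζ⁻¹)) =
      -(s⁻¹ * ζ⁻¹ * h (algebraMap Fq C c + s⁻¹ * ζ⁻¹)) := by
    field_simp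
  rw [e3]

variable [CompleteSpace C] [IsAlgClosed C]

/-- the residue does not depend on the centre and the point of the circle -/
lemma hasRes_move (hS : Sta t s ι) {h : C → C} (hh : IsRigidAnalytic Fq t h) {a s' : C}
    (ha : ‖a‖ < ‖s‖) (hs' : ‖s'‖ = ‖s‖) :
    HasRes (Fintype.card Fq) h a s' (res (Fintype.card Fq) h 0 s) := by
  have hs0 := s_ne hS
  have hspos : 0 < ‖s‖ := norm_pos_iff.2 hs0
  have hs1 := Pool.Agent.TH828.DM.norm_s hS.hs hS.ht
  have H : Pool.Agent.TH828.DM.RegOK (fun _ : Unit => a) s s' :=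
    { hs1 := by
        intro h0
        rw [h0, norm_zero] at hs'
        exact hspos.ne hs'
      h01 := hs'.le
      hp := fun _ => ha
      hpp := fun i j hij => absurd (Subsingleton.elim i j) hij }
  have hsub : ∀ z ∈ Pool.Agent.TH828.DM.Reg (fun _ : Unit => a) s s', z ∈ OmegaN Fq t (0 + 1) := by
    rintro z ⟨h1, h2⟩
    have h2 := h2 ()
    rw [hs'] at h2
    have h3 : ‖z‖ = ‖s‖ := by
      apply le_antisymm h1
      have e : z = (z - a) + a := by ring
      rcases lt_or_ge ‖z‖ ‖s‖ with hlt | hge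
      · exfalso
        have h4 : ‖z - a‖ ≤ max ‖z‖ ‖a‖ := by
          rw [sub_eq_add_neg, ← norm_neg a]
          exact IsUltrametricDist.norm_add_le_max _ _
        have h5 : max ‖z‖ ‖a‖ < ‖s‖ := max_lt hlt ha
        linarith
      · exact hge
    apply Pool.Agent.TH828.DM.reg0_sub hS.hs hS.ht 0
    have h6 := (Pool.Agent.TH828.DM.regOK0 (F := Fq) hS.hs hS.ht 0).outer (z := z)
      (by simp [h3])
    exact h6
  have hg := Pool.Agent.TH828.DM.good_of_approx (Pool.Agent.TH828.DM.card_cast Fq C)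
    Pool.Agent.TH828.DM.two_le_card H (g := h) (fun ε hε => by
      obtain ⟨P, Q, hQ, hPQ⟩ := hh (0 + 1) ε hε
      exact ⟨P, Q, fun z hz => hQ z (hsub z hz), fun z hz => hPQ z (hsub z (H.circ_sub hz))⟩)
  obtain ⟨_, v0, v, h1, h2, h3⟩ := hg
  have h4 := h2 ()
  simp only [Finset.univ_unique, Finset.sum_singleton] at h3
  have h5 : v () = v0 := by rw [h3]
  rw [h5, ← h1.res_eq] at h4
  exact h4

lemma res_affine (hS : Sta t s ι) {h : C → C} (hh : IsRigidAnalytic Fq t h) {x u : Kinf Fq}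
    (hx : x ≠ 0) (hx0 : x.order = 0) (hu : Val 0 u) :
    res (Fintype.card Fq) (sl t ι (gl !![x, u; 0, 1]) h) 0 s = res (Fintype.card Fq) h 0 s := by
  have hs1 := Pool.Agent.TH828.DM.norm_s hS.hs hS.ht
  have h1 := hasRes_move hS hh (a := ι u) (s' := ι x * s) ((norm_iota_le hS hu).trans_lt hs1)
    (by rw [norm_mul, norm_iota_unit hS hx hx0, one_mul])
  apply HasRes.res_eq
  unfold HasRes at h1 ⊢
  refine h1.congr fun j => ?_
  rw [avg_affine hS hx _ (Pool.Agent.TH828.DM.nseq_pos Pool.Agent.TH828.DM.two_le_card j)]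

lemma res_reverse (hS : Sta t s ι) {h : C → C} (hh : IsRigidAnalytic Fq t h) :
    res (Fintype.card Fq) (sl t ι (gl !![0, 1; unif Fq, 0]) h) 0 s = -res (Fintype.card Fq) h 0 s := by
  have h1 := hasRes0 hS hh
  apply HasRes.res_eq
  unfold HasRes at h1 ⊢
  refine h1.neg.congr fun j => ?_
  rw [avg_reverse hS _ (Pool.Agent.TH828.DM.nseq_pos Pool.Agent.TH828.DM.two_le_card j)]

lemma res_harm (hS : Sta t s ι) {h : C → C} (hh : IsRigidAnalytic Fq t h) :
    res (Fintype.card Fq) h 0 s +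
      ∑ c : Fq, res (Fintype.card Fq) (sl t ι (gl !![HahnSeries.C c, 1; 1, 0]) h) 0 s = 0 := by
  obtain ⟨_, v0, v, h1, h2, h3⟩ := good0 hS hh
  have e1 : ∀ c : Fq, res (Fintype.card Fq) (sl t ι (gl !![HahnSeries.C c, 1; 1, 0]) h) 0 s =
      -v (fun _ => c) := by
    intro c
    have h4 := h2 (fun _ => c)
    have e : pt t (fun _ : Fin 1 => c) = algebraMap Fq C c := by
      unfold pt
      simp
    beta_reduce at h4
    rw [e] at h4
    apply HasRes.res_eq
    unfold HasRes at h4 ⊢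
    refine h4.neg.congr fun j => ?_
    rw [avg_harm hS _ _ (Pool.Agent.TH828.DM.nseq_pos Pool.Agent.TH828.DM.two_le_card j)]
  rw [Finset.sum_congr rfl fun c _ => e1 c, h1.res_eq, h3, Finset.sum_neg_distrib]
  have e2 : ∑ b : Fin 1 → Fq, v b = ∑ c : Fq, v (fun _ => c) := by
    apply Fintype.sum_equiv (Equiv.funUnique (Fin 1) Fq)
    intro b
    congr 1
    funext i
    have : i = 0 := Subsingleton.elim _ _
    rw [this]
    rfl
  rw [e2, add_neg_cancel]

lemma sl_out (g : G Fq) (f : C → C) : ∀ z, z ∉ Omega Fq t → sl t ι g f z = 0 :=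
  fun _ hz => sl_not_mem g f hz

lemma wUw (u : Kinf Fq) : (gl !![0, 1; unif Fq, 0] : G Fq) * gl !![1, u; 0, 1] =
    gl !![1, 0; u * unif Fq, 1] * gl !![0, 1; unif Fq, 0] := by
  have d1 : (!![1, u; 0, 1] : Matrix (Fin 2) (Fin 2) (Kinf Fq)).det ≠ 0 := by
    rw [Matrix.det_fin_two_of]; simp
  have d2 : (!![1, 0; u * unif Fq, 1] : Matrix (Fin 2) (Fin 2) (Kinf Fq)).det ≠ 0 := by
    rw [Matrix.det_fin_two_of]; simp
  rw [← gl_mul det_w_ne d1, ← gl_mul d2 det_w_ne]
  congr 1
  rw [Matrix.mul_fin_two, Matrix.mul_fin_two]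
  congr 1
  ring_nf

/-- lower triangular unipotent matrices -/
lemma res_lower (hS : Sta t s ι) {h : C → C} (hh : IsRigidAnalytic Fq t h) {u : Kinf Fq}
    (hu : Val 0 u) : res (Fintype.card Fq) (sl t ι (gl !![1, 0; u * unif Fq, 1]) h) 0 s =
      res (Fintype.card Fq) h 0 s := by
  have h1 := res_reverse hS (sl_rigid hS (gl !![1, 0; u * unif Fq, 1]) hh)
  rw [← sl_mul hS, ← wUw, sl_mul hS,
    res_affine hS (sl_rigid hS _ hh) one_ne_zero HahnSeries.order_one hu, res_reverse hS hh] at h1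
  exact (neg_injective h1).symm

end

theorem t_COCH : Pool.Agent.J4H98.HP.S_COCH := by
  intro Fq C _ _ _ _ _ _ _ t s ι hS f hf
  refine ⟨fun g κ hκ => ?_, fun g z hz => ?_, fun g => ?_, fun g => ?_⟩
  · unfold rc
    rw [sl_mul hS]
    have hh := sl_rigid hS g hf
    generalize sl t ι g f = h at hh
    obtain ⟨hv, hc, hdet⟩ := hκ
    -- entries
    have h00 := hv 0 0
    have h01 := hv 0 1
    have h11 := hv 1 1
    have hκe := Matrix.eta_fin_two κ.1
    have hg := gl_self κ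
    have hdne := G_det_ne κ
    set a := κ.1 0 0 with ha
    set b := κ.1 0 1 with hb
    set c := κ.1 1 0 with hcc
    set d := κ.1 1 1 with hd
    have hdet2 : κ.1.det = a * d - b * c := Matrix.det_fin_two _
    have hval : Val 0 κ.1.det := val_det (fun i j => hv i j)
    obtain ⟨hne, hord⟩ := order_zero_of hval hdet
    have hbc : Val 1 (b * c) := by
      have := val_mul h01 hc
      simpa using this
    have hd0 : d ≠ 0 ∧ d.order = 0 := by
      apply order_zero_of h11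
      intro h0
      apply hdet
      have hd1 : Val 1 d := by
        intro i hi
        rcases lt_or_eq_of_le (show i ≤ 0 by omega) with h | h
        · exact h11 i h
        · rw [h]; exact h0
      have had : Val 1 (a * d) := by
        have := val_mul h00 hd1
        simpa using this
      rw [hdet2, HahnSeries.coeff_sub, had 0 (by norm_num), hbc 0 (by norm_num), sub_zero]
    obtain ⟨hdn, hdo⟩ := hd0
    have hdd : d ^ 2 ≠ 0 := pow_ne_zero _ hdn
    set x := κ.1.det / d ^ 2 with hx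
    have hx0 : x ≠ 0 := div_ne_zero hne hdd
    have hxo : x.order = 0 := by
      rw [hx, order_div' hne hdd, hord, sq, order_mul' hdn hdn, hdo]
      ring
    have hbd : Val 0 (b / d) := by
      have := val_div h01 hdn
      rwa [hdo, sub_zero] at this
    set u := c / d / unif Fq with hu
    have huv : Val 0 u := by
      have h1 := val_div (val_div hc hdn) (unif_ne (Fq := Fq))
      rw [hdo, order_unif] at h1
      simpa using h1
    have hcu : u * unif Fq = c / d := by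
      rw [hu, div_mul_cancel₀ _ unif_ne]
    have d1 : (!![x, b / d; 0, 1] : Matrix (Fin 2) (Fin 2) (Kinf Fq)).det ≠ 0 := by
      rw [Matrix.det_fin_two_of]; simpa using hx0
    have d2 : (!![1, 0; u * unif Fq, 1] : Matrix (Fin 2) (Fin 2) (Kinf Fq)).det ≠ 0 := by
      rw [Matrix.det_fin_two_of]; simp
    have d3 : (!![d, 0; 0, d] : Matrix (Fin 2) (Fin 2) (Kinf Fq)).det ≠ 0 := by
      rw [Matrix.det_fin_two_of]; simpa using hdn
    have hprod : κ = gl !![x, b / d; 0, 1] * gl !![1, 0; u * unif Fq, 1] * gl !![d, 0; 0, d] := by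
      have d12 : (!![x, b / d; 0, 1] * !![1, 0; u * unif Fq, 1] :
          Matrix (Fin 2) (Fin 2) (Kinf Fq)).det ≠ 0 := by
        rw [Matrix.det_mul]; exact mul_ne_zero d1 d2
      rw [← gl_mul d1 d2, ← gl_mul d12 d3, ← hg]
      congr 1
      have e00 : (x + b / d * (c / d)) * d = a := by
        have h1 : x * d = a - b * c / d := by
          rw [hx, hdet2]
          field_simp
        rw [add_mul, h1]
        field_simp
        ring
      have e10 : c / d * d = c := by field_simp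
      have e01 : b / d * d = b := by field_simp
      rw [hκe, hcu, Matrix.mul_fin_two, Matrix.mul_fin_two]
      simp only [mul_zero, mul_one, zero_mul, one_mul, zero_add, add_zero]
      rw [e00, e10, e01]
    rw [hprod, sl_mul hS, sl_center hdn (sl_out _ _), sl_mul hS,
      res_lower hS (sl_rigid hS _ hh) huv, res_affine hS hh hx0 hxo hbd]
  · unfold rc
    rw [sl_mul hS, sl_center hz (sl_out _ _)]
  · unfold rc
    rw [sl_mul hS, res_reverse hS (sl_rigid hS g hf)]
  · unfold rc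
    simp only [sl_mul hS]
    exact res_harm hS (sl_rigid hS g hf)

end Pool.Agent.J4H97.HP
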