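import Pool.Agent.J4H97.HP.Iota
import Pool.Agent.J4H97.HP.PresG

/-!
# Project HP, job J7
-/

open Polynomial Matrix

namespace Pool.Agent.J4H97.HP

open Pool.Agent.J4H98.HP

section
variable {Fq : Type} [Field Fq]

abbrev M2 (Fq : Type) [Field Fq] : Type := Matrix (Fin 2) (Fin 2) Fq[X]

lemma del_mul_del {n m m' : Fq[X]} {M M' : M2 Fq} (h : M ∈ del n m) (h' : M' ∈ del n m') :
    M * M' ∈ del n (m * m') := by
  obtain ⟨⟨ε, hε, hd⟩, hc, hn⟩ := h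
  obtain ⟨⟨ε', hε', hd'⟩, hc', hn'⟩ := h'
  refine ⟨⟨ε * ε', hε.mul hε', by rw [Matrix.det_mul, hd, hd']; ring⟩, ?_, ?_⟩
  · rw [Matrix.mul_apply, Fin.sum_univ_two]
    obtain ⟨k, hk⟩ := hn'
    have : M 0 0 * M' 0 0 + M 0 1 * M' 1 0 = M 0 0 * M' 0 0 + n * (M 0 1 * k) := by rw [hk]; ring
    rw [this]
    exact (hc.mul_left hc').add_mul_left_left _
  · rw [Matrix.mul_apply, Fin.sum_univ_two]
    exact dvd_add (hn.mul_right _) (hn'.mul_left _)

lemma mul_left_cancel' {A B C' : M2 Fq} (hA : A.det ≠ 0) (h : A * B = A * C') : B = C' := by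
  have h1 := congrArg (fun M => A.adjugate * M) h
  simp only [← mul_assoc, Matrix.adjugate_mul, Matrix.smul_mul, one_mul] at h1
  refine Matrix.ext fun i j => ?_
  have := congrFun (congrFun h1 i) j
  rw [Matrix.smul_apply, Matrix.smul_apply, smul_eq_mul, smul_eq_mul] at this
  exact mul_left_cancel₀ hA this

lemma mul_right_cancel' {A B C' : M2 Fq} (hA : A.det ≠ 0) (h : B * A = C' * A) : B = C' := by
  have h1 := congrArg (fun M => M * A.adjugate) h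
  simp only [mul_assoc, Matrix.mul_adjugate, Matrix.mul_smul, mul_one] at h1
  refine Matrix.ext fun i j => ?_
  have := congrFun (congrFun h1 i) j
  rw [Matrix.smul_apply, Matrix.smul_apply, smul_eq_mul, smul_eq_mul] at this
  exact mul_left_cancel₀ hA this

/-- the injection of pairs of representatives -/
theorem exists_swap {n m m' : Fq[X]} (hn : n ≠ 0) (hm : m.Monic) (hm' : m'.Monic) :
    ∃ Ψ : rep n m' × rep n m → rep n m × rep n m', Function.Injective Ψ ∧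
      ∀ x, ∃ g ∈ gam n, ((Ψ x).1.1 * (Ψ x).2.1 : M2 Fq) = g * (x.1.1 * x.2.1) := by
  classical
  have hmm : (m' * m).Monic := hm'.mul hm
  -- canonical representatives of cosets
  have h1 : ∀ x : M2 Fq, ∃ γ ρ : M2 Fq, x ∈ del n (m' * m) →
      γ ∈ gam n ∧ ρ ∈ rep n (m' * m) ∧ γ * x = ρ := by
    intro x
    by_cases hx : x ∈ del n (m' * m)
    · obtain ⟨γ, hγ, ρ, hρ, he⟩ := exists_rep hmm hx
      exact ⟨γ, ρ, fun _ => ⟨hγ, hρ, he⟩⟩
    · exact ⟨0, 0, fun h => absurd h hx⟩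
  choose γ ρ hγρ using h1
  have h2 : ∀ x : M2 Fq, ∃ u v : M2 Fq, x ∈ del n (m' * m) →
      u ∈ gam n ∧ v ∈ gam n ∧ iot n x = u * x * v := by
    intro x
    by_cases hx : x ∈ del n (m' * m)
    · obtain ⟨u, hu, v, hv, he⟩ := iot_fix hn hmm hx
      exact ⟨u, v, fun _ => ⟨hu, hv, he⟩⟩
    · exact ⟨0, 0, fun h => absurd h hx⟩
  choose u v huv using h2
  have key : ∀ x : rep n m' × rep n m, ∃ y : rep n m × rep n m',
      (∃ g ∈ gam n, (y.1.1 * y.2.1 : M2 Fq) = g * (x.1.1 * x.2.1)) ∧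
      ∃ w ∈ gam n, iot n (γ (x.1.1 * x.2.1) * x.1.1) = w * y.2.1 * v (ρ (x.1.1 * x.2.1)) := by
    rintro ⟨⟨r', hr'⟩, ⟨r, hr⟩⟩
    have hx : r' * r ∈ del n (m' * m) := del_mul_del (rep_mem_del hr') (rep_mem_del hr)
    obtain ⟨hγ, hρ, he⟩ := hγρ _ hx
    obtain ⟨hu, hv, hi⟩ := huv _ (rep_mem_del hρ)
    set g0 := γ (r' * r)
    set ρ0 := ρ (r' * r)
    set u0 := u ρ0
    set v0 := v ρ0
    have hδ : g0 * r' ∈ del n m' := mul_mem_del hγ (rep_mem_del hr')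
    have hρe : (g0 * r') * r = ρ0 := by rw [mul_assoc]; exact he
    have hi2 : iot n r * iot n (g0 * r') = u0 * ρ0 * v0 := by
      rw [← iot_mul hn hδ.2.2 (rep_mem_del hr).2.2, hρe, hi]
    obtain ⟨γ2, hγ2, r1', hr1', he2⟩ := exists_rep hm'
      (del_mul_mem (inv_mem_gam hv) (iot_del hn hδ))
    obtain ⟨γ3, hγ3, r1, hr1, he3⟩ := exists_rep hm
      (del_mul_mem (inv_mem_gam hγ2) (mul_mem_del (inv_mem_gam hu) (iot_del hn (rep_mem_del hr))))
    refine ⟨⟨⟨r1, hr1⟩, ⟨r1', hr1'⟩⟩, ⟨γ3 * g0, mul_mem_gam hγ3 hγ, ?_⟩,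
      ⟨γ2⁻¹, inv_mem_gam hγ2, ?_⟩⟩
    · show r1 * r1' = γ3 * g0 * (r' * r)
      calc r1 * r1' = (γ3 * (u0⁻¹ * iot n r * γ2⁻¹)) * (γ2 * (iot n (g0 * r') * v0⁻¹)) := by
            rw [he2, he3]
        _ = γ3 * (u0⁻¹ * iot n r * (γ2⁻¹ * γ2) * iot n (g0 * r') * v0⁻¹) := by
            simp only [mul_assoc]
        _ = γ3 * (u0⁻¹ * (iot n r * iot n (g0 * r')) * v0⁻¹) := by
            rw [Matrix.nonsing_inv_mul _ hγ2.1, mul_one]; simp only [mul_assoc]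
        _ = γ3 * ((u0⁻¹ * u0) * ρ0 * (v0 * v0⁻¹)) := by rw [hi2]; simp only [mul_assoc]
        _ = γ3 * ρ0 := by
            rw [Matrix.nonsing_inv_mul _ hu.1, Matrix.mul_nonsing_inv _ hv.1, one_mul, mul_one]
        _ = γ3 * g0 * (r' * r) := by rw [← hρe]; simp only [mul_assoc]
    · show iot n (g0 * r') = γ2⁻¹ * r1' * v0
      rw [← he2]
      calc iot n (g0 * r') = (γ2⁻¹ * γ2) * iot n (g0 * r') * (v0⁻¹ * v0) := by
            rw [Matrix.nonsing_inv_mul _ hγ2.1, Matrix.nonsing_inv_mul _ hv.1, one_mul, mul_one]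
        _ = _ := by simp only [mul_assoc]
  choose Ψ hΨ1 hΨ2 using key
  refine ⟨Ψ, ?_, hΨ1⟩
  rintro ⟨⟨r', hr'⟩, ⟨r, hr⟩⟩ ⟨⟨s', hs'⟩, ⟨s, hs⟩⟩ hxy
  have hx : r' * r ∈ del n (m' * m) := del_mul_del (rep_mem_del hr') (rep_mem_del hr)
  have hy : s' * s ∈ del n (m' * m) := del_mul_del (rep_mem_del hs') (rep_mem_del hs)
  obtain ⟨g, hg, hg1⟩ := hΨ1 ⟨⟨r', hr'⟩, ⟨r, hr⟩⟩
  obtain ⟨g', hg', hg1'⟩ := hΨ1 ⟨⟨s', hs'⟩, ⟨s, hs⟩⟩
  obtain ⟨w, hw, hw1⟩ := hΨ2 ⟨⟨r', hr'⟩, ⟨r, hr⟩⟩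
  obtain ⟨w', hw', hw1'⟩ := hΨ2 ⟨⟨s', hs'⟩, ⟨s, hs⟩⟩
  rw [hxy, hg1'] at hg1
  rw [hxy] at hw1
  simp only at hg1 hw1 hw1'
  obtain ⟨hγx, hρx, hex⟩ := hγρ _ hx
  obtain ⟨hγy, hρy, hey⟩ := hγρ _ hy
  set gx := γ (r' * r)
  set gy := γ (s' * s)
  -- same canonical representative
  have hρρ : ρ (r' * r) = ρ (s' * s) := by
    have hgr : (gy * g'⁻¹ * g * gx⁻¹) * ρ (r' * r) = ρ (s' * s) := by
      rw [← hex, ← hey]
      calc gy * g'⁻¹ * g * gx⁻¹ * (gx * (r' * r)) = gy * g'⁻¹ * g * (gx⁻¹ * gx) * (r' * r) := by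
            simp only [mul_assoc]
        _ = gy * g'⁻¹ * (g * (r' * r)) := by
            rw [Matrix.nonsing_inv_mul _ hγx.1, mul_one]; simp only [mul_assoc]
        _ = gy * (g'⁻¹ * g') * (s' * s) := by rw [← hg1]; simp only [mul_assoc]
        _ = gy * (s' * s) := by rw [Matrix.nonsing_inv_mul _ hg'.1, mul_one]
    exact rep_unique (mul_mem_gam (mul_mem_gam (mul_mem_gam hγy (inv_mem_gam hg')) hg)
      (inv_mem_gam hγx)).1 hρx hρy hgr
  rw [hρρ] at hw1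
  set ρ0 := ρ (s' * s)
  obtain ⟨-, hv, -⟩ := huv _ (rep_mem_del hρy)
  set v0 := v ρ0
  set z := (Ψ ⟨⟨s', hs'⟩, ⟨s, hs⟩⟩).2.1
  have hδx : gx * r' ∈ del n m' := mul_mem_del hγx (rep_mem_del hr')
  have hδy : gy * s' ∈ del n m' := mul_mem_del hγy (rep_mem_del hs')
  have hww : iot n (gx * r') = (w * w'⁻¹) * iot n (gy * s') := by
    rw [hw1, hw1']
    calc w * z * v0 = w * 1 * (z * v0) := by simp only [mul_one, mul_assoc]
      _ = w * (w'⁻¹ * w') * (z * v0) := by rw [Matrix.nonsing_inv_mul _ hw'.1]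
      _ = _ := by simp only [mul_assoc]
  have hwg : w * w'⁻¹ ∈ gam n := mul_mem_gam hw (inv_mem_gam hw')
  have hx2 : gx * r' = (gy * s') * iot n (w * w'⁻¹) := by
    rw [← iot_iot hn hδx.2.2, hww, iot_mul hn hwg.2 (iot_dvd _ _), iot_iot hn hδy.2.2]
  have hsd : (gy * s').det ≠ 0 := by
    rw [Matrix.det_mul]; exact mul_ne_zero hγy.1.ne_zero (rep_det hs')
  have hrs : iot n (w * w'⁻¹) * r = s := by
    apply mul_left_cancel' hsd
    rw [← mul_assoc, ← hx2, mul_assoc, mul_assoc, hex, hey, hρρ]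
  have hrs' : r = s := rep_unique (iot_gam hn hwg).1 hr hs hrs
  subst hrs'
  have hx3 : gx * r' = gy * s' := by
    apply mul_right_cancel' (rep_det hr)
    rw [mul_assoc, mul_assoc, hex, hey, hρρ]
  have hrs2 : (gy⁻¹ * gx) * r' = s' := by
    rw [mul_assoc, hx3, ← mul_assoc, Matrix.nonsing_inv_mul _ hγy.1, one_mul]
  have hrs3 : r' = s' := rep_unique (mul_mem_gam (inv_mem_gam hγy) hγx).1 hr' hs' hrs2
  subst hrs3
  rfl

end

theorem t_COMM : S_COMM := by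
  intro Fq _ _ n m m' N _ F hn _ hm hm' _ hF
  funext g
  rw [hecke_rep, hecke_rep]
  have : Finite (rep n m) := rep_finite n m
  have : Finite (rep n m') := rep_finite n m'
  have hfin : Fintype (rep n m) := Fintype.ofFinite _
  have hfin' : Fintype (rep n m') := Fintype.ofFinite _
  have hconv : ∀ (k : Fq[X]) [Fintype (rep n k)] (f : Matrix (Fin 2) (Fin 2) Fq[X] → N),
      ∑ r ∈ (rep_finite n k).toFinset, f r = ∑ r : rep n k, f r := by
    intro k _ f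
    rw [← Finset.sum_coe_sort]
    refine Fintype.sum_equiv (Equiv.subtypeEquivRight (fun x => ?_)) _ _ (fun x => rfl)
    exact (rep_finite n k).mem_toFinset
  simp only [hecke_rep, hconv]
  obtain ⟨Ψ, hinj, hΨ⟩ := exists_swap (n := n) (m := m) (m' := m') hn.ne_zero hm hm'
  have hbij : Function.Bijective Ψ := by
    rw [Fintype.bijective_iff_injective_and_card]
    refine ⟨hinj, ?_⟩
    rw [Fintype.card_prod, Fintype.card_prod, mul_comm]
  have hL : ∑ r : rep n m, ∑ r' : rep n m', F (ge r'.1 * (ge r.1 * g)) =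
      ∑ x : rep n m' × rep n m, F (ge (x.1.1 * x.2.1) * g) := by
    rw [Fintype.sum_prod_type, Finset.sum_comm]
    apply Finset.sum_congr rfl
    intro r' _
    apply Finset.sum_congr rfl
    intro r _
    rw [ge_mul (rep_det r'.2) (rep_det r.2), mul_assoc]
  have hR : ∑ r' : rep n m', ∑ r : rep n m, F (ge r.1 * (ge r'.1 * g)) =
      ∑ y : rep n m × rep n m', F (ge (y.1.1 * y.2.1) * g) := by
    rw [Fintype.sum_prod_type, Finset.sum_comm]
    apply Finset.sum_congr rfl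
    intro r _
    apply Finset.sum_congr rfl
    intro r' _
    rw [ge_mul (rep_det r.2) (rep_det r'.2), mul_assoc]
  rw [hL, hR, ← hbij.sum_comp]
  apply Finset.sum_congr rfl
  intro x _
  obtain ⟨γ, hγ, he⟩ := hΨ x
  have hd : (x.1.1 * x.2.1 : Matrix (Fin 2) (Fin 2) Fq[X]).det ≠ 0 := by
    rw [Matrix.det_mul]; exact mul_ne_zero (rep_det x.1.2) (rep_det x.2.2)
  rw [he, ge_mul (gam_unit_ne hγ) hd, mul_assoc, hF _ (ge_mem hγ)]

end Pool.Agent.J4H97.HP
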