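import Pool.Agent.J4H97.HP.PresC
import Pool.Agent.J4H97.HP.Cusp

/-!
# Project HP: cosets of `Γ₀(n)` in the integral matrices (for J5, J6, J7)
-/

open Polynomial Matrix

namespace Pool.Agent.J4H97.HP

open Pool.Agent.J4H98.HP

section
variable {Fq : Type} [Field Fq]

/-- `Γ₀(n)` as polynomial matrices -/
def gam (n : Fq[X]) : Set (Matrix (Fin 2) (Fin 2) Fq[X]) := {γ | IsUnit γ.det ∧ n ∣ γ 1 0}

/-- `Δ_m` : integral matrices with determinant in `F_q^* m`, upper left entry prime to `n`,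
lower left entry divisible by `n`. -/
def del (n m : Fq[X]) : Set (Matrix (Fin 2) (Fin 2) Fq[X]) :=
  {M | (∃ ε : Fq[X], IsUnit ε ∧ M.det = ε * m) ∧ IsCoprime (M 0 0) n ∧ n ∣ M 1 0}

/-- upper triangular representatives -/
def rep (n m : Fq[X]) : Set (Matrix (Fin 2) (Fin 2) Fq[X]) :=
  {h | ∃ a b d : Fq[X], a.Monic ∧ d.Monic ∧ a * d = m ∧ IsCoprime a n ∧ b.degree < d.degree ∧
    h = !![a, b; 0, d]}

lemma one_mem_gam (n : Fq[X]) : (1 : Matrix (Fin 2) (Fin 2) Fq[X]) ∈ gam n := by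
  refine ⟨by rw [Matrix.det_one]; exact isUnit_one, ?_⟩
  simp

lemma mul_mem_gam {n : Fq[X]} {γ γ' : Matrix (Fin 2) (Fin 2) Fq[X]} (h : γ ∈ gam n)
    (h' : γ' ∈ gam n) : γ * γ' ∈ gam n := by
  refine ⟨by rw [Matrix.det_mul]; exact h.1.mul h'.1, ?_⟩
  rw [Matrix.mul_apply, Fin.sum_univ_two]
  exact dvd_add (h.2.mul_right _) (h'.2.mul_left _)

lemma inv_mem_gam {n : Fq[X]} {γ : Matrix (Fin 2) (Fin 2) Fq[X]} (h : γ ∈ gam n) :
    γ⁻¹ ∈ gam n := by
  refine ⟨Matrix.isUnit_nonsing_inv_det _ h.1, ?_⟩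
  rw [Matrix.inv_def, Matrix.adjugate_fin_two]
  simp only [Matrix.smul_apply, smul_eq_mul]
  apply Dvd.dvd.mul_left
  have : (!![γ 1 1, -γ 0 1; -γ 1 0, γ 0 0] : Matrix (Fin 2) (Fin 2) Fq[X]) 1 0 = -γ 1 0 := rfl
  rw [this]
  exact (dvd_neg).2 h.2

lemma gam_coprime {n : Fq[X]} {γ : Matrix (Fin 2) (Fin 2) Fq[X]} (h : γ ∈ gam n) :
    IsCoprime (γ 0 0) n := by
  obtain ⟨hu, k, hk⟩ := h
  rw [Matrix.det_fin_two] at hu
  obtain ⟨u, hu⟩ := hu
  refine ⟨↑u⁻¹ * γ 1 1, -(↑u⁻¹ * γ 0 1 * k), ?_⟩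
  have : (↑u⁻¹ : Fq[X]) * ↑u = 1 := by simp
  rw [hu, hk] at this
  rw [← this]
  ring

lemma mul_mem_del {n m : Fq[X]} {γ M : Matrix (Fin 2) (Fin 2) Fq[X]} (h : γ ∈ gam n)
    (hM : M ∈ del n m) : γ * M ∈ del n m := by
  obtain ⟨⟨ε, hε, hd⟩, hc, hn⟩ := hM
  refine ⟨⟨γ.det * ε, h.1.mul hε, by rw [Matrix.det_mul, hd]; ring⟩, ?_, ?_⟩
  · rw [Matrix.mul_apply, Fin.sum_univ_two]
    obtain ⟨k, hk⟩ := hn
    have : γ 0 0 * M 0 0 + γ 0 1 * M 1 0 = γ 0 0 * M 0 0 + n * (γ 0 1 * k) := by rw [hk]; ring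
    rw [this]
    exact ((gam_coprime h).mul_left hc).add_mul_left_left _
  · rw [Matrix.mul_apply, Fin.sum_univ_two]
    exact dvd_add (h.2.mul_right _) (hn.mul_left _)

lemma del_mul_mem {n m : Fq[X]} {γ M : Matrix (Fin 2) (Fin 2) Fq[X]} (h : γ ∈ gam n)
    (hM : M ∈ del n m) : M * γ ∈ del n m := by
  obtain ⟨⟨ε, hε, hd⟩, hc, hn⟩ := hM
  refine ⟨⟨γ.det * ε, h.1.mul hε, by rw [Matrix.det_mul, hd]; ring⟩, ?_, ?_⟩
  · rw [Matrix.mul_apply, Fin.sum_univ_two]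
    obtain ⟨k, hk⟩ := h.2
    have : M 0 0 * γ 0 0 + M 0 1 * γ 1 0 = M 0 0 * γ 0 0 + n * (M 0 1 * k) := by rw [hk]; ring
    rw [this]
    exact (hc.mul_left (gam_coprime h)).add_mul_left_left _
  · rw [Matrix.mul_apply, Fin.sum_univ_two]
    exact dvd_add (hn.mul_right _) (h.2.mul_left _)

lemma rep_mem_del {n m : Fq[X]} {h : Matrix (Fin 2) (Fin 2) Fq[X]} (hh : h ∈ rep n m) :
    h ∈ del n m := by
  obtain ⟨a, b, d, ha, hd, had, hc, -, rfl⟩ := hh
  refine ⟨⟨1, isUnit_one, ?_⟩, hc, dvd_zero n⟩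
  rw [Matrix.det_fin_two_of, had]; ring

/-- gcd of two polynomials, monic -/
lemma exists_gcd (α γ : Fq[X]) (h : α ≠ 0 ∨ γ ≠ 0) : ∃ a α' γ' x y : Fq[X], a.Monic ∧
    α = a * α' ∧ γ = a * γ' ∧ x * α' + y * γ' = 1 := by
  classical
  set g := EuclideanDomain.gcd α γ with hg
  have hg0 : g ≠ 0 := by
    intro h0
    rw [hg, EuclideanDomain.gcd_eq_zero_iff] at h0
    rcases h with h | h
    · exact h h0.1
    · exact h h0.2
  obtain ⟨α1, hα⟩ := EuclideanDomain.gcd_dvd_left α γ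
  obtain ⟨γ1, hγ⟩ := EuclideanDomain.gcd_dvd_right α γ
  have hab := EuclideanDomain.gcd_eq_gcd_ab α γ
  rw [← hg] at hα hγ hab
  set c := g.leadingCoeff with hc
  have hc0 : c ≠ 0 := leadingCoeff_ne_zero.2 hg0
  have hcc : C c * C c⁻¹ = (1 : Fq[X]) := by rw [← C_mul, mul_inv_cancel₀ hc0, C_1]
  refine ⟨g * C c⁻¹, C c * α1, C c * γ1, C c⁻¹ * EuclideanDomain.gcdA α γ,
    C c⁻¹ * EuclideanDomain.gcdB α γ, monic_mul_leadingCoeff_inv hg0, ?_, ?_, ?_⟩
  · calc α = g * α1 := hα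
      _ = g * α1 * (C c * C c⁻¹) := by rw [hcc, mul_one]
      _ = _ := by ring
  · calc γ = g * γ1 := hγ
      _ = g * γ1 * (C c * C c⁻¹) := by rw [hcc, mul_one]
      _ = _ := by ring
  · have e1 : α1 * EuclideanDomain.gcdA α γ + γ1 * EuclideanDomain.gcdB α γ = 1 := by
      apply mul_left_cancel₀ hg0
      calc g * (α1 * EuclideanDomain.gcdA α γ + γ1 * EuclideanDomain.gcdB α γ) =
          (g * α1) * EuclideanDomain.gcdA α γ + (g * γ1) * EuclideanDomain.gcdB α γ := by ring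
        _ = α * EuclideanDomain.gcdA α γ + γ * EuclideanDomain.gcdB α γ := by rw [← hα, ← hγ]
        _ = g * 1 := by rw [← hab, mul_one]
    calc C c⁻¹ * EuclideanDomain.gcdA α γ * (C c * α1) + C c⁻¹ * EuclideanDomain.gcdB α γ * (C c * γ1)
        = (C c * C c⁻¹) * (α1 * EuclideanDomain.gcdA α γ + γ1 * EuclideanDomain.gcdB α γ) := by ring
      _ = 1 := by rw [hcc, e1, mul_one]

/-- existence of representatives -/
lemma exists_rep {n m : Fq[X]} (hm : m.Monic) {M : Matrix (Fin 2) (Fin 2) Fq[X]}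
    (hM : M ∈ del n m) : ∃ γ ∈ gam n, ∃ h ∈ rep n m, γ * M = h := by
  obtain ⟨⟨ε, hε, hdet⟩, hcop, hn⟩ := hM
  have hdet0 : M.det ≠ 0 := by rw [hdet]; exact mul_ne_zero hε.ne_zero hm.ne_zero
  have hne : M 0 0 ≠ 0 ∨ M 1 0 ≠ 0 := by
    by_contra hcon
    push Not at hcon
    apply hdet0
    rw [Matrix.det_fin_two, hcon.1, hcon.2]; ring
  obtain ⟨a, α', γ', x, y, ha, hα, hγ, hxy⟩ := exists_gcd (M 0 0) (M 1 0) hne
  have hacop : IsCoprime a n := by
    rw [hα] at hcop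
    exact hcop.of_mul_left_left
  have hnγ : n ∣ γ' := by
    rw [hγ] at hn
    exact hacop.symm.dvd_of_dvd_mul_left hn
  set b0 := x * M 0 1 + y * M 1 1 with hb0
  set d0 := -γ' * M 0 1 + α' * M 1 1 with hd0
  have had0 : a * d0 = ε * m := by
    rw [← hdet, Matrix.det_fin_two, hα, hγ, hd0]; ring
  obtain ⟨f, hf, hee⟩ : ∃ f : Fq[X], IsUnit f ∧ f * ε = 1 := by
    obtain ⟨e, he⟩ := hε
    exact ⟨↑e⁻¹, Units.isUnit _, by rw [← he]; simp⟩
  set d := f * d0 with hd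
  have had : a * d = m := by
    rw [hd]
    calc a * (f * d0) = f * (a * d0) := by ring
      _ = (f * ε) * m := by rw [had0]; ring
      _ = m := by rw [hee, one_mul]
  have hdm : d.Monic := by
    have : (a * d).Monic := by rw [had]; exact hm
    exact ha.of_mul_monic_left this
  refine ⟨!![1, -(b0 /ₘ d); 0, 1] * (!![1, 0; 0, f] * !![x, y; -γ', α']), ?_,
    !![a, b0 %ₘ d; 0, d], ⟨a, b0 %ₘ d, d, ha, hdm, had, hacop, degree_modByMonic_lt _ hdm, rfl⟩, ?_⟩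
  · refine mul_mem_gam ⟨?_, dvd_zero n⟩ (mul_mem_gam ⟨?_, dvd_zero n⟩ ⟨?_, ?_⟩)
    · rw [Matrix.det_fin_two_of]; simp
    · rw [Matrix.det_fin_two_of]; simpa using hf
    · rw [Matrix.det_fin_two_of]
      have : x * α' - y * -γ' = 1 := by rw [← hxy]; ring
      rw [this]; exact isUnit_one
    · show n ∣ -γ'
      exact (dvd_neg).2 hnγ
  · have hM : M = !![M 0 0, M 0 1; M 1 0, M 1 1] := Matrix.eta_fin_two M
    rw [hM, hα, hγ, Matrix.mul_assoc, Matrix.mul_assoc, Matrix.mul_fin_two, Matrix.mul_fin_two,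
      Matrix.mul_fin_two]
    have e1 : x * (a * α') + y * (a * γ') = a := by
      calc x * (a * α') + y * (a * γ') = a * (x * α' + y * γ') := by ring
        _ = a := by rw [hxy, mul_one]
    have e2 : -γ' * (a * α') + α' * (a * γ') = 0 := by ring
    rw [e1, e2, ← hb0, ← hd0]
    simp only [one_mul, zero_mul, zero_add, add_zero, mul_zero]
    rw [← hd]
    have e3 : b0 + -(b0 /ₘ d) * d = b0 %ₘ d := by
      have := modByMonic_add_div b0 d
      linear_combination -this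
    rw [e3]

/-- uniqueness of representatives -/
lemma rep_unique {n m : Fq[X]} {γ h h' : Matrix (Fin 2) (Fin 2) Fq[X]} (hγ : IsUnit γ.det)
    (hh : h ∈ rep n m) (hh' : h' ∈ rep n m) (he : γ * h = h') : h = h' := by
  obtain ⟨a, b, d, ha, hd, had, -, hb, rfl⟩ := hh
  obtain ⟨a', b', d', ha', hd', had', -, hb', rfl⟩ := hh'
  rw [Matrix.eta_fin_two γ, Matrix.mul_fin_two] at he
  have h00 : γ 0 0 * a + γ 0 1 * 0 = a' := congrFun (congrFun he 0) 0
  have h01 : γ 0 0 * b + γ 0 1 * d = b' := congrFun (congrFun he 0) 1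
  have h10 : γ 1 0 * a + γ 1 1 * 0 = 0 := congrFun (congrFun he 1) 0
  have h11 : γ 1 0 * b + γ 1 1 * d = d' := congrFun (congrFun he 1) 1
  rw [mul_zero, add_zero] at h00 h10
  have hc : γ 1 0 = 0 := (mul_eq_zero.1 h10).resolve_right ha.ne_zero
  rw [hc, zero_mul, zero_add] at h11
  rw [Matrix.det_fin_two, hc, mul_zero, sub_zero] at hγ
  have hu0 : IsUnit (γ 0 0) := isUnit_of_mul_isUnit_left hγ
  have hu1 : IsUnit (γ 1 1) := isUnit_of_mul_isUnit_right hγ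
  have hm0 : (γ 0 0).Monic := by
    have : (γ 0 0 * a).Monic := by rw [h00]; exact ha'
    exact ha.of_mul_monic_right this
  have hm1 : (γ 1 1).Monic := by
    have : (γ 1 1 * d).Monic := by rw [h11]; exact hd'
    exact hd.of_mul_monic_right this
  have h0 : γ 0 0 = 1 := hm0.eq_one_of_isUnit hu0
  have h1 : γ 1 1 = 1 := hm1.eq_one_of_isUnit hu1
  rw [h0, one_mul] at h00 h01
  rw [h1, one_mul] at h11
  subst h00 h11
  have hq : γ 0 1 = 0 := by
    by_contra hq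
    have h2 : γ 0 1 * d = b' - b := by rw [← h01]; ring
    have h3 : d.degree ≤ (b' - b).degree := by
      rw [← h2, mul_comm]; exact degree_le_mul_left d hq
    have h4 : (b' - b).degree < d.degree :=
      lt_of_le_of_lt (degree_sub_le _ _) (max_lt hb' hb)
    exact absurd (lt_of_le_of_lt h3 h4) (lt_irrefl _)
  rw [hq, zero_mul, add_zero] at h01
  rw [h01]

end

end Pool.Agent.J4H97.HP
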