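import Pool.Agent.J4H97.HP.Iwa

/-!
# Project HP, job J1
-/

open Polynomial Matrix

namespace Pool.Agent.J4H97.HP

open Pool.Agent.J4H98.HP

variable {Fq : Type} [Field Fq]

/-! ### The embedding of polynomials -/

lemma emb_C (c : Fq) : emb Fq (C c) = HahnSeries.C c := by
  unfold emb; simp

lemma emb_X : emb Fq X = HahnSeries.single (-1 : ℤ) (1 : Fq) := by
  unfold emb; simp

lemma single_pow (n : ℕ) : (HahnSeries.single (-1 : ℤ) (1 : Fq) : Kinf Fq) ^ n =
    HahnSeries.single (-(n : ℤ)) (1 : Fq) := by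
  rw [HahnSeries.single_pow]; simp

lemma emb_coeff (p : Fq[X]) (j : ℤ) :
    (emb Fq p).coeff j = if j ≤ 0 then p.coeff j.natAbs else 0 := by
  induction p using Polynomial.induction_on' with
  | add p q hp hq =>
    rw [map_add, HahnSeries.coeff_add, hp, hq, Polynomial.coeff_add]
    split_ifs <;> simp
  | monomial n c =>
    rw [← C_mul_X_pow_eq_monomial, map_mul, map_pow, emb_C, emb_X, single_pow]
    rw [HahnSeries.C_apply, HahnSeries.single_mul_single, zero_add, mul_one,
      HahnSeries.coeff_single, coeff_C_mul_X_pow]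
    by_cases h : j = -(n : ℤ)
    · subst h; simp
    · rw [if_neg h]
      split_ifs with h1 h2
      · exfalso; apply h; omega
      · rfl
      · rfl

lemma emb_ne {p : Fq[X]} (hp : p ≠ 0) : emb Fq p ≠ 0 := by
  intro h
  apply hp
  ext n
  have := emb_coeff p (-(n : ℤ))
  rw [h, if_pos (by omega)] at this
  simp at this
  rw [coeff_zero]; exact this.symm

lemma emb_order {p : Fq[X]} (hp : p ≠ 0) : (emb Fq p).order = -(p.natDegree : ℤ) := by
  apply le_antisymm
  · apply HahnSeries.order_le_of_coeff_ne_zero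
    rw [emb_coeff, if_pos (by omega)]
    simpa using hp
  · rw [HahnSeries.le_order_iff_forall (emb_ne hp)]
    intro j hj
    rw [emb_coeff]
    split_ifs
    · apply coeff_eq_zero_of_natDegree_lt
      omega
    · rfl

lemma emb_unit {p : Fq[X]} (hp : IsUnit p) : emb Fq p ≠ 0 ∧ (emb Fq p).order = 0 := by
  have h := emb_order hp.ne_zero
  rw [natDegree_eq_zero_of_isUnit hp] at h
  exact ⟨emb_ne hp.ne_zero, by simpa using h⟩

lemma det_map (δ : Matrix (Fin 2) (Fin 2) Fq[X]) : (δ.map (emb Fq)).det = emb Fq δ.det := by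
  rw [Matrix.det_fin_two, Matrix.det_fin_two]
  simp

lemma det_map_ne {δ : Matrix (Fin 2) (Fin 2) Fq[X]} (h : IsUnit δ.det) : (δ.map (emb Fq)).det ≠ 0 := by
  rw [det_map]; exact (emb_unit h).1

lemma det_p_ne (k : ℤ) (u : Kinf Fq) :
    (!![HahnSeries.single k (1 : Fq), u; 0, 1] : Matrix (Fin 2) (Fin 2) (Kinf Fq)).det ≠ 0 := by
  rw [Matrix.det_fin_two_of]
  simpa using single_ne k

lemma map_mul' (δ γ : Matrix (Fin 2) (Fin 2) Fq[X]) :
    (δ * γ).map (emb Fq) = δ.map (emb Fq) * γ.map (emb Fq) := Matrix.map_mul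

lemma edge_mul {δ γ : Matrix (Fin 2) (Fin 2) Fq[X]} (hδ : IsUnit δ.det) (hγ : IsUnit γ.det)
    (k : ℤ) (u : Kinf Fq) : edge (δ * γ) k u = gl (δ.map (emb Fq)) *
      gl (γ.map (emb Fq) * !![HahnSeries.single k (1 : Fq), u; 0, 1]) := by
  unfold edge
  rw [map_mul', gl_mul (det_map_ne hδ) (det_map_ne hγ), gl_mul (det_map_ne hγ) (det_p_ne k u),
    mul_assoc]

lemma gam_mul (γ : Matrix (Fin 2) (Fin 2) Fq[X]) (k : ℤ) (u : Kinf Fq) :
    γ.map (emb Fq) * !![HahnSeries.single k (1 : Fq), u; 0, 1] =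
      !![emb Fq (γ 0 0) * HahnSeries.single k (1 : Fq), num γ u;
        emb Fq (γ 1 0) * HahnSeries.single k (1 : Fq), den γ u] := by
  rw [Matrix.eta_fin_two (γ.map (emb Fq)), Matrix.mul_fin_two]
  simp [num, den, Matrix.map_apply]

lemma det_eq (γ : Matrix (Fin 2) (Fin 2) Fq[X]) (u : Kinf Fq) :
    emb Fq (γ 0 0) * den γ u - num γ u * emb Fq (γ 1 0) = emb Fq γ.det := by
  rw [Matrix.det_fin_two]
  simp only [num, den, map_sub, map_mul]
  ring

variable [Fintype Fq]

theorem t_FAM0 : S_FAM0 := by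
  intro Fq _ _ n N _ F hF hinv
  refine ⟨?_, ?_, ?_, ?_, ?_⟩
  · -- congr
    intro δ hδ k u u' huu
    show F (edge δ k u) = F (edge δ k u')
    unfold edge
    set x : Kinf Fq := (u - u') / HahnSeries.single k (1 : Fq) with hx
    have hxu : HahnSeries.single k (1 : Fq) * x = u - u' := by
      rw [hx]; field_simp [single_ne k]
    have hK : (!![1, x; 0, 1] : Matrix (Fin 2) (Fin 2) (Kinf Fq)).det ≠ 0 := by
      rw [Matrix.det_fin_two_of]; simp
    have hM : (!![HahnSeries.single k (1 : Fq), u; 0, 1] : Matrix (Fin 2) (Fin 2) (Kinf Fq)) =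
        !![HahnSeries.single k (1 : Fq), u'; 0, 1] * !![1, x; 0, 1] := by
      rw [Matrix.mul_fin_two]
      simp [hxu]
    rw [hM, gl_mul (det_p_ne k u') hK, ← mul_assoc, hF.iwahori]
    have hvx : Val 0 x := by
      have := val_div huu (single_ne (Fq := Fq) k)
      rw [order_single', sub_self] at this
      exact this
    have hv1 : Val 0 (1 : Kinf Fq) := by
      intro i hi
      rw [HahnSeries.coeff_one, if_neg (ne_of_lt hi)]
    refine ⟨?_, ?_, ?_⟩
    · rw [gl_val hK]
      intro i j
      fin_cases i <;> fin_cases j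
      · exact hv1
      · exact hvx
      · intro i _; rfl
      · exact hv1
    · rw [gl_val hK]
      intro i _; rfl
    · rw [gl_val hK, Matrix.det_fin_two_of]
      simp
  · -- sum
    intro δ hδ k u
    show F (edge δ k u) = ∑ c : Fq, F (edge δ (k + 1) (u + HahnSeries.single k c))
    have hterm : ∀ c : Fq, F (edge δ (k + 1) (u + HahnSeries.single k c)) =
        -F (edge δ k u * gl !![HahnSeries.C c, 1; 1, 0]) := by
      intro c
      have hc : (!![HahnSeries.C c, 1; 1, 0] : Matrix (Fin 2) (Fin 2) (Kinf Fq)).det ≠ 0 := by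
        rw [Matrix.det_fin_two_of]; simp
      rw [← hF.reverse]
      congr 1
      unfold edge
      rw [mul_assoc, mul_assoc, ← gl_mul hc det_w_ne, ← gl_mul (det_p_ne k u)
        (by rw [Matrix.det_mul]; exact mul_ne_zero hc det_w_ne)]
      congr 2
      rw [Matrix.mul_fin_two, Matrix.mul_fin_two]
      have h1 : (HahnSeries.single k (1 : Fq) : Kinf Fq) * unif Fq =
          HahnSeries.single (k + 1) (1 : Fq) := by
        unfold unif
        rw [HahnSeries.single_mul_single, one_mul]
      have h2 : (HahnSeries.single k (1 : Fq) : Kinf Fq) * HahnSeries.C c =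
          HahnSeries.single k c := by
        rw [HahnSeries.C_apply, HahnSeries.single_mul_single, add_zero, one_mul]
      simp [h1, h2, add_comm]
    rw [Finset.sum_congr rfl (fun c _ => hterm c), Finset.sum_neg_distrib]
    have := hF.harmonic (edge δ k u)
    exact eq_neg_of_add_eq_zero_left this
  · -- moebA
    intro δ γ hδ hγ k u hden hval
    show F (edge (δ * γ) k u) = F (edge δ (k - 2 * (den γ u).order) (num γ u / den γ u))
    have hdet : emb Fq (γ 0 0) * HahnSeries.single k (1 : Fq) * den γ u -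
        num γ u * (emb Fq (γ 1 0) * HahnSeries.single k (1 : Fq)) =
        emb Fq γ.det * HahnSeries.single k (1 : Fq) := by
      rw [← det_eq γ u]; ring
    have hne : emb Fq γ.det * HahnSeries.single k (1 : Fq) ≠ 0 :=
      mul_ne_zero (emb_unit hγ).1 (single_ne k)
    have hord : (emb Fq γ.det * HahnSeries.single k (1 : Fq) : Kinf Fq).order = k := by
      rw [order_mul' (emb_unit hγ).1 (single_ne k), (emb_unit hγ).2, order_single', zero_add]
    rw [edge_mul hδ hγ, gam_mul, red hF _ _ _ _ _ hden (by rw [hdet]; exact hne), hdet, hord]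
    · rfl
    · rw [val_iff] at hval ⊢
      by_cases hc : emb Fq (γ 1 0) = 0
      · left; rw [hc, zero_mul]
      · right
        rw [order_mul' hc (single_ne k), order_single']
        rcases hval with h | h
        · exact absurd h hc
        · linarith
  · -- moebB
    intro δ γ hδ hγ k u hc hval
    show F (edge (δ * γ) k u) = -F (edge δ (1 - k + 2 * (γ 1 0).natDegree)
      (emb Fq (γ 0 0) / emb Fq (γ 1 0)))
    have hcK : emb Fq (γ 1 0) ≠ 0 := emb_ne hc
    have hco := emb_order hc
    set p : Kinf Fq := HahnSeries.single k (1 : Fq) with hp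
    have hp0 : p ≠ 0 := single_ne k
    have hpo : p.order = k := order_single' k
    have hrev := hF.reverse (edge (δ * γ) k u)
    have hdp : (γ.map (emb Fq) * !![p, u; 0, 1]).det ≠ 0 := by
      rw [Matrix.det_mul]; exact mul_ne_zero (det_map_ne hγ) (det_p_ne k u)
    rw [edge_mul hδ hγ, mul_assoc, ← gl_mul hdp det_w_ne, gam_mul, Matrix.mul_fin_two] at hrev
    simp only [mul_zero, mul_one, zero_add, add_zero] at hrev
    have hdet : num γ u * unif Fq * (emb Fq (γ 1 0) * p) -
        emb Fq (γ 0 0) * p * (den γ u * unif Fq) = -emb Fq γ.det * (p * unif Fq) := by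
      rw [← det_eq γ u]; ring
    have hne : -emb Fq γ.det * (p * unif Fq) ≠ 0 :=
      mul_ne_zero (neg_ne_zero.2 (emb_unit hγ).1) (mul_ne_zero hp0 unif_ne)
    have hord : (-emb Fq γ.det * (p * unif Fq)).order = k + 1 := by
      rw [order_mul' (neg_ne_zero.2 (emb_unit hγ).1) (mul_ne_zero hp0 unif_ne),
        HahnSeries.order_neg, (emb_unit hγ).2, order_mul' hp0 unif_ne, hpo, order_unif, zero_add]
    have hD : (emb Fq (γ 1 0) * p).order = k - (γ 1 0).natDegree := by
      rw [order_mul' hcK hp0, hco, hpo]; ring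
    have hred := red hF (gl (δ.map (emb Fq))) (num γ u * unif Fq) (emb Fq (γ 0 0) * p)
      (den γ u * unif Fq) (emb Fq (γ 1 0) * p) (mul_ne_zero hcK hp0) (by rw [hdet]; exact hne)
      (by rw [hD]; exact val_mul_unif hval)
    rw [hred, hdet, hord, hD] at hrev
    have hfrac : emb Fq (γ 0 0) * p / (emb Fq (γ 1 0) * p) = emb Fq (γ 0 0) / emb Fq (γ 1 0) :=
      mul_div_mul_right _ _ hp0
    have hk : k + 1 - 2 * (k - ((γ 1 0).natDegree : ℤ)) = 1 - k + 2 * (γ 1 0).natDegree := by ring
    rw [hfrac, hk] at hrev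
    rw [edge_mul hδ hγ, gam_mul]
    unfold edge
    rw [hrev, neg_neg]
  · -- inv
    intro δ hδ γ hγ hn
    funext k u
    show F (edge (γ * δ) k u) = F (edge δ k u)
    unfold edge
    rw [map_mul', gl_mul (det_map_ne hγ) (det_map_ne hδ), mul_assoc]
    apply hinv
    refine ⟨γ 0 0, γ 0 1, γ 1 0, γ 1 1, ?_, hn, ?_⟩
    · rwa [← Matrix.det_fin_two]
    · rw [gl_val (det_map_ne hγ), Matrix.eta_fin_two (γ.map (emb Fq))]
      simp [Matrix.map_apply]

end Pool.Agent.J4H97.HP
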