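import Pool.Agent.J4H97.HP.Sl
import Pool.Agent.TH828.DM.Main1
import Pool.Agent.J4H97.HP.Fam0

/-!
# Project HP, K3b: residues at edges
-/

open Polynomial Matrix Filter Topology

namespace Pool.Agent.J4H97.HP

open Pool.Agent.J4H98.HP
open Pool.Agent.TH828.DM (Omega OmegaN IsRigidAnalytic expA res HasRes pt avg)
open Pool.Agent.N814.DR (slash SmallAtInfinity)

section
variable {Fq : Type} [Field Fq] {C : Type} [NontriviallyNormedField C] [Algebra Fq C]
  {t s : C} {ι : Kinf Fq →+* C}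

lemma iota_single_neg (hS : Sta t s ι) : ι (HahnSeries.single (-1 : ℤ) (1 : Fq)) = t := by
  rw [← emb_X, hS.emb, aeval_X]

lemma single_zpow (k : ℤ) : (HahnSeries.single k (1 : Fq) : Kinf Fq) =
    (HahnSeries.single (-1 : ℤ) (1 : Fq)) ^ (-k) := by
  rcases Int.eq_nat_or_neg k with ⟨n, rfl | rfl⟩
  · rw [_root_.zpow_neg, _root_.zpow_natCast, single_pow]
    symm
    apply inv_eq_of_mul_eq_one_left
    rw [HahnSeries.single_mul_single]
    simp
  · rw [neg_neg, _root_.zpow_natCast, single_pow]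

lemma iota_single (hS : Sta t s ι) (k : ℤ) : ι (HahnSeries.single k (1 : Fq)) = t ^ (-k) := by
  rw [single_zpow, map_zpow₀, iota_single_neg hS]

lemma iota_unif (hS : Sta t s ι) : ι (unif Fq) = t⁻¹ := by
  unfold unif
  rw [iota_single hS, _root_.zpow_neg, _root_.zpow_one]

end

section
variable {Fq : Type} [Field Fq] [Fintype Fq] {C : Type} [NontriviallyNormedField C]
  [IsUltrametricDist C] [Algebra Fq C] {t s : C} {ι : Kinf Fq →+* C}

lemma s_ne (hS : Sta t s ι) : s ≠ 0 := by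
  have := Pool.Agent.TH828.DM.norm_s hS.hs hS.ht
  exact norm_pos_iff.1 (by linarith)

lemma circ_omega (hS : Sta t s ι) {ζ : C} (hζ : ‖ζ‖ = 1) : s * ζ ∈ Omega Fq t :=
  Pool.Agent.TH828.DM.outer_mem_omega hS.hs hS.ht (n := 0) (by simp [hζ])

lemma inner_omega (hS : Sta t s ι) {ζ : C} (hζ : ‖ζ‖ = 1) : s⁻¹ * ζ ∈ Omega Fq t :=
  Pool.Agent.TH828.DM.inner_mem_omega hS.hs hS.ht (by simp [hζ])

/-- substitution of an affine map -/
lemma avg_affine (hS : Sta t s ι) {x u : Kinf Fq} (hx : x ≠ 0) (h : C → C) {N : ℕ} (hN : 0 < N) :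
    avg N (sl t ι (gl !![x, u; 0, 1]) h) 0 s = avg N h (ι u) (ι x * s) := by
  have hdet : (!![x, u; 0, 1] : Matrix (Fin 2) (Fin 2) (Kinf Fq)).det ≠ 0 := by
    rw [Matrix.det_fin_two_of]; simpa using hx
  unfold avg
  congr 1
  refine Finset.sum_congr rfl fun ζ hζ => ?_
  have h1 := Pool.Agent.TH828.DM.norm_of_mem_nthRoots hN hζ
  have h2 := circ_omega hS h1
  rw [zero_add, sl_mem _ _ h2, gl_val hdet, Matrix.det_fin_two_of]
  simp only [Matrix.of_apply, Matrix.cons_val', Matrix.cons_val_zero, Matrix.cons_val_one,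
    Matrix.cons_val_fin_one, map_zero, map_one, zero_mul, zero_add, mul_zero, sub_zero, mul_one,
    one_pow, inv_one, div_one]
  rw [show ι x * (s * ζ) + ι u = ι u + ι x * s * ζ by ring]
  ring

variable [CompleteSpace C] [IsAlgClosed C]

lemma good0 (hS : Sta t s ι) {h : C → C} (hh : IsRigidAnalytic Fq t h) :
    Pool.Agent.TH828.DM.Good (Fintype.card Fq) (fun b : Fin 1 → Fq => pt t b) s s⁻¹ h := by
  have H := Pool.Agent.TH828.DM.regOK0 (F := Fq) hS.hs hS.ht 0
  have e : s ^ (2 * 0 + 1) = s := by simp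
  have hg := Pool.Agent.TH828.DM.good_of_approx (Pool.Agent.TH828.DM.card_cast Fq C)
    Pool.Agent.TH828.DM.two_le_card H (g := h) (fun ε hε => by
      obtain ⟨P, Q, hQ, hPQ⟩ := hh (0 + 1) ε hε
      refine ⟨P, Q, fun z hz => hQ z (Pool.Agent.TH828.DM.reg0_sub hS.hs hS.ht 0 hz), fun z hz => ?_⟩
      exact hPQ z (Pool.Agent.TH828.DM.reg0_sub hS.hs hS.ht 0 (H.circ_sub hz)))
  rw [e] at hg
  exact hg

/-- existence of the residue on the circle `|z| = |s|` -/
lemma hasRes0 (hS : Sta t s ι) {h : C → C} (hh : IsRigidAnalytic Fq t h) :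
    HasRes (Fintype.card Fq) h 0 s (res (Fintype.card Fq) h 0 s) := by
  obtain ⟨_, v0, v, h1, h2, h3⟩ := good0 hS hh
  exact h1.hasRes_res

end

theorem t_EDGE : Pool.Agent.J4H98.HP.S_EDGE := by
  intro Fq C _ _ _ _ _ _ _ t s ι hS f hf δ hδ k u
  have hdet : (δ.map (emb Fq)).det ≠ 0 := by
    rw [emb_det]
    exact emb_ne hδ
  have h1 : sl t ι (edge δ k u) f =
      sl t ι (gl !![HahnSeries.single k (1 : Fq), u; 0, 1]) (slash Fq t 2 1 δ f) := by
    unfold edge
    rw [sl_mul hS, sl_slash hS hδ]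
  have h2 := hasRes0 hS (sl_rigid hS (edge δ k u) hf)
  unfold rc
  unfold HasRes at h2 ⊢
  refine h2.congr fun j => ?_
  rw [h1, avg_affine hS (single_ne k) _
    (Pool.Agent.TH828.DM.nseq_pos Pool.Agent.TH828.DM.two_le_card j), iota_single hS]

end Pool.Agent.J4H97.HP
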