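import Pool.Agent.J4H97.HP.Cos

/-!
# Project HP: the anti-involution of `Δ₀(n)` fixes the double cosets (for J7)
-/

open Polynomial Matrix

namespace Pool.Agent.J4H97.HP

open Pool.Agent.J4H98.HP

variable {Fq : Type} [Field Fq]

lemma exists_coprime_add (a b d : Fq[X]) (ha : a ≠ 0)
    (h : ∀ p, Irreducible p → p ∣ a → p ∣ b → ¬ p ∣ d) : ∃ x, IsCoprime a (b + x * d) := by
  classical
  set S := (UniqueFactorizationMonoid.normalizedFactors a).toFinset.filter (fun p => ¬ p ∣ b) with hS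
  refine ⟨∏ p ∈ S, p, ?_⟩
  apply isCoprime_of_irreducible_dvd (fun h0 => ha h0.1)
  intro p hp hpa hpd
  by_cases hpb : p ∣ b
  · have h1 : p ∣ (∏ p ∈ S, p) * d := (dvd_add_right hpb).1 hpd
    rcases hp.prime.dvd_or_dvd h1 with h2 | h2
    · obtain ⟨q, hq, hpq⟩ := hp.prime.exists_mem_finset_dvd h2
      rw [hS, Finset.mem_filter, Multiset.mem_toFinset] at hq
      have hqi := UniqueFactorizationMonoid.irreducible_of_normalized_factor q hq.1
      have : q ∣ p := (hp.associated_of_dvd hqi hpq).symm.dvd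
      exact hq.2 (this.trans hpb)
    · exact h p hp hpa hpb h2
  · obtain ⟨q, hq, hpq⟩ := UniqueFactorizationMonoid.exists_mem_normalizedFactors_of_dvd ha hp hpa
    have hqS : q ∈ S := by
      rw [hS, Finset.mem_filter, Multiset.mem_toFinset]
      exact ⟨hq, fun hqb => hpb (hpq.dvd.trans hqb)⟩
    have h0 : q ∣ ∏ p ∈ S, p := Finset.dvd_prod_of_mem (fun p : Fq[X] => p) hqS
    have h1 : p ∣ (∏ p ∈ S, p) * d := (hpq.dvd.trans h0).mul_right d
    exact hpb ((dvd_add_left h1).1 hpd)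

/-- the anti-involution -/
noncomputable def iot (n : Fq[X]) (M : Matrix (Fin 2) (Fin 2) Fq[X]) :
    Matrix (Fin 2) (Fin 2) Fq[X] := !![M 0 0, M 1 0 / n; n * M 0 1, M 1 1]

lemma iot_of {n : Fq[X]} (hn : n ≠ 0) (a b c d : Fq[X]) :
    iot n !![a, b; n * c, d] = !![a, c; n * b, d] := by
  have h : n * c / n = c := mul_div_cancel_left₀ c hn
  simp only [iot, Matrix.of_apply, Matrix.cons_val', Matrix.cons_val_zero, Matrix.cons_val_one,
    Matrix.cons_val_fin_one, h]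

lemma eta_dvd {n : Fq[X]} {M : Matrix (Fin 2) (Fin 2) Fq[X]} (h : n ∣ M 1 0) :
    ∃ a b c d : Fq[X], M = !![a, b; n * c, d] := by
  obtain ⟨c, hc⟩ := h
  refine ⟨M 0 0, M 0 1, c, M 1 1, ?_⟩
  rw [← hc]
  exact Matrix.eta_fin_two M

lemma iot_mul {n : Fq[X]} (hn : n ≠ 0) {M M' : Matrix (Fin 2) (Fin 2) Fq[X]} (h : n ∣ M 1 0)
    (h' : n ∣ M' 1 0) : iot n (M * M') = iot n M' * iot n M := by
  obtain ⟨a, b, c, d, rfl⟩ := eta_dvd h
  obtain ⟨a', b', c', d', rfl⟩ := eta_dvd h'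
  have e : (!![a, b; n * c, d] : Matrix (Fin 2) (Fin 2) Fq[X]) * !![a', b'; n * c', d'] =
      !![a * a' + b * (n * c'), a * b' + b * d'; n * (c * a' + d * c'), n * c * b' + d * d'] := by
    rw [Matrix.mul_fin_two]
    have : n * c * a' + d * (n * c') = n * (c * a' + d * c') := by ring
    rw [this]
  rw [e, iot_of hn, iot_of hn, iot_of hn, Matrix.mul_fin_two]
  congr 1
  congr 1
  · ext1 j
    fin_cases j
    · show a * a' + b * (n * c') = a' * a + c' * (n * b); ring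
    · show c * a' + d * c' = a' * c + c' * d; ring
  · ext1 i
    ext1 j
    fin_cases i
    fin_cases j
    · show n * (a * b' + b * d') = n * b' * a + d' * (n * b); ring
    · show n * c * b' + d * d' = n * b' * c + d' * d; ring

lemma iot_dvd (n : Fq[X]) (M : Matrix (Fin 2) (Fin 2) Fq[X]) : n ∣ iot n M 1 0 :=
  Dvd.intro _ rfl

lemma iot_iot {n : Fq[X]} (hn : n ≠ 0) {M : Matrix (Fin 2) (Fin 2) Fq[X]} (h : n ∣ M 1 0) :
    iot n (iot n M) = M := by
  obtain ⟨a, b, c, d, rfl⟩ := eta_dvd h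
  rw [iot_of hn, iot_of hn]

lemma iot_det {n : Fq[X]} (hn : n ≠ 0) {M : Matrix (Fin 2) (Fin 2) Fq[X]} (h : n ∣ M 1 0) :
    (iot n M).det = M.det := by
  obtain ⟨a, b, c, d, rfl⟩ := eta_dvd h
  rw [iot_of hn, Matrix.det_fin_two_of, Matrix.det_fin_two_of]; ring

lemma iot_gam {n : Fq[X]} (hn : n ≠ 0) {M : Matrix (Fin 2) (Fin 2) Fq[X]} (h : M ∈ gam n) :
    iot n M ∈ gam n := ⟨by rw [iot_det hn h.2]; exact h.1, iot_dvd n M⟩

lemma iot_del {n m : Fq[X]} (hn : n ≠ 0) {M : Matrix (Fin 2) (Fin 2) Fq[X]} (h : M ∈ del n m) :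
    iot n M ∈ del n m := by
  obtain ⟨⟨ε, hε, hd⟩, hc, hdv⟩ := h
  exact ⟨⟨ε, hε, by rw [iot_det hn hdv, hd]⟩, hc, iot_dvd n M⟩

lemma diag_rep {n m : Fq[X]} {M : Matrix (Fin 2) (Fin 2) Fq[X]} (h : M ∈ rep n m) :
    ∃ u ∈ gam n, ∃ v ∈ gam n, ∃ l k : Fq[X], u * M * v = !![l, 0; 0, k] := by
  obtain ⟨a, b, d, ha, hd, had, hc, -, rfl⟩ := h
  -- the content
  obtain ⟨e, a1, b1, d1, he, ha1, hb1, hd1, hcop⟩ : ∃ e a1 b1 d1 : Fq[X], e ≠ 0 ∧ a = e * a1 ∧
      b = e * b1 ∧ d = e * d1 ∧ (∀ p, Irreducible p → p ∣ a1 → p ∣ b1 → ¬ p ∣ d1) := by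
    obtain ⟨e1, a', b', x, y, he1, ha', hb', hxy⟩ := exists_gcd a b (Or.inl ha.ne_zero)
    obtain ⟨e, e', d', x', y', he, he', hd', hxy'⟩ := exists_gcd e1 d (Or.inl he1.ne_zero)
    refine ⟨e, e' * a', e' * b', d', he.ne_zero, ?_, ?_, hd', ?_⟩
    · rw [ha', he']; ring
    · rw [hb', he']; ring
    · intro p hp h1 h2 h3
      have h4 : p ∣ e' := by
        have : e' = x * (e' * a') + y * (e' * b') := by
          calc e' = e' * (x * a' + y * b') := by rw [hxy, mul_one]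
            _ = _ := by ring
        rw [this]
        exact dvd_add (h1.mul_left _) (h2.mul_left _)
      have h5 : p ∣ 1 := by
        rw [← hxy']
        exact dvd_add (h4.mul_left _) (h3.mul_left _)
      exact hp.not_isUnit (isUnit_of_dvd_one h5)
  have ha10 : a1 ≠ 0 := by
    rintro rfl
    rw [mul_zero] at ha1
    exact ha.ne_zero ha1
  obtain ⟨x, hx⟩ := exists_coprime_add a1 b1 d1 ha10 hcop
  have ha1n : IsCoprime a1 n := by
    rw [ha1] at hc
    exact hc.of_mul_left_right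
  obtain ⟨v1, v2, hv⟩ := ha1n.mul_right hx
  set w := b1 + x * d1 with hw
  refine ⟨!![1, 0; -(n * (v2 * d1)), 1] * !![1, x; 0, 1], mul_mem_gam ⟨?_, ?_⟩ ⟨?_, dvd_zero n⟩,
    !![v1, -w; n * v2, a1], ⟨?_, ?_⟩, e, e * (a1 * d1), ?_⟩
  · rw [Matrix.det_fin_two_of]; simp
  · exact (dvd_neg).2 (Dvd.intro _ rfl)
  · rw [Matrix.det_fin_two_of]; simp
  · rw [Matrix.det_fin_two_of]
    have : v1 * a1 - -w * (n * v2) = 1 := by rw [← hv]; ring
    rw [this]; exact isUnit_one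
  · exact Dvd.intro _ rfl
  · rw [ha1, hb1, hd1, Matrix.mul_fin_two, Matrix.mul_fin_two, Matrix.mul_fin_two]
    simp only [one_mul, add_zero, mul_zero, mul_one]
    have e00 : e * a1 * v1 + (e * b1 + x * (e * d1)) * (n * v2) = e := by
      calc _ = e * (v1 * a1 + v2 * (n * w)) := by rw [hw]; ring
        _ = e := by rw [hv, mul_one]
    have e01 : e * a1 * -w + (e * b1 + x * (e * d1)) * a1 = 0 := by rw [hw]; ring
    have e10 : -(n * (v2 * d1)) * (e * a1) * v1 +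
        (-(n * (v2 * d1)) * (e * b1) + (-(n * (v2 * d1)) * x + 1) * (e * d1)) * (n * v2) = 0 := by
      calc _ = e * n * v2 * d1 * (1 - (v1 * a1 + v2 * (n * w))) := by rw [hw]; ring
        _ = 0 := by rw [hv]; ring
    have e11 : -(n * (v2 * d1)) * (e * a1) * -w +
        (-(n * (v2 * d1)) * (e * b1) + (-(n * (v2 * d1)) * x + 1) * (e * d1)) * a1 =
        e * (a1 * d1) := by rw [hw]; ring
    rw [e00, e01, e10, e11]

/-- the anti-involution fixes all double cosets -/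
theorem iot_fix {n m : Fq[X]} (hn : n ≠ 0) (hm : m.Monic) {M : Matrix (Fin 2) (Fin 2) Fq[X]}
    (h : M ∈ del n m) : ∃ u ∈ gam n, ∃ v ∈ gam n, iot n M = u * M * v := by
  obtain ⟨γ, hγ, r, hr, he⟩ := exists_rep hm h
  obtain ⟨u, hu, v, hv, l, k, hd⟩ := diag_rep hr
  have hdv := h.2.2
  have h1 : (u * γ) * M * v = !![l, 0; 0, k] := by rw [← hd, ← he]; simp only [mul_assoc]
  have h2 : iot n (!![l, 0; 0, k] : Matrix (Fin 2) (Fin 2) Fq[X]) = !![l, 0; 0, k] := by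
    have := iot_of hn l 0 0 k
    simpa using this
  have hug := mul_mem_gam hu hγ
  have hug2 : n ∣ ((u * γ) * M) 1 0 := (mul_mem_del hug h).2.2
  have h3 : iot n v * (iot n M * iot n (u * γ)) = (u * γ) * M * v := by
    rw [← iot_mul hn hug.2 hdv, ← iot_mul hn hug2 hv.2, h1, h2]
  have hiv := iot_gam hn hv
  have hiu := iot_gam hn hug
  refine ⟨(iot n v)⁻¹ * (u * γ), mul_mem_gam (inv_mem_gam hiv) hug, v * (iot n (u * γ))⁻¹,
    mul_mem_gam hv (inv_mem_gam hiu), ?_⟩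
  have h4 : (iot n v)⁻¹ * (iot n v * (iot n M * iot n (u * γ))) * (iot n (u * γ))⁻¹ = iot n M := by
    rw [← mul_assoc (iot n v)⁻¹, Matrix.nonsing_inv_mul _ hiv.1, one_mul, mul_assoc,
      Matrix.mul_nonsing_inv _ hiu.1, mul_one]
  rw [← h4, h3]
  simp only [mul_assoc]

end Pool.Agent.J4H97.HP
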