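import Pool.Agent.J4H97.HP.Red

/-!
# Project HP, job J3
-/

open Polynomial Matrix

namespace Pool.Agent.J4H97.HP

open Pool.Agent.J4H98.HP

variable {Fq : Type} [Field Fq]

lemma order_unif : (unif Fq).order = 1 := order_single' 1

lemma unif_ne : unif Fq ≠ 0 := single_ne 1

lemma det_w_ne : (!![0, 1; unif Fq, 0] : Matrix (Fin 2) (Fin 2) (Kinf Fq)).det ≠ 0 := by
  rw [Matrix.det_fin_two_of]
  simpa using unif_ne

lemma edge_one (k : ℤ) (u : Kinf Fq) :
    edge 1 k u = gl !![HahnSeries.single k (1 : Fq), u; 0, 1] := by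
  unfold edge
  rw [Matrix.map_one _ (map_zero _) (map_one _), gl_one, one_mul]

lemma val_of_lt {x : Kinf Fq} (k : ℤ) (h : ¬ Val (k + 1) x) : x ≠ 0 ∧ x.order ≤ k := by
  rw [val_iff] at h
  push Not at h
  exact ⟨h.1, by have := h.2; omega⟩

lemma val_mul_unif {k : ℤ} {x : Kinf Fq} (h : Val k x) : Val (k + 1) (x * unif Fq) := by
  rw [val_iff] at h ⊢
  by_cases hx : x = 0
  · left; rw [hx, zero_mul]
  · right
    rw [order_mul' hx unif_ne, order_unif]
    rcases h with h | h
    · exact absurd h hx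
    · linarith

theorem t_IWA : S_IWA := by
  intro Fq _ _ N _ F hF h0
  have key : ∀ a b c d : Kinf Fq, d ≠ 0 → a * d - b * c ≠ 0 → Val (d.order + 1) c →
      F (gl !![a, b; c, d]) = 0 := by
    intro a b c d hd he hc
    have := red hF 1 a b c d hd he hc
    rw [one_mul, one_mul, ← edge_one] at this
    rw [this]; exact h0 _ _
  funext g
  show F g = 0
  obtain ⟨a, b, c, d, hg⟩ : ∃ a b c d : Kinf Fq, g.1 = !![a, b; c, d] :=
    ⟨g.1 0 0, g.1 0 1, g.1 1 0, g.1 1 1, Matrix.eta_fin_two g.1⟩
  have hgg : g = gl !![a, b; c, d] := by rw [← hg, gl_self]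
  have hdet : (!![a, b; c, d] : Matrix (Fin 2) (Fin 2) (Kinf Fq)).det ≠ 0 := by
    rw [← hg]
    exact ((Matrix.isUnit_iff_isUnit_det _).1 g.isUnit).ne_zero
  have he : a * d - b * c ≠ 0 := by rwa [Matrix.det_fin_two_of] at hdet
  by_cases hd : d ≠ 0 ∧ Val (d.order + 1) c
  · rw [hgg]; exact key a b c d hd.1 he hd.2
  · -- multiply by `w`
    have hrev := hF.reverse g
    have hmul : g * gl !![0, 1; unif Fq, 0] = gl !![b * unif Fq, a; d * unif Fq, c] := by
      rw [hgg, ← gl_mul hdet det_w_ne, Matrix.mul_fin_two]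
      simp
    have hc : c ≠ 0 := by
      intro hc
      apply hd
      refine ⟨?_, ?_⟩
      · rintro rfl
        apply he
        rw [hc]; ring
      · rw [hc]; intro i _; rfl
    have hv : Val (c.order + 1) (d * unif Fq) := by
      by_cases hd0 : d = 0
      · rw [hd0, zero_mul]; intro i _; rfl
      · apply val_mul_unif
        rw [val_iff]
        right
        have : ¬ Val (d.order + 1) c := fun h => hd ⟨hd0, h⟩
        exact (val_of_lt _ this).2
    have he' : b * unif Fq * c - a * (d * unif Fq) ≠ 0 := by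
      have : b * unif Fq * c - a * (d * unif Fq) = -(a * d - b * c) * unif Fq := by ring
      rw [this]
      exact mul_ne_zero (neg_ne_zero.2 he) unif_ne
    have := key _ _ _ _ hc he' hv
    rw [← hmul, hrev, neg_eq_zero] at this
    exact this

end Pool.Agent.J4H97.HP
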