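import Pool.Agent.J4H97.HP.Hk

/-!
# Project HP, job J4
-/

open Polynomial Matrix

namespace Pool.Agent.J4H97.HP

open Pool.Agent.J4H98.HP

variable {Fq : Type} [Field Fq] [Fintype Fq]

lemma heckeSet_finite (n m : Fq[X]) : (heckeSet n m).Finite := by
  rw [heckeSet_eq]
  exact (pairs_finite n m).biUnion fun x _ => Set.finite_range _

lemma hecke_sum {N : Type} [AddCommGroup N] (n m : Fq[X]) (F : G Fq → N) (g : G Fq) :
    hecke n m F g = ∑ h ∈ (heckeSet_finite n m).toFinset, F (h * g) := by
  unfold hecke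
  exact finsum_mem_eq_finite_toFinset_sum _ _

theorem t_PRESC : S_PRESC := by
  intro Fq _ _ n m N _ F _ hF
  refine ⟨?_, ?_, ?_, ?_⟩
  · intro g κ hκ
    rw [hecke_sum, hecke_sum]
    apply Finset.sum_congr rfl
    intro h _
    rw [← mul_assoc, hF.iwahori _ κ hκ]
  · intro g z hz
    rw [hecke_sum, hecke_sum]
    apply Finset.sum_congr rfl
    intro h _
    rw [← mul_assoc, hF.center _ z hz]
  · intro g
    rw [hecke_sum, hecke_sum, ← Finset.sum_neg_distrib]
    apply Finset.sum_congr rfl
    intro h _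
    rw [← mul_assoc, hF.reverse]
  · intro g
    have e : ∀ c : Fq, hecke n m F (g * gl !![HahnSeries.C c, 1; 1, 0]) =
        ∑ h ∈ (heckeSet_finite n m).toFinset, F (h * g * gl !![HahnSeries.C c, 1; 1, 0]) := by
      intro c
      rw [hecke_sum]
      apply Finset.sum_congr rfl
      intro h _
      rw [← mul_assoc]
    rw [Finset.sum_congr rfl (fun c _ => e c), hecke_sum, Finset.sum_comm,
      ← Finset.sum_add_distrib]
    apply Finset.sum_eq_zero
    intro h _
    exact hF.harmonic (h * g)

end Pool.Agent.J4H97.HP
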