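import Pool.Agent.J4H97.HP.PresG

/-!
# Project HP, job J6
-/

open Polynomial Matrix

namespace Pool.Agent.J4H97.HP

open Pool.Agent.J4H98.HP

section
variable {Fq : Type} [Field Fq]

/-- integral matrices with determinant in `F_q^* m` -/
def dets (m : Fq[X]) : Set (Matrix (Fin 2) (Fin 2) Fq[X]) :=
  {M | ∃ ε : Fq, ε ≠ 0 ∧ M.det = C ε * m}

/-- the class of a matrix: entries modulo `m n`, and the leading coefficient of the determinant -/
noncomputable def cls (n m : Fq[X]) (M : Matrix (Fin 2) (Fin 2) Fq[X]) :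
    (Fin 2 → Fin 2 → Fq[X]) × Fq :=
  (fun i j => M i j %ₘ (m * n), M.det.leadingCoeff)

lemma cls_coset {n m : Fq[X]} (hm : m.Monic) {M r : Matrix (Fin 2) (Fin 2) Fq[X]}
    (hM : M ∈ dets m) (hr : r ∈ dets m) (h : cls n m M = cls n m r) :
    ∃ γ ∈ gam n, γ * r = M := by
  obtain ⟨ε, hε, hd⟩ := hM
  obtain ⟨ε', hε', hd'⟩ := hr
  have hlc : ∀ e : Fq, (C e * m).leadingCoeff = e := by
    intro e; rw [leadingCoeff_mul, hm.leadingCoeff, leadingCoeff_C, mul_one]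
  have hεε : ε' = ε := by
    have := congrArg Prod.snd h
    simp only [cls] at this
    rw [hd, hd', hlc, hlc] at this
    exact this.symm
  subst hεε
  have hent : ∀ i j, ∃ e : Fq[X], M i j = r i j + m * n * e := by
    intro i j
    have h1 : M i j %ₘ (m * n) = r i j %ₘ (m * n) :=
      congrFun (congrFun (congrArg Prod.fst h) i) j
    refine ⟨M i j /ₘ (m * n) - r i j /ₘ (m * n), ?_⟩
    have h2 := modByMonic_add_div (M i j) (m * n)
    have h3 := modByMonic_add_div (r i j) (m * n)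
    linear_combination h1 - h2 + h3
  choose e he using hent
  set E : Matrix (Fin 2) (Fin 2) Fq[X] := Matrix.of e with hE
  have hMr : M = r + (m * n) • E := by
    refine Matrix.ext fun i j => ?_
    rw [Matrix.add_apply, Matrix.smul_apply, smul_eq_mul]
    exact he i j
  set γ : Matrix (Fin 2) (Fin 2) Fq[X] := 1 + (C ε'⁻¹ * n) • (E * r.adjugate) with hγ
  have hcc : C ε'⁻¹ * C ε' = (1 : Fq[X]) := by rw [← C_mul, inv_mul_cancel₀ hε, C_1]
  have hγr : γ * r = M := by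
    rw [hγ, add_mul, one_mul, Matrix.smul_mul, Matrix.mul_assoc, Matrix.adjugate_mul, hd',
      Matrix.mul_smul, mul_one, smul_smul, hMr]
    congr 2
    calc C ε'⁻¹ * n * (C ε' * m) = (C ε'⁻¹ * C ε') * (m * n) := by ring
      _ = m * n := by rw [hcc, one_mul]
  refine ⟨γ, ⟨?_, ?_⟩, hγr⟩
  · have h1 : γ.det * r.det = M.det := by rw [← Matrix.det_mul, hγr]
    rw [hd, hd'] at h1
    have h2 : γ.det = 1 := by
      have h3 : (C ε' * m : Fq[X]) ≠ 0 := mul_ne_zero (C_ne_zero.2 hε) hm.ne_zero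
      exact mul_right_cancel₀ h3 (by rw [h1, one_mul])
    rw [h2]; exact isUnit_one
  · rw [hγ, Matrix.add_apply, Matrix.smul_apply, Matrix.one_apply_ne (by decide), zero_add,
      smul_eq_mul]
    exact Dvd.dvd.mul_right (Dvd.intro_left _ rfl) _

end

variable {Fq : Type} [Field Fq] [Fintype Fq]

lemma cls_finite {n m : Fq[X]} (hn : n.Monic) (hm : m.Monic) :
    (cls n m '' dets m).Finite := by
  set k := (m * n).natDegree
  have hfin : {f : Fin 2 → Fin 2 → Fq[X] | ∀ i, f i ∈ {f | ∀ j, f j ∈ {p : Fq[X] | p.natDegree ≤ k}}}.Finite :=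
    Set.Finite.pi' fun _ => Set.Finite.pi' fun _ => finite_natDegree_le k
  apply Set.Finite.subset (hfin.prod (Set.finite_univ (α := Fq)))
  rintro _ ⟨M, -, rfl⟩
  refine ⟨?_, Set.mem_univ _⟩
  intro i j
  exact natDegree_modByMonic_le _ (hm.mul hn)

theorem t_PRESS : S_PRESS := by
  intro Fq _ _ n m N _ F hn hm ⟨S, hS, hF⟩
  classical
  set R : Set (Matrix (Fin 2) (Fin 2) Fq[X]) :=
    (Function.invFunOn (cls n m) (dets m)) '' (cls n m '' dets m) with hR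
  have hRfin : R.Finite := (cls_finite hn hm).image _
  have hRdet : ∀ M ∈ dets m, ∃ r ∈ R, ∃ γ ∈ gam n, γ * r = M := by
    intro M hM
    have hex : ∃ a ∈ dets m, cls n m a = cls n m M := ⟨M, hM, rfl⟩
    refine ⟨Function.invFunOn (cls n m) (dets m) (cls n m M), ⟨_, ⟨M, hM, rfl⟩, rfl⟩, ?_⟩
    exact cls_coset hm hM (Function.invFunOn_mem hex) (Function.invFunOn_eq hex).symm
  have hRd : ∀ r ∈ R, r.det ≠ 0 := by
    rintro _ ⟨_, ⟨M, hM, rfl⟩, rfl⟩
    have hex : ∃ a ∈ dets m, cls n m a = cls n m M := ⟨M, hM, rfl⟩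
    obtain ⟨ε, hε, hd⟩ := Function.invFunOn_mem hex
    rw [hd]
    exact mul_ne_zero (C_ne_zero.2 hε) hm.ne_zero
  refine ⟨(fun x : Matrix (Fin 2) (Fin 2) Fq[X] × G Fq => ge x.1 * x.2) '' (R ×ˢ S),
    (hRfin.prod hS).image _, ?_⟩
  intro g hg
  rw [hecke_rep] at hg
  obtain ⟨h, hh, hne⟩ := Finset.exists_ne_zero_of_sum_ne_zero hg
  have hh' : h ∈ rep n m := (rep_finite n m).mem_toFinset.1 hh
  obtain ⟨γ0, hγ0, s, hs, κ, hκ, z, hz, he⟩ := hF _ hne
  obtain ⟨γ, hγ, rfl⟩ := mem_Gam0_iff.1 hγ0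
  have hhd := rep_det hh'
  have hdet : h.det = m := by
    obtain ⟨a, b, d, ha, hd, had, -, -, rfl⟩ := hh'
    rw [Matrix.det_fin_two_of, had]; ring
  have hadj : h.adjugate.det = m := by
    rw [Matrix.adjugate_fin_two, Matrix.det_fin_two_of, ← hdet, Matrix.det_fin_two]; ring
  have hadj0 : h.adjugate.det ≠ 0 := by rw [hadj]; exact hm.ne_zero
  have hγd := gam_unit_ne hγ
  have hM : h.adjugate * γ ∈ dets m := by
    obtain ⟨u, hu⟩ := (Polynomial.isUnit_iff.1 hγ.1)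
    refine ⟨u, hu.1.ne_zero, ?_⟩
    rw [Matrix.det_mul, hadj, ← hu.2]; ring
  obtain ⟨r, hr, γ', hγ', hrr⟩ := hRdet _ hM
  have hmK : emb Fq m ≠ 0 := emb_ne hm.ne_zero
  refine ⟨ge γ', ge_mem hγ', ge r * s, ⟨(r, s), ⟨hr, hs⟩, rfl⟩, κ, hκ, z * (emb Fq m)⁻¹,
    mul_ne_zero hz (inv_ne_zero hmK), ?_⟩
  -- `adj h * h = m`
  have h1 : ge h.adjugate * ge h = gl !![emb Fq m, 0; 0, emb Fq m] := by
    rw [← ge_mul hadj0 hhd, Matrix.adjugate_mul, hdet]
    unfold ge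
    congr 1
    rw [Matrix.eta_fin_two ((m • (1 : Matrix (Fin 2) (Fin 2) Fq[X])).map (emb Fq))]
    simp
  have h2 : ge γ' * ge r = ge h.adjugate * ge γ := by
    rw [← ge_mul (gam_unit_ne hγ') (hRd r hr), hrr, ge_mul hadj0 hγd]
  have h3 : gl !![z * (emb Fq m)⁻¹, 0; 0, z * (emb Fq m)⁻¹] =
      gl !![z, 0; 0, z] * (gl !![emb Fq m, 0; 0, emb Fq m])⁻¹ := by
    rw [z_inv hmK, ← gl_mul (det_z_ne hz) (det_z_ne (inv_ne_zero hmK)), Matrix.mul_fin_two]
    simp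
  have hcent : ∀ x : G Fq, gl !![emb Fq m, 0; 0, emb Fq m] * x =
      x * gl !![emb Fq m, 0; 0, emb Fq m] := by
    intro x
    apply Units.ext
    show (gl !![emb Fq m, 0; 0, emb Fq m]).1 * x.1 = x.1 * (gl !![emb Fq m, 0; 0, emb Fq m]).1
    rw [gl_val (det_z_ne hmK), Matrix.eta_fin_two x.1, Matrix.mul_fin_two, Matrix.mul_fin_two]
    simp [mul_comm]
  have h4 : gl !![emb Fq m, 0; 0, emb Fq m] * g = ge h.adjugate * ge γ * s * κ * gl !![z, 0; 0, z] := by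
    rw [← h1, mul_assoc, he]
    simp only [mul_assoc]
  rw [h3]
  have h5 : ge γ' * (ge r * s) * κ * (gl !![z, 0; 0, z] * (gl !![emb Fq m, 0; 0, emb Fq m])⁻¹) =
      (ge h.adjugate * ge γ * s * κ * gl !![z, 0; 0, z]) * (gl !![emb Fq m, 0; 0, emb Fq m])⁻¹ := by
    rw [← h2]
    simp only [mul_assoc]
  rw [h5, ← h4, hcent, mul_assoc, mul_inv_cancel, mul_one]

end Pool.Agent.J4H97.HP
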