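import Pool.Agent.J4H98.HP.Jobs

/-!
# Project HP, jobs J1 and J3: reduction of 2x2 matrices over Laurent series
-/

open Polynomial Matrix

namespace Pool.Agent.J4H97.HP

open Pool.Agent.J4H98.HP

variable {Fq : Type} [Field Fq]

/-! ### Valuations -/

lemma val_iff (k : ℤ) (x : Kinf Fq) : Val k x ↔ x = 0 ∨ k ≤ x.order := by
  constructor
  · intro h
    by_cases hx : x = 0
    · exact Or.inl hx
    · right
      by_contra hlt
      exact hx (HahnSeries.coeff_order_eq_zero.1 (h _ (not_le.1 hlt)))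
  · rintro (h | h)
    · subst h; intro i _; simp
    · intro i hi
      exact HahnSeries.coeff_eq_zero_of_lt_order (lt_of_lt_of_le hi h)

lemma order_mul' {x y : Kinf Fq} (hx : x ≠ 0) (hy : y ≠ 0) : (x * y).order = x.order + y.order :=
  HahnSeries.order_mul hx hy

lemma order_inv' {x : Kinf Fq} (hx : x ≠ 0) : (x⁻¹).order = -x.order := by
  have h := order_mul' hx (inv_ne_zero hx)
  rw [mul_inv_cancel₀ hx, HahnSeries.order_one] at h
  linarith

lemma order_div' {x y : Kinf Fq} (hx : x ≠ 0) (hy : y ≠ 0) : (x / y).order = x.order - y.order := by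
  rw [div_eq_mul_inv, order_mul' hx (inv_ne_zero hy), order_inv' hy]; ring

lemma val_div {k : ℤ} {x y : Kinf Fq} (hx : Val k x) (hy : y ≠ 0) : Val (k - y.order) (x / y) := by
  rw [val_iff] at hx ⊢
  by_cases h0 : x = 0
  · left; rw [h0, zero_div]
  · right
    rw [order_div' h0 hy]
    rcases hx with h | h
    · exact absurd h h0
    · linarith

lemma single_ne (k : ℤ) : (HahnSeries.single k (1 : Fq) : Kinf Fq) ≠ 0 :=
  HahnSeries.single_ne_zero one_ne_zero

lemma order_single' (k : ℤ) : (HahnSeries.single k (1 : Fq) : Kinf Fq).order = k :=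
  HahnSeries.order_single one_ne_zero

lemma unit_of_order {x : Kinf Fq} (hx : x ≠ 0) (h : x.order = 0) :
    Val 0 x ∧ x.coeff 0 ≠ 0 := by
  refine ⟨(val_iff 0 x).2 (Or.inr h.ge), ?_⟩
  intro h0
  apply hx
  apply HahnSeries.coeff_order_eq_zero.1
  rw [h]; exact h0

/-! ### The map `gl` -/

lemma gl_val {M : Matrix (Fin 2) (Fin 2) (Kinf Fq)} (h : M.det ≠ 0) : (gl M).1 = M := by
  unfold gl
  rw [dif_pos h]
  rfl

lemma gl_mul {M N : Matrix (Fin 2) (Fin 2) (Kinf Fq)} (hM : M.det ≠ 0) (hN : N.det ≠ 0) :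
    gl (M * N) = gl M * gl N := by
  apply Units.ext
  have h : (M * N).det ≠ 0 := by rw [Matrix.det_mul]; exact mul_ne_zero hM hN
  have h1 := gl_val h
  have h2 : (gl M * gl N).1 = (gl M).1 * (gl N).1 := rfl
  rw [h2, gl_val hM, gl_val hN]
  exact h1

lemma gl_self (g : G Fq) : gl g.1 = g := by
  apply Units.ext
  apply gl_val
  have : IsUnit (g.1.det) := (Matrix.isUnit_iff_isUnit_det _).1 g.isUnit
  exact this.ne_zero

lemma gl_one : gl (1 : Matrix (Fin 2) (Fin 2) (Kinf Fq)) = 1 := by
  apply Units.ext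
  rw [gl_val (by rw [Matrix.det_one]; exact one_ne_zero)]
  rfl

variable [Fintype Fq] {N : Type} [AddCommGroup N] {F : G Fq → N}

/-- The main reduction. -/
theorem red (hF : IsCochain F) (g : G Fq) (a b c d : Kinf Fq) (hd : d ≠ 0)
    (he : a * d - b * c ≠ 0) (hc : Val (d.order + 1) c) :
    F (g * gl !![a, b; c, d]) =
      F (g * gl !![HahnSeries.single ((a * d - b * c).order - 2 * d.order) (1 : Fq), b / d; 0, 1]) := by
  set e := a * d - b * c with hedef
  set k : ℤ := e.order - 2 * d.order with hk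
  set p : Kinf Fq := HahnSeries.single k (1 : Fq) with hp
  have hp0 : p ≠ 0 := single_ne k
  set x : Kinf Fq := e / (d ^ 2 * p) with hx
  have hdp : d ^ 2 * p ≠ 0 := mul_ne_zero (pow_ne_zero _ hd) hp0
  have hx0 : x ≠ 0 := div_ne_zero he hdp
  have hxo : x.order = 0 := by
    rw [hx, order_div' he hdp, order_mul' (pow_ne_zero _ hd) hp0, hp, order_single',
      sq, order_mul' hd hd, hk]
    ring
  obtain ⟨hx1, hx2⟩ := unit_of_order hx0 hxo
  have hP : (!![p, b / d; 0, 1] : Matrix (Fin 2) (Fin 2) (Kinf Fq)).det ≠ 0 := by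
    rw [Matrix.det_fin_two_of]; simpa using hp0
  have hK : (!![x, 0; c / d, 1] : Matrix (Fin 2) (Fin 2) (Kinf Fq)).det = x := by
    rw [Matrix.det_fin_two_of]; ring
  have hZ : (!![d, 0; 0, d] : Matrix (Fin 2) (Fin 2) (Kinf Fq)).det ≠ 0 := by
    rw [Matrix.det_fin_two_of]
    simpa using hd
  have hM : (!![a, b; c, d] : Matrix (Fin 2) (Fin 2) (Kinf Fq)) =
      !![p, b / d; 0, 1] * !![x, 0; c / d, 1] * !![d, 0; 0, d] := by
    have hxp : p * x * d = e / d := by
      rw [hx]; field_simp
    have h00 : (p * x + b / d * (c / d)) * d = a := by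
      have : (p * x + b / d * (c / d)) * d = p * x * d + b * c / d := by
        field_simp
      rw [this, hxp, hedef]
      field_simp
      ring
    have h10 : c / d * d = c := by field_simp
    have h01 : b / d * d = b := by field_simp
    rw [Matrix.mul_fin_two, Matrix.mul_fin_two]
    simp only [mul_zero, mul_one, zero_mul, one_mul, zero_add, add_zero]
    rw [h00, h10, h01]
  have hKn : (!![x, 0; c / d, 1] : Matrix (Fin 2) (Fin 2) (Kinf Fq)).det ≠ 0 := by rw [hK]; exact hx0
  rw [hM, gl_mul (by rw [Matrix.det_mul]; exact mul_ne_zero hP hKn) hZ, gl_mul hP hKn,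
    ← mul_assoc, ← mul_assoc, hF.center _ d hd, hF.iwahori]
  refine ⟨?_, ?_, ?_⟩
  · rw [gl_val hKn]
    intro i j
    fin_cases i <;> fin_cases j
    · exact hx1
    · intro i _; rfl
    · have := val_div hc hd
      intro i hi
      apply this
      have : i < 0 := hi
      linarith
    · intro i hi
      show (1 : Kinf Fq).coeff i = 0
      rw [HahnSeries.coeff_one, if_neg (ne_of_lt hi)]
  · rw [gl_val hKn]
    have := val_div hc hd
    intro i hi
    apply this
    linarith
  · rw [gl_val hKn, hK]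
    exact hx2

end Pool.Agent.J4H97.HP
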