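import Pool.Agent.J4H98.HP.Jobs2
import Pool.Agent.N814.DR.Rigid
import Pool.Agent.N814.DR.Slash
import Pool.Agent.J4H97.HP.Iwa

/-!
# Project HP, K2: formal properties of the action
-/

open Polynomial Matrix Filter Topology

namespace Pool.Agent.J4H97.HP

open Pool.Agent.J4H98.HP
open Pool.Agent.TH828.DM (Omega OmegaN IsRigidAnalytic expA res HasRes pt)
open Pool.Agent.N814.DR (slash SmallAtInfinity)

section
variable {Fq : Type} [Field Fq] {C : Type} [NontriviallyNormedField C] [Algebra Fq C]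
  {t s : C} {ι : Kinf Fq →+* C}

lemma sl_mem (g : G Fq) (f : C → C) {z : C} (hz : z ∈ Omega Fq t) :
    sl t ι g f z = ι g.1.det * ((ι (g.1 1 0) * z + ι (g.1 1 1)) ^ 2)⁻¹ *
      f ((ι (g.1 0 0) * z + ι (g.1 0 1)) / (ι (g.1 1 0) * z + ι (g.1 1 1))) := by
  unfold sl
  rw [Set.indicator_of_mem hz]

lemma sl_not_mem (g : G Fq) (f : C → C) {z : C} (hz : z ∉ Omega Fq t) : sl t ι g f z = 0 := by
  unfold sl
  rw [Set.indicator_of_notMem hz]

lemma iota_mem (hS : Sta t s ι) (x : Kinf Fq) : ι x ∈ Pool.Agent.TH828.DM.Kinf Fq t :=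
  (hS.range _).2 ⟨x, rfl⟩

lemma iota_ne (ι : Kinf Fq →+* C) {x : Kinf Fq} (hx : x ≠ 0) : ι x ≠ 0 :=
  (map_ne_zero ι).2 hx

lemma G_det_ne (g : G Fq) : g.1.det ≠ 0 := by
  have h : IsUnit g.1.det := (Matrix.isUnit_iff_isUnit_det _).1 g.isUnit
  exact h.ne_zero

lemma iota_det (ι : Kinf Fq →+* C) (g : G Fq) :
    ι (g.1 0 0) * ι (g.1 1 1) - ι (g.1 0 1) * ι (g.1 1 0) ≠ 0 := by
  have h := iota_ne ι (G_det_ne g)
  rwa [Matrix.det_fin_two, map_sub, map_mul, map_mul] at h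

lemma sl_den_ne (hS : Sta t s ι) (g : G Fq) {z : C} (hz : z ∈ Omega Fq t) :
    ι (g.1 1 0) * z + ι (g.1 1 1) ≠ 0 :=
  Pool.Agent.N814.DR.den_ne_zero (iota_mem hS _) (iota_mem hS _) (iota_det ι g) hz

lemma sl_mob_mem (hS : Sta t s ι) (g : G Fq) {z : C} (hz : z ∈ Omega Fq t) :
    (ι (g.1 0 0) * z + ι (g.1 0 1)) / (ι (g.1 1 0) * z + ι (g.1 1 1)) ∈ Omega Fq t :=
  Pool.Agent.N814.DR.mob_mem_omega (iota_mem hS _) (iota_mem hS _) (iota_mem hS _) (iota_mem hS _)
    (iota_det ι g) hz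

lemma sl_mul (hS : Sta t s ι) (g h : G Fq) (f : C → C) :
    sl t ι (g * h) f = sl t ι h (sl t ι g f) := by
  funext z
  by_cases hz : z ∈ Omega Fq t
  · have h1 := sl_den_ne hS h hz
    have h2 := sl_mob_mem hS h hz
    have h3 := sl_den_ne hS g h2
    have h4 := sl_den_ne hS (g * h) hz
    rw [sl_mem h _ hz, sl_mem g _ h2, sl_mem _ _ hz]
    have e1 : (g * h).1 = g.1 * h.1 := rfl
    rw [e1] at h4 ⊢
    rw [Matrix.det_mul, map_mul]
    rw [Matrix.mul_apply, Matrix.mul_apply, Matrix.mul_apply, Matrix.mul_apply, Fin.sum_univ_two,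
      Fin.sum_univ_two, Fin.sum_univ_two, Fin.sum_univ_two]
    rw [Matrix.mul_apply, Matrix.mul_apply, Fin.sum_univ_two, Fin.sum_univ_two] at h4
    simp only [map_add, map_mul] at h4 ⊢
    generalize ι (g.1 0 0) = a at *
    generalize ι (g.1 0 1) = b at *
    generalize ι (g.1 1 0) = c at *
    generalize ι (g.1 1 1) = d at *
    generalize ι (h.1 0 0) = a' at *
    generalize ι (h.1 0 1) = b' at *
    generalize hc' : ι (h.1 1 0) = c' at *
    generalize ι (h.1 1 1) = d' at *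
    have e2 : (c * a' + d * c') * z + (c * b' + d * d') =
        (c * ((a' * z + b') / (c' * z + d')) + d) * (c' * z + d') := by
      field_simp
      ring
    have e3 : (a * a' + b * c') * z + (a * b' + b * d') =
        (a * ((a' * z + b') / (c' * z + d')) + b) * (c' * z + d') := by
      field_simp
      ring
    rw [e2, e3, mul_div_mul_right _ _ h1, mul_pow, mul_inv]
    ring
  · rw [sl_not_mem _ _ hz, sl_not_mem _ _ hz]

lemma sl_one {f : C → C} (hf : ∀ z, z ∉ Omega Fq t → f z = 0) : sl t ι 1 f = f := by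
  funext z
  by_cases hz : z ∈ Omega Fq t
  · rw [sl_mem _ _ hz]
    simp
  · rw [sl_not_mem _ _ hz, hf z hz]

lemma sl_add (g : G Fq) (f f' : C → C) : sl t ι g (f + f') = sl t ι g f + sl t ι g f' := by
  funext z
  by_cases hz : z ∈ Omega Fq t
  · rw [Pi.add_apply, sl_mem _ _ hz, sl_mem _ _ hz, sl_mem _ _ hz, Pi.add_apply, mul_add]
  · rw [Pi.add_apply, sl_not_mem _ _ hz, sl_not_mem _ _ hz, sl_not_mem _ _ hz, add_zero]

lemma sl_smul (g : G Fq) (c : C) (f : C → C) : sl t ι g (c • f) = c • sl t ι g f := by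
  funext z
  by_cases hz : z ∈ Omega Fq t
  · rw [Pi.smul_apply, sl_mem _ _ hz, sl_mem _ _ hz, Pi.smul_apply, smul_eq_mul, smul_eq_mul]
    ring
  · rw [Pi.smul_apply, sl_not_mem _ _ hz, sl_not_mem _ _ hz, smul_zero]

lemma sl_center {z : Kinf Fq} (hz0 : z ≠ 0) {f : C → C} (hf : ∀ y, y ∉ Omega Fq t → f y = 0) :
    sl t ι (gl !![z, 0; 0, z]) f = f := by
  have hdet : Matrix.det !![z, 0; 0, z] ≠ 0 := by
    rw [Matrix.det_fin_two_of]
    simp [hz0]
  funext y
  by_cases hy : y ∈ Omega Fq t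
  · rw [sl_mem _ _ hy, gl_val hdet, Matrix.det_fin_two_of]
    have h1 := iota_ne ι hz0
    simp only [Matrix.of_apply, Matrix.cons_val', Matrix.cons_val_zero, Matrix.cons_val_one,
      Matrix.cons_val_fin_one, map_zero, zero_mul, zero_add, add_zero, mul_zero, sub_zero, map_mul]
    rw [mul_div_cancel_left₀ _ h1]
    field_simp
  · rw [sl_not_mem _ _ hy, hf y hy]

end

section
variable {Fq : Type} [Field Fq] [Fintype Fq] {C : Type} [NontriviallyNormedField C]
  [IsUltrametricDist C] [Algebra Fq C] {t s : C} {ι : Kinf Fq →+* C}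

lemma sl_rigid (hS : Sta t s ι) (g : G Fq) {f : C → C} (hf : IsRigidAnalytic Fq t f) :
    IsRigidAnalytic Fq t (sl t ι g f) := by
  refine Pool.Agent.N814.DR.IsRigidAnalytic.congr' hS.ht
    (Pool.Agent.N814.DR.IsRigidAnalytic.mob hS.ht hf (iota_mem hS _) (iota_mem hS _)
    (iota_mem hS _) (iota_mem hS _) (iota_det ι g) (ι g.1.det) 2) fun z hz => ?_
  rw [sl_mem g f hz]

lemma emb_det (δ : Matrix (Fin 2) (Fin 2) Fq[X]) : (δ.map (emb Fq)).det = emb Fq δ.det := by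
  rw [Matrix.det_fin_two, Matrix.det_fin_two, map_sub, map_mul, map_mul]
  rfl

lemma sl_slash (hS : Sta t s ι) {δ : Matrix (Fin 2) (Fin 2) Fq[X]} (hδ : δ.det ≠ 0) (f : C → C) :
    sl t ι (gl (δ.map (emb Fq))) f = slash Fq t 2 1 δ f := by
  have hdet : (δ.map (emb Fq)).det ≠ 0 := by
    rw [emb_det]
    intro h0
    have := Pool.Agent.N814.DR.aeval_ne_zero hS.ht hδ
    rw [← hS.emb, h0, map_zero] at this
    exact this rfl
  funext z
  by_cases hz : z ∈ Omega Fq t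
  · rw [sl_mem _ _ hz, Pool.Agent.N814.DR.slash_of_mem _ _ hz, gl_val hdet, emb_det, hS.emb, zpow_one]
    simp only [Matrix.map_apply, hS.emb]
    rfl
  · rw [sl_not_mem _ _ hz, Pool.Agent.N814.DR.slash_of_not_mem _ _ hz]

end

theorem t_SL : Pool.Agent.J4H98.HP.S_SL := by
  intro Fq C _ _ _ _ _ _ _ t s ι hS
  exact ⟨fun g h f => sl_mul hS g h f, fun f hf => sl_one hf, fun g f hf => sl_rigid hS g hf,
    fun g f f' => sl_add g f f', fun g c f => sl_smul g c f, fun δ f hδ => sl_slash hS hδ f,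
    fun z f hz hf => sl_center hz hf⟩

end Pool.Agent.J4H97.HP
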